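import Mathlib
import Pool.Agent.Helper905.Manes.All

/-!
# Rational periodic and preperiodic points of `b x + c / x`

The proof is in `Pool/Agent/Helper905/Manes`.  Along a cycle `x i` of non-zero rational points put
`u i = c / (x i) ^ 2` and `s i = b + u i`, so that `x (i + 1) = s i * x i` and
`u (i + 1) = u i / (s i) ^ 2`.  Only primes dividing the numerator `N` of `b` occur in the `s i`, with
exponents bounded on average, and two consecutive `s i` determine `b`; this gives the counts.  Local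
arguments at `2`, `3`, `5` and at primes dividing `b`, and size inequalities, give the explicit
classes.  The tails of the remaining cycles lead to seven square conditions on `b`.
-/

namespace Pool.Agent.Results.MP_15eae7_nt.BothQuestions

open Pool.Agent.Helper905.Manes

theorem result :
    (∀ b c : ℚ, b ≠ 0 → c ≠ 0 → (0 < b * c ∨ Good b ∨
      ∃ p : ℕ, p.Prime ∧ padicValRat p b ≠ 0 ∧ Odd (padicValRat p (b * c))) → Fine b c) ∧
    (∀ b : ℚ, b ≠ 0 → (¬ ∃ β : ℚ, b = - β ^ 2) → Fine b 1) ∧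
    (∀ ε : ℝ, 0 < ε → ∃ C : ℝ, ∀ H : ℕ,
      {b : ℚ | Exceptional b ∧ b.num.natAbs ≤ H}.Finite ∧
      ({b : ℚ | Exceptional b ∧ b.num.natAbs ≤ H}.ncard : ℝ) ≤ C * (H : ℝ) ^ (1 + ε)) ∧
    (∀ c : ℚ, c ≠ 0 → ∀ ε : ℝ, 0 < ε → ∃ C : ℝ, ∀ H : ℕ,
      {b : ℚ | b ≠ 0 ∧ ¬ Fine b c ∧ b.num.natAbs ≤ H}.Finite ∧
      ({b : ℚ | b ≠ 0 ∧ ¬ Fine b c ∧ b.num.natAbs ≤ H}.ncard : ℝ) ≤ C * (H : ℝ) ^ (1 / 2 + ε)) ∧
    (∀ b : ℤ, b ≠ 0 → Settled (b : ℚ)) ∧
    (∃ C : ℝ, ∀ H : ℕ, ((Box H ∩ {b : ℚ | ¬ Settled b}).ncard : ℝ) ≤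
      C * (H : ℝ) ^ (3 / 2 : ℝ)) ∧
    Filter.Tendsto (fun H : ℕ => ((Box H ∩ {b : ℚ | Settled b}).ncard : ℝ) /
      ((Box H).ncard : ℝ)) Filter.atTop (nhds 1) :=
  all_parts

end Pool.Agent.Results.MP_15eae7_nt.BothQuestions
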