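import Mathlib
set_option autoImplicit false

/-!
# Rational periodic points of `b x + c / x` for almost all `b`

Outline.  Along a cycle `x i` of non-zero rational points put `u i = c / (x i) ^ 2` and
`s i = b + u i`, so that `x (i + 1) = s i * x i` and `u (i + 1) = u i / (s i) ^ 2` (structure `Cyc`).
The product of all `s i` over a period is `1`.

* Only primes dividing the numerator `N` of `b` occur in the `s i`; at such a prime either the cycle
  is of a restricted type, which leads to period dividing four (`caseAC`, torsion lemmas), or all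
  valuations are controlled by integers `E i`, `W i` composed of primes dividing `N`, with
  `|s (i + 1)| (E i W i) ^ 2 = N E (i + 1)` and the product of all `E i (W i) ^ 2` over a period
  equal to `N ^ n` (`exists_data`).
* Hence some five consecutive data `E i, W i, E (i+1), W (i+1), E (i+2)` are at most `N ^ 3`
  (`small_index`); there are `O(N ^ ε)` integers up to `N ^ 3` composed of primes dividing `N`
  (`rankin`, `sup3_card`); and two consecutive `s i` determine `b` (`b_eq`).  So a given numerator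
  belongs to `O(N ^ ε)` exceptional `b` (`part_two`).
* `part_one` treats explicit classes of `b` without exception (local arguments at `2`, `3`, `5` and
  size inequalities), and all pairs with `b c > 0`.
* `fine_of_parity`: a prime that divides `b` or `1 / b` and occurs in `b c` with an odd exponent
  excludes cycles of other periods; so for a given `c` the exceptional `b` lie in finitely many
  square classes (`class_of_not_fine`, `normal_form`), which improves the count (`part_four`).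
-/

namespace Pool.Agent.Results.MP_15eae7_nt.MainQ1

section

/-- strictly increasing along a periodic sequence is impossible -/
theorem per_lt {α : Type*} [Preorder α] (f : ℕ → α) {n : ℕ} (hn : 0 < n)
    (hper : ∀ i, f (i + n) = f i) (k : ℕ) (h : ∀ i, k ≤ i → f i < f (i + 1)) : False := by
  have h1 : ∀ j, 0 < j → f k < f (k + j) := by
    intro j hj
    induction j with
    | zero => omega
    | succ j ih =>
      rcases Nat.eq_zero_or_pos j with h0 | h0
      · subst h0; exact h k le_rfl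
      · exact lt_trans (ih h0) (h (k + j) (by omega))
  have := h1 n hn
  rw [hper] at this
  exact lt_irrefl _ this

theorem per_mul {α : Type*} (f : ℕ → α) {n : ℕ}
    (hper : ∀ i, f (i + n) = f i) (m i : ℕ) : f (i + n * m) = f i := by
  induction m with
  | zero => simp
  | succ m ih => rw [Nat.mul_succ, ← Nat.add_assoc, hper, ih]

/-- the cycle hypotheses -/
structure Cyc (b : ℚ) (u s : ℕ → ℚ) (n : ℕ) : Prop where
  hn : 0 < n
  hb : b ≠ 0
  hs : ∀ i, s i = b + u i
  hu : ∀ i, u (i + 1) = u i / (s i) ^ 2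
  hper : ∀ i, u (i + n) = u i
  u0 : ∀ i, u i ≠ 0
  s0 : ∀ i, s i ≠ 0

namespace Cyc

variable {b : ℚ} {u s : ℕ → ℚ} {n : ℕ}

theorem sper (C : Cyc b u s n) (i : ℕ) : s (i + n) = s i := by
  rw [C.hs, C.hs, C.hper]

theorem neg (C : Cyc b u s n) : Cyc (-b) (fun i => - u i) (fun i => - s i) n where
  hn := C.hn
  hb := neg_ne_zero.mpr C.hb
  hs := fun i => by simp only [C.hs i]; ring
  hu := fun i => by
    simp only [C.hu i]
    have := C.s0 i
    field_simp
  hper := fun i => by simp only [C.hper i]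
  u0 := fun i => neg_ne_zero.mpr (C.u0 i)
  s0 := fun i => neg_ne_zero.mpr (C.s0 i)

theorem all_of_one (C : Cyc b u s n) (k : ℕ) (h : (s k) ^ 2 = 1) : ∀ i, (s i) ^ 2 = 1 := by
  have h1 : ∀ j, (s (k + j)) ^ 2 = 1 := by
    intro j
    induction j with
    | zero => exact h
    | succ j ih =>
      have h2 : u (k + j + 1) = u (k + j) := by rw [C.hu, ih, div_one]
      have h3 : s (k + j + 1) = s (k + j) := by rw [C.hs, C.hs, h2]
      rw [← Nat.add_assoc, h3]; exact ih
  intro i
  have h2 := per_mul s C.sper k i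
  have hn := C.hn
  have h3 : k ≤ i + n * k := by nlinarith [Nat.mul_le_mul_right k hn]
  obtain ⟨j, hj⟩ := Nat.exists_eq_add_of_le h3
  rw [← h2, hj]; exact h1 j

theorem s_succ (C : Cyc b u s n) (i : ℕ) :
    (s i) ^ 2 * s (i + 1) = b * (s i) ^ 2 + s i - b := by
  have h0 := C.s0 i
  have h1 : u i = s i - b := by rw [C.hs i]; ring
  rw [C.hs (i + 1), C.hu i, h1]
  field_simp
  ring

theorem t_eq (C : Cyc b u s n) (i : ℕ) :
    b * ((s i) ^ 2 - 1) = s i * (s i * s (i + 1) - 1) := by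
  have := C.s_succ i
  linarith

theorem sub_one (C : Cyc b u s n) (i : ℕ) :
    (s (i + 1) - 1) * (s i) ^ 2 = (s i - 1) * ((b - 1) * s i + b) := by
  have := C.s_succ i
  linear_combination this

theorem add_one (C : Cyc b u s n) (i : ℕ) :
    (s (i + 1) + 1) * (s i) ^ 2 = (s i + 1) * ((b + 1) * s i - b) := by
  have := C.s_succ i
  linear_combination this

/-- if everything is constant -/
theorem all_of_u (C : Cyc b u s n) (k : ℕ) (h : u (k + 1) = u k) : ∀ i, (s i) ^ 2 = 1 := by
  apply C.all_of_one k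
  have h1 := C.hu k
  rw [h] at h1
  have h2 := C.s0 k
  have h3 := C.u0 k
  field_simp at h1
  exact h1

end Cyc

/-- integer valuation sequences with `β ≤ 0` -/
theorem val_nonpos {β : ℤ} {g e : ℕ → ℤ} {n : ℕ} (hn : 0 < n) (hper : ∀ i, g (i + n) = g i)
    (h1 : ∀ i, g (i + 1) = g i - 2 * e i)
    (h2 : ∀ i, g i ≠ β → e i = min β (g i))
    (h3 : ∀ i, g i = β → β ≤ e i) (hβ : β ≤ 0) :
    ∀ i, e i = 0 ∧ β ≤ g i := by
  have hup : ∀ i, β < g i → β < g (i + 1) ∧ g i ≤ g (i + 1) ∧ e i = β := by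
    intro i hi
    have a := h1 i
    have c := h2 i (by omega)
    rw [min_eq_left (by omega)] at c
    omega
  by_cases hex : ∃ k, β < g k
  · obtain ⟨k, hk⟩ := hex
    have h4 : ∀ j, β < g (k + j) := by
      intro j
      induction j with
      | zero => exact hk
      | succ j ih => exact (hup _ ih).1
    have h5 : ∀ i, β < g i := by
      intro i
      have h6 := per_mul g hper k i
      have h7 : k ≤ i + n * k := by nlinarith [Nat.mul_le_mul_right k hn]
      obtain ⟨j, hj⟩ := Nat.exists_eq_add_of_le h7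
      rw [← h6, hj]; exact h4 j
    have hb0 : β = 0 := by
      by_contra hne
      have hlt : β < 0 := by omega
      apply per_lt g hn hper 0
      intro i _
      have := (hup i (h5 i)).2.2
      have := h1 i
      omega
    intro i
    have := (hup i (h5 i)).2.2
    have := h5 i
    omega
  · push Not at hex
    have h5 : ∀ i, g i = β := by
      intro i
      by_contra hne
      have h6 := hex i
      have h7 := h2 i hne
      rw [min_eq_right h6] at h7
      have h8 := h1 i
      have h9 := hex (i + 1)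
      omega
    intro i
    have := h1 i
    have := h5 i
    have := h5 (i + 1)
    omega

end

section

namespace Cyc

variable {b : ℚ} {u s : ℕ → ℚ} {n : ℕ}

theorem v1 (C : Cyc b u s n) (p : ℕ) [Fact p.Prime] (i : ℕ) :
    padicValRat p (u (i + 1)) = padicValRat p (u i) - 2 * padicValRat p (s i) := by
  rw [C.hu i, padicValRat.div (C.u0 i) (pow_ne_zero _ (C.s0 i)), padicValRat.pow]
  push_cast
  ring

theorem v2 (C : Cyc b u s n) (p : ℕ) [Fact p.Prime] (i : ℕ)
    (h : padicValRat p (u i) ≠ padicValRat p b) :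
    padicValRat p (s i) = min (padicValRat p b) (padicValRat p (u i)) := by
  have h0 := C.s0 i
  rw [C.hs i] at h0 ⊢
  exact padicValRat.add_eq_min h0 C.hb (C.u0 i) (Ne.symm h)

theorem v3 (C : Cyc b u s n) (p : ℕ) [Fact p.Prime] (i : ℕ) :
    min (padicValRat p b) (padicValRat p (u i)) ≤ padicValRat p (s i) := by
  have h0 := C.s0 i
  rw [C.hs i] at h0 ⊢
  exact padicValRat.min_le_padicValRat_add h0

theorem v_unit (C : Cyc b u s n) (p : ℕ) [Fact p.Prime] (h : padicValRat p b ≤ 0) (i : ℕ) :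
    padicValRat p (s i) = 0 ∧ padicValRat p b ≤ padicValRat p (u i) := by
  have := val_nonpos (β := padicValRat p b) (g := fun i => padicValRat p (u i))
    (e := fun i => padicValRat p (s i)) C.hn (fun i => by simp only [C.hper i])
    (C.v1 p) (C.v2 p) (fun i hi => by
      have := C.v3 p i
      rw [hi, min_self] at this; exact this) h i
  exact this

end Cyc

/-- potential inequality -/
theorem pot {β g g' e : ℤ} (hβ : 0 < β) (h1 : g' = g - 2 * e) (h2 : g ≠ β → e = min β g)
    (h3 : min β g ≤ e) :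
    2 * (β + e - min β g) + (if g = β then 4 * β else 0) ≤
      4 * β + max (β - g') (g' - β) - max (β - g) (g - β) := by
  by_cases h : g = β
  · rw [if_pos h]
    subst h
    rw [min_self] at h3 ⊢
    omega
  · rw [if_neg h]
    have := h2 h
    omega

end

section

namespace Cyc

variable {b : ℚ} {u s : ℕ → ℚ} {n : ℕ}

theorem u_neg (C : Cyc b u s n) (hb : 1 ≤ b) (i : ℕ) : u i < 0 := by
  by_contra hcon
  have hk : 0 < u i := lt_of_le_of_ne (not_lt.mp hcon) (Ne.symm (C.u0 i))
  have hf : ∀ j, 0 < u (i + j) := by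
    intro j
    induction j with
    | zero => exact hk
    | succ j ih =>
      rw [← Nat.add_assoc, C.hu]
      have := C.s0 (i + j)
      positivity
  apply per_lt (fun j => - u j) C.hn (fun j => by simp only [C.hper j]) i
  intro j hj
  obtain ⟨l, rfl⟩ := Nat.exists_eq_add_of_le hj
  have h1 := hf l
  have h2 := C.hs (i + l)
  have h3 : 1 < s (i + l) := by linarith
  have h4 : 1 < (s (i + l)) ^ 2 := by nlinarith
  rw [C.hu (i + l), neg_lt_neg_iff, div_lt_iff₀ (by linarith)]
  nlinarith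

theorem s_lt_one (C : Cyc b u s n) (hu : ∀ i, u i < 0) (hnt : ∀ i, (s i) ^ 2 ≠ 1) (i : ℕ) :
    s i < 1 := by
  by_contra hcon
  have hk : 1 < s i := by
    refine lt_of_le_of_ne (not_lt.mp hcon) ?_
    intro h
    exact hnt i (by rw [← h]; norm_num)
  have hinc : ∀ j, 1 < s j → s j < s (j + 1) := by
    intro j hj
    have h1 := C.hu j
    have h2 := C.hs j
    have h3 := C.hs (j + 1)
    have h4 := hu j
    have h5 : 1 < (s j) ^ 2 := by nlinarith
    have h6 : u j < u (j + 1) := by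
      rw [h1, lt_div_iff₀ (by linarith)]
      nlinarith
    linarith
  have hf : ∀ j, 1 < s (i + j) := by
    intro j
    induction j with
    | zero => exact hk
    | succ j ih =>
      rw [← Nat.add_assoc]
      exact lt_trans ih (hinc _ ih)
  apply per_lt s C.hn C.sper i
  intro j hj
  obtain ⟨l, rfl⟩ := Nat.exists_eq_add_of_le hj
  exact hinc _ (hf l)

theorem s_gt (C : Cyc b u s n) (hu : ∀ i, u i < 0) (hnt : ∀ i, (s i) ^ 2 ≠ 1) (i : ℕ) :
    0 < (b - 1) * s i + b := by
  have h1 := C.s_lt_one hu hnt i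
  have h2 := C.s_lt_one hu hnt (i + 1)
  have h3 := C.sub_one i
  have h0 := C.s0 i
  have h4 : 0 < (s i) ^ 2 := by positivity
  by_contra hcon
  have h5 : (b - 1) * s i + b ≤ 0 := not_lt.mp hcon
  nlinarith [mul_nonneg_of_nonpos_of_nonpos (sub_nonpos.mpr h1.le) h5]

end Cyc

/-- absolute value bounds in the form of two rational inequalities -/
theorem abs_bounds' {b : ℚ} {u s : ℕ → ℚ} {n : ℕ} (C : Cyc b u s n) (hb : 2 ≤ b)
    (hnt : ∀ i, (s i) ^ 2 ≠ 1) (i : ℕ) :
    b - 1 < b * |s i| ∧ (b - 1) * |s i| < b := by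
  have hu := C.u_neg (by linarith)
  have h1 := C.s_lt_one hu hnt i
  have h2 := C.s_gt hu hnt i
  have h3 := C.s_gt hu hnt (i + 1)
  have h4 := C.s_succ i
  have h0 := C.s0 i
  have h5 : 0 < (s i) ^ 2 := by positivity
  -- (b-1) * s' + b > 0, times s^2
  have h6 : 0 < (b - 1) * (b * (s i) ^ 2 + s i - b) + b * (s i) ^ 2 := by
    rw [← h4]
    nlinarith
  have h7 : (b - 1) * (b - s i) < b ^ 2 * (s i) ^ 2 := by nlinarith
  rcases lt_or_gt_of_ne h0 with hneg | hpos
  · rw [abs_of_neg hneg]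
    constructor
    · by_contra hcon
      have h8 : b * (- s i) ≤ b - 1 := not_lt.mp hcon
      have h9 : 0 < b * (- s i) := by nlinarith
      nlinarith
    · nlinarith
  · rw [abs_of_pos hpos]
    constructor
    · by_contra hcon
      have h8 : b * s i ≤ b - 1 := not_lt.mp hcon
      have h9 : 0 < b * s i := by nlinarith
      nlinarith
    · nlinarith

theorem abs_bounds {b : ℚ} {u s : ℕ → ℚ} {n : ℕ} (C : Cyc b u s n) (hb : 6 ≤ b)
    (hnt : ∀ i, (s i) ^ 2 ≠ 1) (i : ℕ) :
    b - 1 < b * |s i| ∧ (b - 1) * |s i| < b :=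
  abs_bounds' C (by linarith) hnt i

theorem same_bound {b a a' : ℚ} (hb : 6 ≤ b) (h1 : b - 1 < b * a) (h2 : (b - 1) * a < b)
    (h3 : b - 1 < b * a') (h4 : (b - 1) * a' < b)
    (h5 : b * |a ^ 2 - 1| = a * |a * a' - 1|) :
    |a - 1| * (b - 1) ^ 3 ≤ b * a := by
  have ha : 0 < a := by
    by_contra h
    have : b * a ≤ 0 := mul_nonpos_of_nonneg_of_nonpos (by linarith) (not_lt.mp h)
    linarith
  have ha' : 0 < a' := by
    by_contra h
    have : b * a' ≤ 0 := mul_nonpos_of_nonneg_of_nonpos (by linarith) (not_lt.mp h)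
    linarith
  have h6 : |a * a' - 1| * (b - 1) ^ 2 ≤ 2 * b - 1 := by
    have hsq : 0 < (b - 1) ^ 2 := by nlinarith
    rcases abs_cases (a * a' - 1) with ⟨he, _⟩ | ⟨he, _⟩
    · rw [he]
      have : (b - 1) * a * ((b - 1) * a') < b * b :=
        mul_lt_mul'' h2 h4 (by nlinarith) (by nlinarith)
      nlinarith
    · rw [he]
      have h7 : (b - 1) * (b - 1) < b * a * (b * a') :=
        mul_lt_mul'' h1 h3 (by nlinarith) (by nlinarith)
      have h8 : (1 - a * a') * b ^ 2 < 2 * b - 1 := by nlinarith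
      have h9 : (1 - a * a') * (b - 1) ^ 2 ≤ (1 - a * a') * b ^ 2 :=
        mul_le_mul_of_nonneg_left (by nlinarith) (by linarith)
      linarith
  have h7 : |a ^ 2 - 1| = |a - 1| * (a + 1) := by
    have e : a ^ 2 - 1 = (a - 1) * (a + 1) := by ring
    rw [e, abs_mul, abs_of_pos (show (0:ℚ) < a + 1 by linarith)]
  rw [h7] at h5
  have h8 : 0 ≤ |a - 1| := abs_nonneg _
  -- b |a-1| (a+1) (b-1)^2 ≤ a (2b-1)
  have h9 : |a - 1| * (b * (a + 1)) * (b - 1) ^ 2 ≤ a * (2 * b - 1) := by
    have : |a - 1| * (b * (a + 1)) * (b - 1) ^ 2 = a * (|a * a' - 1| * (b - 1) ^ 2) := by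
      linear_combination (b - 1) ^ 2 * h5
    rw [this]
    exact mul_le_mul_of_nonneg_left h6 ha.le
  have h10 : |a - 1| * (2 * b - 1) * (b - 1) ^ 2 ≤ |a - 1| * (b * (a + 1)) * (b - 1) ^ 2 := by
    apply mul_le_mul_of_nonneg_right _ (by positivity)
    apply mul_le_mul_of_nonneg_left _ h8
    nlinarith
  have h11 : |a - 1| * (b - 1) ^ 2 ≤ a := by
    have h12 : (|a - 1| * (b - 1) ^ 2) * (2 * b - 1) ≤ a * (2 * b - 1) := by nlinarith
    exact le_of_mul_le_mul_right h12 (by linarith)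
  have h13 : |a - 1| * (b - 1) ^ 3 = |a - 1| * (b - 1) ^ 2 * (b - 1) := by ring
  rw [h13]
  nlinarith

theorem pos_neg_bound {b s a' : ℚ} (hb : 6 ≤ b) (h1 : b - 1 < b * s)
    (h3 : b - 1 < b * a') (h4 : (b - 1) * a' < b)
    (h5 : s ^ 2 * (b + a') = b - s) (ha1 : a' ≠ 1) :
    (b + 1) * s - b ≠ 0 ∧ |(b + 1) * s - b| * (b - 1) ^ 3 ≤ b ^ 2 * s := by
  have hs : 0 < s := by
    by_contra h
    have : b * s ≤ 0 := mul_nonpos_of_nonneg_of_nonpos (by linarith) (not_lt.mp h)
    linarith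
  have ha' : 0 < a' := by
    by_contra h
    have : b * a' ≤ 0 := mul_nonpos_of_nonneg_of_nonpos (by linarith) (not_lt.mp h)
    linarith
  set D := (b + 1) * s - b with hD
  have hid : D * ((D + 2 * b) * (b + a') + (b + 1)) = b ^ 2 * (1 - a') := by
    rw [hD]
    linear_combination (b + 1) ^ 2 * h5
  have hbr : 2 * b ^ 2 ≤ (D + 2 * b) * (b + a') + (b + 1) := by
    have e1 : 2 * b - 1 ≤ D + 2 * b := by rw [hD]; nlinarith
    have e2 : b ≤ b + a' := by linarith
    have e3 : (2 * b - 1) * b ≤ (D + 2 * b) * (b + a') :=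
      mul_le_mul e1 e2 (by linarith) (by linarith)
    nlinarith
  constructor
  · intro h0
    rw [h0, zero_mul] at hid
    have : 1 - a' ≠ 0 := by
      intro h; apply ha1; linarith
    have hb2 : b ^ 2 ≠ 0 := by positivity
    exact (mul_ne_zero hb2 this) hid.symm
  · have h6 : |D| * (2 * b ^ 2) ≤ b ^ 2 * |1 - a'| := by
      have e1 : |D| * ((D + 2 * b) * (b + a') + (b + 1)) = b ^ 2 * |1 - a'| := by
        have := congrArg abs hid
        rw [abs_mul, abs_mul, abs_of_pos (show (0:ℚ) < b ^ 2 by positivity),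
          abs_of_pos (lt_of_lt_of_le (by positivity) hbr)] at this
        exact this
      rw [← e1]
      exact mul_le_mul_of_nonneg_left hbr (abs_nonneg _)
    have h7 : |1 - a'| * (b - 1) ≤ 1 := by
      rcases abs_cases (1 - a') with ⟨he, _⟩ | ⟨he, _⟩
      · rw [he]; nlinarith
      · rw [he]; nlinarith
    have h8 : 0 ≤ |D| := abs_nonneg _
    have h9 : |D| * 2 ≤ |1 - a'| := by
      have hb2 : 0 < b ^ 2 := by positivity
      have : (|D| * 2) * b ^ 2 ≤ |1 - a'| * b ^ 2 := by nlinarith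
      exact le_of_mul_le_mul_right this hb2
    have h10 : |D| * (b - 1) ≤ 1 := by nlinarith
    have h11 : |D| * (b - 1) ^ 3 ≤ (b - 1) ^ 2 := by
      have : |D| * (b - 1) ^ 3 = (|D| * (b - 1)) * (b - 1) ^ 2 := by ring
      rw [this]
      nlinarith [mul_le_mul_of_nonneg_right h10 (sq_nonneg (b - 1))]
    nlinarith

theorem neg_pos_bound {b a a' : ℚ} (hb : 6 ≤ b) (h1 : b - 1 < b * a)
    (h3 : b - 1 < b * a') (h4 : a' < 1)
    (h5 : a ^ 2 * (b - a') = b + a) :
    (b - 1) * a - b ≠ 0 ∧ |(b - 1) * a - b| * (b - 1) ^ 3 ≤ b ^ 2 * a := by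
  have hs : 0 < a := by
    by_contra h
    have : b * a ≤ 0 := mul_nonpos_of_nonneg_of_nonpos (by linarith) (not_lt.mp h)
    linarith
  have ha' : 0 < a' := by
    by_contra h
    have : b * a' ≤ 0 := mul_nonpos_of_nonneg_of_nonpos (by linarith) (not_lt.mp h)
    linarith
  set D := (b - 1) * a - b with hD
  have hid : D * ((D + 2 * b) * (b - a') - (b - 1)) = - (b ^ 2 * (1 - a')) := by
    rw [hD]
    linear_combination (b - 1) ^ 2 * h5
  have hbr : (b - 1) * (2 * b - 3) ≤ (D + 2 * b) * (b - a') - (b - 1) := by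
    have e1 : 2 * (b - 1) ≤ D + 2 * b := by rw [hD]; nlinarith
    have e2 : b - 1 ≤ b - a' := by linarith
    have e3 : 2 * (b - 1) * (b - 1) ≤ (D + 2 * b) * (b - a') :=
      mul_le_mul e1 e2 (by linarith) (by linarith)
    nlinarith
  have hbr0 : 0 < (b - 1) * (2 * b - 3) := by nlinarith
  constructor
  · intro h0
    rw [h0, zero_mul] at hid
    have : 1 - a' ≠ 0 := by
      intro h; linarith
    have hb2 : b ^ 2 ≠ 0 := by positivity
    apply (mul_ne_zero hb2 this)
    linarith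
  · have h6 : |D| * ((b - 1) * (2 * b - 3)) ≤ b ^ 2 * (1 - a') := by
      have e1 : |D| * ((D + 2 * b) * (b - a') - (b - 1)) = b ^ 2 * (1 - a') := by
        have := congrArg abs hid
        rw [abs_mul, abs_neg, abs_of_pos (show (0:ℚ) < b ^ 2 * (1 - a') by
            have : (0:ℚ) < 1 - a' := by linarith
            positivity),
          abs_of_pos (lt_of_lt_of_le hbr0 hbr)] at this
        exact this
      rw [← e1]
      exact mul_le_mul_of_nonneg_left hbr (abs_nonneg _)
    have h7 : (1 - a') * b ≤ 1 := by nlinarith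
    have h8 : 0 ≤ |D| := abs_nonneg _
    have h9 : |D| * ((b - 1) * (2 * b - 3)) ≤ b := by nlinarith
    have h10 : |D| * (b - 1) ^ 2 ≤ b := by
      have : |D| * (b - 1) ^ 2 ≤ |D| * ((b - 1) * (2 * b - 3)) :=
        mul_le_mul_of_nonneg_left (by nlinarith) h8
      linarith
    have h11 : |D| * (b - 1) ^ 3 ≤ b * (b - 1) := by
      have : |D| * (b - 1) ^ 3 = (|D| * (b - 1) ^ 2) * (b - 1) := by ring
      rw [this]
      exact mul_le_mul_of_nonneg_right h10 (by linarith)
    nlinarith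

end

section

/-- valuation of a rational at a prime dividing the numerator -/
theorem val_of_dvd {q : ℚ} {p : ℕ} (hp : p.Prime) (h : p ∣ q.num.natAbs) :
    padicValRat p q = (padicValNat p q.num.natAbs : ℤ) := by
  have h1 : ¬ p ∣ q.den := by
    intro h2
    have := q.reduced
    have h3 : p ∣ 1 := by
      rw [← this]; exact Nat.dvd_gcd h h2
    exact hp.one_lt.ne' (Nat.dvd_one.mp h3)
  rw [padicValRat, padicValNat.eq_zero_of_not_dvd h1, padicValInt]
  simp

theorem val_of_not_dvd {q : ℚ} {p : ℕ} (h : ¬ p ∣ q.num.natAbs) :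
    padicValRat p q ≤ 0 := by
  rw [padicValRat, padicValInt, padicValNat.eq_zero_of_not_dvd h]
  simp

theorem dvd_of_val_pos {q : ℚ} {p : ℕ} (h : 0 < padicValRat p q) : p ∣ q.num.natAbs := by
  by_contra hcon
  have := val_of_not_dvd hcon
  omega

theorem val_pos_of_dvd {q : ℚ} {p : ℕ} (hp : p.Prime) (h0 : q ≠ 0) (h : p ∣ q.num.natAbs) :
    0 < padicValRat p q := by
  haveI : Fact p.Prime := ⟨hp⟩
  rw [val_of_dvd hp h]
  have h1 : q.num.natAbs ≠ 0 := by
    simpa using h0
  have := one_le_padicValNat_of_dvd h1 h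
  exact_mod_cast this

/-- upper bound for the numerator of a positive rational in terms of valuations -/
theorem num_le {ρ : ℚ} (h0 : ρ ≠ 0) (S : Finset ℕ) (hS : ∀ p ∈ S, p.Prime) (h : ℕ → ℕ)
    (h1 : ∀ p ∈ S, padicValRat p ρ ≤ h p)
    (h2 : ∀ p, p.Prime → p ∉ S → padicValRat p ρ ≤ 0) :
    ρ.num.natAbs ≤ ∏ p ∈ S, p ^ h p := by
  have hX : ρ.num.natAbs ≠ 0 := by simpa using h0
  have e1 : ρ.num.natAbs = ∏ p ∈ (ρ.num.natAbs).primeFactors,
      p ^ (padicValNat p ρ.num.natAbs) := by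
    conv_lhs => rw [← Nat.factorization_prod_pow_eq_self hX]
    rw [Finsupp.prod, Nat.support_factorization]
    apply Finset.prod_congr rfl
    intro p hp
    rw [Nat.factorization_def _ (Nat.prime_of_mem_primeFactors hp)]
  have hsub : (ρ.num.natAbs).primeFactors ⊆ S := by
    intro p hp
    by_contra hcon
    have hpp := Nat.prime_of_mem_primeFactors hp
    have h3 := h2 p hpp hcon
    have h4 := val_pos_of_dvd hpp h0 (Nat.dvd_of_mem_primeFactors hp)
    omega
  rw [e1]
  calc ∏ p ∈ (ρ.num.natAbs).primeFactors, p ^ (padicValNat p ρ.num.natAbs)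
      ≤ ∏ p ∈ (ρ.num.natAbs).primeFactors, p ^ h p := by
        apply Finset.prod_le_prod'
        intro p hp
        have hpp := Nat.prime_of_mem_primeFactors hp
        apply Nat.pow_le_pow_right hpp.pos
        have h3 := h1 p (hsub hp)
        rw [val_of_dvd hpp (Nat.dvd_of_mem_primeFactors hp)] at h3
        exact_mod_cast h3
    _ ≤ ∏ p ∈ S, p ^ h p := by
        apply Finset.prod_le_prod_of_subset_of_one_le' hsub
        intro p hp _
        exact Nat.one_le_pow _ _ (hS p hp).pos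

/-- integrality step -/
theorem num_ge {ρ b : ℚ} (hb : 6 ≤ b) (h0 : 0 < ρ) (h1 : ρ ≠ 1)
    (h2 : |ρ - 1| * (b - 1) ^ 3 ≤ b * ρ) : (b - 1) ^ 3 ≤ b * (ρ.num.natAbs : ℚ) := by
  have hd : (0:ℚ) < ρ.den := by exact_mod_cast ρ.den_pos
  have hn : (0:ℚ) < ρ.num := by exact_mod_cast Rat.num_pos.mpr h0
  have e0 : ρ = ρ.num / ρ.den := (Rat.num_div_den ρ).symm
  have e1 : ((ρ.num.natAbs : ℕ) : ℚ) = ρ.num := by
    rw [Nat.cast_natAbs, abs_of_pos (Rat.num_pos.mpr h0)]
  rw [e1]
  have e2 : |ρ - 1| * ρ.den = |(ρ.num : ℚ) - ρ.den| := by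
    rw [← abs_of_pos hd, ← abs_mul, abs_of_pos hd]
    congr 1
    rw [sub_mul, one_mul, Rat.mul_den_eq_num]
  have e3 : (1:ℚ) ≤ |(ρ.num : ℚ) - ρ.den| := by
    have hne : ρ.num - (ρ.den : ℤ) ≠ 0 := by
      intro h
      apply h1
      have h3 : ρ.num = (ρ.den : ℤ) := by omega
      rw [e0, h3]
      push_cast
      exact div_self (ne_of_gt hd)
    have := Int.one_le_abs hne
    exact_mod_cast this
  have e4 : ρ * ρ.den = ρ.num := Rat.mul_den_eq_num ρ
  have h3 : 0 ≤ (b - 1) ^ 3 := by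
    have : (0:ℚ) ≤ b - 1 := by linarith
    positivity
  calc (b - 1) ^ 3 ≤ |(ρ.num : ℚ) - ρ.den| * (b - 1) ^ 3 := by nlinarith
    _ = (|ρ - 1| * (b - 1) ^ 3) * ρ.den := by rw [← e2]; ring
    _ ≤ (b * ρ) * ρ.den := mul_le_mul_of_nonneg_right h2 hd.le
    _ = b * ρ.num := by rw [mul_assoc, e4]

theorem val_abs (p : ℕ) (q : ℚ) : padicValRat p |q| = padicValRat p q := by
  rcases abs_choice q with h | h
  · rw [h]
  · rw [h, padicValRat.neg]

theorem rho_exists {b : ℚ} {u s : ℕ → ℚ} {n : ℕ} (C : Cyc b u s n) (hb : 6 ≤ b)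
    (hnt : ∀ i, (s i) ^ 2 ≠ 1) (i : ℕ) :
    ∃ ρ : ℚ, 0 < ρ ∧ ρ ≠ 1 ∧ |ρ - 1| * (b - 1) ^ 3 ≤ b * ρ ∧
      ∀ p : ℕ, p.Prime → (padicValRat p ρ ≤ padicValRat p b + padicValRat p (s i)
        - min (padicValRat p b) (padicValRat p (u i))) ∧
        (padicValRat p b ≤ 0 → padicValRat p ρ ≤ 0) := by
  have h0 := C.s0 i
  have h0' := C.s0 (i + 1)
  obtain ⟨a1, a2⟩ := abs_bounds C hb hnt i
  obtain ⟨a3, a4⟩ := abs_bounds C hb hnt (i + 1)
  have hu := C.u_neg (by linarith)
  have ht := C.t_eq i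
  have hs := C.s_succ i
  have hlt := C.s_lt_one hu hnt
  have hbpos : 0 < b := by linarith
  by_cases hsame : 0 < s i * s (i + 1)
  · refine ⟨|s i|, abs_pos.mpr h0, ?_, ?_, ?_⟩
    · intro h
      apply hnt i
      rw [← sq_abs, h]; norm_num
    · apply same_bound hb a1 a2 a3 a4
      have e : |s i| * |s (i + 1)| = s i * s (i + 1) := by rw [← abs_mul, abs_of_pos hsame]
      rw [e, sq_abs]
      have := congrArg abs ht
      rw [abs_mul, abs_mul, abs_of_pos hbpos] at this
      exact this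
    · intro p hp
      haveI : Fact p.Prime := ⟨hp⟩
      rw [val_abs]
      constructor
      · have := min_le_left (padicValRat p b) (padicValRat p (u i))
        linarith
      · intro hβ
        rw [(C.v_unit p hβ i).1]
  · have hneg : s i * s (i + 1) < 0 :=
      lt_of_le_of_ne (not_lt.mp hsame) (mul_ne_zero h0 h0')
    have hui : b - s i = - u i := by rw [C.hs i]; ring
    have hbs : 0 < b - s i := by have := hu i; linarith
    have hρ : 0 < b * |s i| / (b - s i) := by
      have := abs_pos.mpr h0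
      positivity
    have hkey : b * |s i| - (b - s i) ≠ 0 ∧
        |b * |s i| - (b - s i)| * (b - 1) ^ 3 ≤ b ^ 2 * |s i| := by
      rcases lt_or_gt_of_ne h0 with hn | hp
      · have hp' : 0 < s (i + 1) := by
          by_contra hc
          have := mul_nonneg_of_nonpos_of_nonpos hn.le (not_lt.mp hc)
          linarith
        rw [abs_of_neg hn] at a1 a2 ⊢
        rw [abs_of_pos hp'] at a3 a4
        have := neg_pos_bound (a := - s i) (a' := s (i + 1)) hb a1 a3 (hlt (i + 1))
          (by linear_combination - hs)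
        have e : b * -s i - (b - s i) = (b - 1) * -s i - b := by ring
        rw [e]
        exact this
      · have hn' : s (i + 1) < 0 := by
          by_contra hc
          have := mul_nonneg hp.le (not_lt.mp hc)
          linarith
        rw [abs_of_pos hp] at a1 a2 ⊢
        rw [abs_of_neg hn'] at a3 a4
        have := pos_neg_bound (s := s i) (a' := - s (i + 1)) hb a1 a3 a4
          (by linear_combination - hs) (by
            intro h
            apply hnt (i + 1)
            have : s (i + 1) = -1 := by linarith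
            rw [this]; norm_num)
        have e : b * s i - (b - s i) = (b + 1) * s i - b := by ring
        rw [e]
        exact this
    refine ⟨b * |s i| / (b - s i), hρ, ?_, ?_, ?_⟩
    · intro h
      rw [div_eq_one_iff_eq hbs.ne'] at h
      apply hkey.1
      linarith
    · have e : b * |s i| / (b - s i) - 1 = (b * |s i| - (b - s i)) / (b - s i) := by
        field_simp
      rw [e, abs_div, abs_of_pos hbs, div_mul_eq_mul_div, mul_div_assoc', div_le_div_iff_of_pos_right hbs]
      have := hkey.2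
      nlinarith
    · intro p hp
      haveI : Fact p.Prime := ⟨hp⟩
      have hv : padicValRat p (b * |s i| / (b - s i)) =
          padicValRat p b + padicValRat p (s i) - padicValRat p (u i) := by
        rw [padicValRat.div (mul_ne_zero C.hb (abs_ne_zero.mpr h0)) hbs.ne',
          padicValRat.mul C.hb (abs_ne_zero.mpr h0), val_abs, hui, padicValRat.neg]
      rw [hv]
      constructor
      · have := min_le_right (padicValRat p b) (padicValRat p (u i))
        linarith
      · intro hβ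
        have := C.v_unit p hβ i
        linarith [this.1, this.2]

end

section

theorem prod_fac {N : ℕ} (hN : N ≠ 0) : ∏ p ∈ N.primeFactors, p ^ (padicValNat p N) = N := by
  conv_rhs => rw [← Nat.factorization_prod_pow_eq_self hN]
  rw [Finsupp.prod, Nat.support_factorization]
  apply Finset.prod_congr rfl
  intro p hp
  rw [Nat.factorization_def _ (Nat.prime_of_mem_primeFactors hp)]

theorem size_contra {b : ℚ} {u s : ℕ → ℚ} {n : ℕ} (C : Cyc b u s n) (hb : 6 ≤ b)
    (hnt : ∀ i, (s i) ^ 2 ≠ 1)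
    (hq : ∀ p, p.Prime → p ∣ b.num.natAbs → 2 * b.den ≤ p ^ (padicValNat p b.num.natAbs))
    (hN : 2 * b.den ^ 2 ≤ b.num.natAbs) : False := by
  set N := b.num.natAbs with hNdef
  set D := b.den with hDdef
  have hN0 : N ≠ 0 := by
    rw [hNdef]; simpa using C.hb
  have hD0 : 0 < D := b.den_pos
  set S := N.primeFactors with hSdef
  let β : ℕ → ℕ := fun p => padicValNat p N
  have hβ : ∀ p ∈ S, padicValRat p b = (β p : ℤ) ∧ 0 < β p := by
    intro p hp
    have hpp := Nat.prime_of_mem_primeFactors hp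
    have hd := Nat.dvd_of_mem_primeFactors hp
    have h1 := val_of_dvd hpp hd
    have h2 := val_pos_of_dvd hpp C.hb hd
    refine ⟨h1, ?_⟩
    rw [h1] at h2
    exact_mod_cast h2
  have hpr : ∀ p ∈ S, p.Prime := fun p hp => Nat.prime_of_mem_primeFactors hp
  let g : ℕ → ℕ → ℤ := fun i p => padicValRat p (u i)
  let e : ℕ → ℕ → ℤ := fun i p => padicValRat p (s i)
  let h : ℕ → ℕ → ℕ := fun i p => ((β p : ℤ) + e i p - min (β p : ℤ) (g i p)).toNat
  let δ : ℕ → ℕ → ℕ := fun i p => if g i p = (β p : ℤ) then β p else 0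
  have hnn : ∀ i, ∀ p ∈ S, (h i p : ℤ) = (β p : ℤ) + e i p - min (β p : ℤ) (g i p) := by
    intro i p hp
    haveI : Fact p.Prime := ⟨hpr p hp⟩
    have h3 := C.v3 p i
    rw [(hβ p hp).1] at h3
    simp only [h, e, g]
    omega
  -- the potential inequality summed
  have hsum : ∀ p ∈ S, ∑ i ∈ Finset.range n, (h i p + 2 * δ i p) ≤ 2 * n * β p := by
    intro p hp
    haveI : Fact p.Prime := ⟨hpr p hp⟩
    let φ : ℕ → ℤ := fun i => max ((β p : ℤ) - g i p) (g i p - (β p : ℤ))
    have h1 : ∀ i, 2 * ((h i p : ℤ) + 2 * (δ i p : ℤ)) ≤ 4 * (β p : ℤ) + (φ (i + 1) - φ i) := by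
      intro i
      have hv1 := C.v1 p i
      have hv2 := C.v2 p i
      have hv3 := C.v3 p i
      rw [(hβ p hp).1] at hv2 hv3
      have hpos : (0:ℤ) < (β p : ℤ) := by exact_mod_cast (hβ p hp).2
      have hpot := pot hpos hv1 hv2 hv3
      have h4 := hnn i p hp
      have h5 : (4 * (δ i p : ℤ)) = (if padicValRat p (u i) = (β p : ℤ) then 4 * (β p : ℤ) else 0) := by
        simp only [δ, g]
        split_ifs <;> simp
      rw [← h5] at hpot
      simp only [φ, g, e] at h4 ⊢
      linarith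
    have h2 : ∑ i ∈ Finset.range n, (2 * ((h i p : ℤ) + 2 * (δ i p : ℤ))) ≤
        ∑ i ∈ Finset.range n, (4 * (β p : ℤ) + (φ (i + 1) - φ i)) :=
      Finset.sum_le_sum (fun i _ => h1 i)
    rw [Finset.sum_add_distrib, Finset.sum_range_sub, ← Finset.mul_sum] at h2
    have h3 : φ n = φ 0 := by
      simp only [φ, g]
      have := C.hper 0
      rw [Nat.zero_add] at this
      rw [this]
    rw [h3, sub_self, add_zero, Finset.sum_const, Finset.card_range, nsmul_eq_mul] at h2
    have h4 : ((∑ i ∈ Finset.range n, (h i p + 2 * δ i p) : ℕ) : ℤ) ≤ ((2 * n * β p : ℕ) : ℤ) := by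
      push_cast
      linarith
    exact_mod_cast h4
  let H : ℕ → ℕ := fun i => ∏ p ∈ S, p ^ h i p
  let W : ℕ → ℕ := fun i => ∏ p ∈ S, p ^ δ i p
  have hHW : ∀ i, H i * W i ^ 2 = ∏ p ∈ S, p ^ (h i p + 2 * δ i p) := by
    intro i
    simp only [H, W]
    rw [← Finset.prod_pow, ← Finset.prod_mul_distrib]
    apply Finset.prod_congr rfl
    intro p _
    rw [pow_add, mul_comm 2, pow_mul]
  have hfac : ∏ p ∈ S, p ^ (β p) = N := prod_fac hN0
  have hprod : ∏ i ∈ Finset.range n, (H i * W i ^ 2) ≤ (N ^ 2) ^ n := by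
    calc ∏ i ∈ Finset.range n, (H i * W i ^ 2)
        = ∏ i ∈ Finset.range n, ∏ p ∈ S, p ^ (h i p + 2 * δ i p) :=
          Finset.prod_congr rfl (fun i _ => hHW i)
      _ = ∏ p ∈ S, ∏ i ∈ Finset.range n, p ^ (h i p + 2 * δ i p) := Finset.prod_comm
      _ = ∏ p ∈ S, p ^ (∑ i ∈ Finset.range n, (h i p + 2 * δ i p)) :=
          Finset.prod_congr rfl (fun p _ => Finset.prod_pow_eq_pow_sum _ _ _)
      _ ≤ ∏ p ∈ S, p ^ (2 * n * β p) := by
          apply Finset.prod_le_prod'
          intro p hp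
          exact Nat.pow_le_pow_right (hpr p hp).pos (hsum p hp)
      _ = ∏ p ∈ S, (p ^ β p) ^ (2 * n) := by
          apply Finset.prod_congr rfl
          intro p _
          rw [← pow_mul, mul_comm]
      _ = (N ^ 2) ^ n := by
          rw [Finset.prod_pow, hfac, pow_mul]
  -- lower bound for H
  have hbND : b * D = N := by
    have h1 : b * b.den = b.num := Rat.mul_den_eq_num b
    have h2 : ((b.num.natAbs : ℕ) : ℚ) = b.num := by
      rw [Nat.cast_natAbs, abs_of_pos (Rat.num_pos.mpr (by linarith))]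
    rw [hNdef, h2]; exact h1
  have hDq : (0:ℚ) < D := by exact_mod_cast hD0
  have hH : ∀ i, 125 * (N:ℚ) ^ 2 ≤ 216 * (D:ℚ) ^ 2 * H i := by
    intro i
    obtain ⟨ρ, hρ0, hρ1, hρ2, hρ3⟩ := rho_exists C hb hnt i
    have h1 := num_ge hb hρ0 hρ1 hρ2
    have h2 : ρ.num.natAbs ≤ H i := by
      apply num_le hρ0.ne' S hpr (h i)
      · intro p hp
        have h3 := (hρ3 p (hpr p hp)).1
        have h4 := hnn i p hp
        rw [(hβ p hp).1] at h3
        simp only [e, g] at h4
        rw [h4]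
        exact h3
      · intro p hp hpS
        apply (hρ3 p hp).2
        apply val_of_not_dvd
        intro hd
        apply hpS
        exact Nat.mem_primeFactors.mpr ⟨hp, hd, hN0⟩
    have h3 : (b - 1) ^ 3 ≤ b * (H i : ℚ) := by
      have : (ρ.num.natAbs : ℚ) ≤ (H i : ℚ) := by exact_mod_cast h2
      nlinarith
    have h4 : 125 * b ^ 3 ≤ 216 * (b - 1) ^ 3 := by
      have h5 : 5 * b ≤ 6 * (b - 1) := by linarith
      have h6 : (5 * b) ^ 3 ≤ (6 * (b - 1)) ^ 3 := pow_le_pow_left₀ (by linarith) h5 3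
      nlinarith
    have h7 : b * (125 * b ^ 2) ≤ b * (216 * (H i : ℚ)) := by nlinarith
    have h8 : 125 * b ^ 2 ≤ 216 * (H i : ℚ) := le_of_mul_le_mul_left h7 (by linarith)
    rw [← hbND]
    nlinarith [mul_le_mul_of_nonneg_right h8 (sq_nonneg (D:ℚ))]
  have hNq : 2 * (D:ℚ) ^ 2 ≤ N := by exact_mod_cast hN
  have hNpos : (0:ℚ) < N := by exact_mod_cast Nat.pos_of_ne_zero hN0
  have hHN : ∀ i, N < H i := by
    intro i
    have h1 := hH i
    have h2 : (N:ℚ) < H i := by
      by_contra hc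
      have h3 : (H i : ℚ) ≤ N := not_lt.mp hc
      have h4 : 216 * (D:ℚ) ^ 2 * H i ≤ 216 * (D:ℚ) ^ 2 * N :=
        mul_le_mul_of_nonneg_left h3 (by positivity)
      nlinarith
    exact_mod_cast h2
  have hW : ∀ i, 2 * D ≤ W i := by
    intro i
    by_contra hcon
    apply absurd (hHN i)
    rw [not_lt]
    rw [← hfac]
    apply Finset.prod_le_prod'
    intro p hp
    apply Nat.pow_le_pow_right (hpr p hp).pos
    by_contra hc2
    apply hcon
    have hgb : g i p = (β p : ℤ) := by
      by_contra hne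
      haveI : Fact p.Prime := ⟨hpr p hp⟩
      have h2 := C.v2 p i
      rw [(hβ p hp).1] at h2
      have h3 := h2 hne
      have h4 := hnn i p hp
      simp only [e, g] at h4
      rw [h3] at h4
      omega
    have h5 : p ^ (δ i p) ≤ W i := by
      apply Finset.single_le_prod' (f := fun p => p ^ (δ i p)) _ hp
      intro q hq'
      exact Nat.one_le_pow _ _ (hpr q hq').pos
    have h6 : δ i p = β p := by simp only [δ]; rw [if_pos hgb]
    rw [h6] at h5
    exact le_trans (hq p (hpr p hp) (Nat.dvd_of_mem_primeFactors hp)) h5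
  have hbig : ∀ i, N ^ 2 < H i * W i ^ 2 := by
    intro i
    have h1 := hH i
    have h2 : (2 * (D:ℚ)) ≤ W i := by exact_mod_cast hW i
    have h3 : 4 * (D:ℚ) ^ 2 ≤ (W i : ℚ) ^ 2 := by nlinarith
    have h4 : (0:ℚ) ≤ H i := by positivity
    have h5 : (N:ℚ) ^ 2 < (H i : ℚ) * (W i : ℚ) ^ 2 := by
      have h6 : 4 * (D:ℚ) ^ 2 * H i ≤ (W i : ℚ) ^ 2 * H i := mul_le_mul_of_nonneg_right h3 h4
      nlinarith [sq_nonneg (N:ℚ), pow_pos hNpos 2]
    exact_mod_cast h5
  have hlt : ∏ i ∈ Finset.range n, (N ^ 2) < ∏ i ∈ Finset.range n, (H i * W i ^ 2) := by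
    apply Finset.prod_lt_prod_of_nonempty
    · intro i _
      have := Nat.pos_of_ne_zero hN0
      positivity
    · intro i _
      exact hbig i
    · exact ⟨0, Finset.mem_range.mpr C.hn⟩
  rw [Finset.prod_const, Finset.card_range] at hlt
  omega

end

section

theorem diff_prod {R : Type*} [CommRing R] (U : ℕ → R) (L : ℕ → ℕ → R)
    (h : ∀ i j, U (i + 1) - U (j + 1) = (U i - U j) * L i j) (i j l : ℕ) :
    U (i + l) - U (j + l) = (U i - U j) * ∏ t ∈ Finset.range l, L (i + t) (j + t) := by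
  induction l with
  | zero => simp
  | succ l ih =>
    rw [Finset.prod_range_succ, ← mul_assoc, ← ih, ← Nat.add_assoc, ← Nat.add_assoc, h]

theorem min_period {R : Type*} [CommRing R] (U : ℕ → R) {n : ℕ} (hn : 0 < n)
    (hper : U n = U 0) :
    ∃ m, 0 < m ∧ U m = U 0 ∧ ∀ k, 0 < k → k < m → U k ≠ U 0 := by
  classical
  have hex : ∃ m, 0 < m ∧ U m = U 0 := ⟨n, hn, hper⟩
  refine ⟨Nat.find hex, (Nat.find_spec hex).1, (Nat.find_spec hex).2, ?_⟩
  intro k hk hkm h
  exact Nat.find_min hex hkm ⟨hk, h⟩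

theorem sum_form {R : Type*} [CommRing R] (U : ℕ → R) (L : ℕ → ℕ → R)
    (h : ∀ i j, U (i + 1) - U (j + 1) = (U i - U j) * L i j) (m : ℕ) :
    U m - U 0 = (U 1 - U 0) * ∑ i ∈ Finset.range m, ∏ t ∈ Finset.range i, L (1 + t) (0 + t) := by
  rw [← Finset.sum_range_sub, Finset.mul_sum]
  apply Finset.sum_congr rfl
  intro i _
  rw [← diff_prod U L h 1 0 i, Nat.add_comm 1 i, Nat.zero_add]

theorem tor2 {R : Type*} [CommRing R] [IsDomain R] (φ : R →+* ZMod (2 ^ 2)) (U : ℕ → R)
    (L : ℕ → ℕ → R) (h : ∀ i j, U (i + 1) - U (j + 1) = (U i - U j) * L i j)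
    (hL : ∀ i j, φ (L i j) = 1) {n : ℕ} (hn : 0 < n) (hper : U n = U 0) : U 1 = U 0 := by
  obtain ⟨m, hm, hm1, hm2⟩ := min_period U hn hper
  rcases Nat.even_or_odd m with ⟨k, hk⟩ | hodd
  · exfalso
    have hk0 : 0 < k := by omega
    have h1 := diff_prod U L h k 0 k
    rw [← hk, hm1, Nat.zero_add] at h1
    have h2 : (U k - U 0) * (∏ t ∈ Finset.range k, L (k + t) (0 + t) + 1) = 0 := by
      rw [mul_add, ← h1]; ring
    rcases mul_eq_zero.mp h2 with h3 | h3
    · exact hm2 k hk0 (by omega) (sub_eq_zero.mp h3)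
    · have h4 := congrArg φ h3
      rw [map_add, map_prod, map_one, map_zero, Finset.prod_congr rfl (fun t _ => hL _ _),
        Finset.prod_const_one] at h4
      revert h4
      decide
  · by_contra hne
    have h1 := sum_form U L h m
    rw [hm1, sub_self] at h1
    rcases mul_eq_zero.mp h1.symm with h3 | h3
    · exact hne (sub_eq_zero.mp h3)
    · have h4 := congrArg φ h3
      rw [map_sum, map_zero] at h4
      have h5 : ∀ i ∈ Finset.range m, φ (∏ t ∈ Finset.range i, L (1 + t) (0 + t)) = 1 := by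
        intro i _
        rw [map_prod, Finset.prod_congr rfl (fun t _ => hL _ _), Finset.prod_const_one]
      rw [Finset.sum_congr rfl h5, Finset.sum_const, Finset.card_range, nsmul_eq_mul, mul_one,
        ZMod.natCast_eq_zero_iff] at h4
      obtain ⟨c, hc⟩ := h4
      obtain ⟨d, hd⟩ := hodd
      omega

theorem tor3 {R : Type*} [CommRing R] [IsDomain R] (φ : R →+* ZMod (3 ^ 2)) (U : ℕ → R)
    (L : ℕ → ℕ → R) (h : ∀ i j, U (i + 1) - U (j + 1) = (U i - U j) * L i j)
    (lam : ZMod (3 ^ 2)) (hlam : 3 * lam = 3)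
    (hL : ∀ i j, φ (L i j) = lam) {n : ℕ} (hn : 0 < n) (hper : U n = U 0) : U 1 = U 0 := by
  obtain ⟨m, hm, hm1, hm2⟩ := min_period U hn hper
  have hpow : ∀ k : ℕ, 3 * lam ^ k = 3 := by
    intro k
    induction k with
    | zero => simp
    | succ k ih => rw [pow_succ lam k, ← mul_assoc, ih, hlam]
  by_cases h3 : 3 ∣ m
  · exfalso
    obtain ⟨k, hk⟩ := h3
    have hk0 : 0 < k := by omega
    have h1 := diff_prod U L h k 0 k
    have h2 := diff_prod U L h (k + k) (0 + k) k
    have e1 : k + k + k = m := by omega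
    have e2 : (0 + k) + k = k + k := by omega
    rw [e1, e2, hm1] at h2
    rw [h1] at h2
    set A := ∏ t ∈ Finset.range k, L (k + t) (0 + t) with hA
    set A' := ∏ t ∈ Finset.range k, L (k + k + t) (0 + k + t) with hA'
    rw [Nat.zero_add] at h1
    have h5 : (U k - U 0) * (1 + A + A * A') = 0 := by
      linear_combination - h1 - h2
    rcases mul_eq_zero.mp h5 with h6 | h6
    · exact hm2 k hk0 (by omega) (sub_eq_zero.mp h6)
    · have h7 := congrArg φ h6
      have hφA : φ A = lam ^ k := by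
        rw [hA, map_prod, Finset.prod_congr rfl (fun t _ => hL _ _), Finset.prod_const,
          Finset.card_range]
      have hφA' : φ A' = lam ^ k := by
        rw [hA', map_prod, Finset.prod_congr rfl (fun t _ => hL _ _), Finset.prod_const,
          Finset.card_range]
      rw [map_add, map_add, map_mul, map_one, map_zero, hφA, hφA'] at h7
      have h8 := hpow k
      have hdec : ∀ x : ZMod (3 ^ 2), 3 * x = 3 → 1 + x + x * x ≠ 0 := by decide
      exact hdec _ h8 h7
  · by_contra hne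
    have h1 := sum_form U L h m
    rw [hm1, sub_self] at h1
    rcases mul_eq_zero.mp h1.symm with h4 | h4
    · exact hne (sub_eq_zero.mp h4)
    · have h5 := congrArg (fun x => 3 * φ x) h4
      simp only [map_sum, map_zero, mul_zero, Finset.mul_sum] at h5
      have h6 : ∀ i ∈ Finset.range m, 3 * φ (∏ t ∈ Finset.range i, L (1 + t) (0 + t)) = 3 := by
        intro i _
        rw [map_prod, Finset.prod_congr rfl (fun t _ => hL _ _), Finset.prod_const,
          Finset.card_range, hpow]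
      rw [Finset.sum_congr rfl h6, Finset.sum_const, Finset.card_range, nsmul_eq_mul] at h5
      have h7 : ((m * 3 : ℕ) : ZMod (3 ^ 2)) = 0 := by
        push_cast
        exact h5
      rw [ZMod.natCast_eq_zero_iff] at h7
      obtain ⟨c, hc⟩ := h7
      apply h3
      exact ⟨c, by omega⟩

/-- attracting case -/
theorem attr {R : Type*} [CommRing R] [IsDomain R] {N : ℕ} (φ : R →+* ZMod N) (π : R)
    (hπ : φ π ≠ 0) (D F : ℕ → R) (h : ∀ i, D (i + 1) = D i * F i)
    (hF : ∀ i, φ (π * F i) = 0) {n : ℕ} (hn : 0 < n) (hper : D n = D 0) : D 0 = 0 := by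
  have h1 : ∀ m, D m = D 0 * ∏ t ∈ Finset.range m, F t := by
    intro m
    induction m with
    | zero => simp
    | succ m ih => rw [Finset.prod_range_succ, ← mul_assoc, ← ih, h]
  have h2 := h1 n
  rw [hper] at h2
  have h3 : D 0 * (1 - ∏ t ∈ Finset.range n, F t) = 0 := by
    rw [mul_sub, ← h2]; ring
  rcases mul_eq_zero.mp h3 with h4 | h4
  · exact h4
  · exfalso
    have h5 : ∏ t ∈ Finset.range n, F t = 1 := (sub_eq_zero.mp h4).symm
    obtain ⟨k, rfl⟩ : ∃ k, n = k + 1 := ⟨n - 1, by omega⟩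
    rw [Finset.prod_range_succ] at h5
    have h6 : φ (π * 1) = 0 := by
      rw [← h5, mul_comm (∏ t ∈ Finset.range k, F t), ← mul_assoc, map_mul, hF k, zero_mul]
    rw [mul_one] at h6
    exact hπ h6

end

section

theorem norm_le_of_val {p : ℕ} [hp : Fact p.Prime] {q : ℚ} (h0 : q ≠ 0)
    (h : 0 ≤ padicValRat p q) : ‖(q : ℚ_[p])‖ ≤ 1 := by
  apply Padic.norm_rat_le_one
  intro hd
  have h1 : ¬ p ∣ q.num.natAbs := by
    intro h2
    have h3 : p ∣ 1 := by
      rw [← q.reduced]; exact Nat.dvd_gcd h2 hd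
    exact hp.out.one_lt.ne' (Nat.dvd_one.mp h3)
  have h4 : padicValRat p q = - (padicValNat p q.den : ℤ) := by
    rw [padicValRat, padicValInt, padicValNat.eq_zero_of_not_dvd h1]
    simp
  have h5 : 1 ≤ padicValNat p q.den := one_le_padicValNat_of_dvd q.den_ne_zero hd
  omega

/-- the p-adic integer attached to a p-integral rational -/
noncomputable def toZ (p : ℕ) [Fact p.Prime] (q : ℚ) : ℤ_[p] :=
  open Classical in
  if h : ‖(q : ℚ_[p])‖ ≤ 1 then ⟨(q : ℚ_[p]), h⟩ else 0

theorem coe_toZ {p : ℕ} [Fact p.Prime] {q : ℚ} (h : ‖(q : ℚ_[p])‖ ≤ 1) :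
    ((toZ p q : ℤ_[p]) : ℚ_[p]) = (q : ℚ_[p]) := by
  rw [toZ, dif_pos h]

/-- transfer of a cycle to `ℤ_p` -/
theorem transfer {b : ℚ} {u s : ℕ → ℚ} {n : ℕ} (C : Cyc b u s n) (p : ℕ) [Fact p.Prime]
    (hb : padicValRat p b = 0) :
    ∃ (B B' : ℤ_[p]) (U I : ℕ → ℤ_[p]), B * B' = 1 ∧ (∀ i, (B + U i) * I i = 1) ∧
      (∀ i, U (i + 1) = U i * (I i) ^ 2) ∧ U n = U 0 ∧ (U 1 = U 0 → u 1 = u 0) ∧
      (∀ i, B + U i = 1 → s i = 1) ∧ (∀ i, B + U i = -1 → s i = -1) := by
  have hun := fun i => C.v_unit p hb.le i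
  have hB := norm_le_of_val (p := p) C.hb hb.ge
  have hB' : ‖((b⁻¹ : ℚ) : ℚ_[p])‖ ≤ 1 :=
    norm_le_of_val (inv_ne_zero C.hb) (by rw [padicValRat.inv, hb]; simp)
  have hU : ∀ i, ‖((u i : ℚ) : ℚ_[p])‖ ≤ 1 := fun i =>
    norm_le_of_val (C.u0 i) (by rw [← hb]; exact (hun i).2)
  have hI : ∀ i, ‖(((s i)⁻¹ : ℚ) : ℚ_[p])‖ ≤ 1 := fun i =>
    norm_le_of_val (inv_ne_zero (C.s0 i)) (by rw [padicValRat.inv, (hun i).1]; simp)
  have key : ∀ i, (((toZ p b + toZ p (u i) : ℤ_[p])) : ℚ_[p]) = ((s i : ℚ) : ℚ_[p]) := by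
    intro i
    rw [PadicInt.coe_add, coe_toZ hB, coe_toZ (hU i), C.hs i]
    push_cast
    ring
  refine ⟨toZ p b, toZ p b⁻¹, fun i => toZ p (u i), fun i => toZ p (s i)⁻¹, ?_, ?_, ?_, ?_,
    ?_, ?_, ?_⟩
  · apply Subtype.ext
    rw [PadicInt.coe_mul, coe_toZ hB, coe_toZ hB', ← Rat.cast_mul, mul_inv_cancel₀ C.hb]
    simp
  · intro i
    apply Subtype.ext
    rw [PadicInt.coe_mul, key i, coe_toZ (hI i), ← Rat.cast_mul, mul_inv_cancel₀ (C.s0 i)]
    simp
  · intro i
    apply Subtype.ext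
    rw [PadicInt.coe_mul, PadicInt.coe_pow, coe_toZ (hU (i + 1)), coe_toZ (hU i),
      coe_toZ (hI i), ← Rat.cast_pow, ← Rat.cast_mul, C.hu i]
    congr 1
    rw [inv_pow, div_eq_mul_inv]
  · have := C.hper 0
    rw [Nat.zero_add] at this
    simp only [this]
  · intro h
    have h1 := congrArg (fun x : ℤ_[p] => (x : ℚ_[p])) h
    simp only [coe_toZ (hU 1), coe_toZ (hU 0)] at h1
    exact_mod_cast h1
  · intro i h
    have h1 := congrArg (fun x : ℤ_[p] => (x : ℚ_[p])) h
    simp only [key i, PadicInt.coe_one] at h1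
    exact_mod_cast h1
  · intro i h
    have h1 := congrArg (fun x : ℤ_[p] => (x : ℚ_[p])) h
    simp only [key i, PadicInt.coe_neg, PadicInt.coe_one] at h1
    exact_mod_cast h1

theorem diff_id {R : Type*} [CommRing R] (B : R) (U I : ℕ → R)
    (h1 : ∀ i, (B + U i) * I i = 1) (h2 : ∀ i, U (i + 1) = U i * (I i) ^ 2) (i j : ℕ) :
    U (i + 1) - U (j + 1) = (U i - U j) * ((B ^ 2 - U i * U j) * (I i * I j) ^ 2) := by
  have a := h1 i
  have c := h1 j
  rw [h2 i, h2 j]
  have e1 : U i * I i ^ 2 = U i * I i ^ 2 * ((B + U j) * I j) ^ 2 := by rw [c]; ring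
  have e2 : U j * I j ^ 2 = U j * I j ^ 2 * ((B + U i) * I i) ^ 2 := by rw [a]; ring
  rw [e1, e2]
  ring

theorem case_two {b : ℚ} {u s : ℕ → ℚ} {n : ℕ} (C : Cyc b u s n)
    (hb : padicValRat 2 b = 0) : ∀ i, (s i) ^ 2 = 1 := by
  obtain ⟨B, B', U, I, h1, h2, h3, h4, h5, _, _⟩ := transfer C 2 hb
  apply C.all_of_u 0
  apply h5
  let φ : ℤ_[2] →+* ZMod (2 ^ 2) := PadicInt.toZModPow 2
  apply tor2 φ U (fun i j => (B ^ 2 - U i * U j) * (I i * I j) ^ 2) (diff_id B U I h2 h3) _ C.hn h4
  intro i j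
  have a1 := congrArg φ h1
  have a2 := congrArg φ (h2 i)
  have a3 := congrArg φ (h2 j)
  rw [map_mul, map_one] at a1
  rw [map_mul, map_add, map_one] at a2 a3
  rw [map_mul, map_sub, map_pow, map_mul, map_pow, map_mul]
  have d1 : ∀ x y : ZMod (2 ^ 2), x * y = 1 → 2 * x = 2 := by decide
  have d2 : ∀ x u i : ZMod (2 ^ 2), 2 * x = 2 → (x + u) * i = 1 → 2 * u = 0 ∧ i ^ 2 = 1 := by
    decide
  have d3 : ∀ x u v : ZMod (2 ^ 2), 2 * x = 2 → 2 * u = 0 → 2 * v = 0 → x ^ 2 - u * v = 1 := by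
    decide
  have c1 := d1 _ _ a1
  have c2 := d2 _ _ _ c1 a2
  have c3 := d2 _ _ _ c1 a3
  rw [d3 _ _ _ c1 c2.1 c3.1, mul_pow, c2.2, c3.2]
  ring

theorem case_three {b : ℚ} {u s : ℕ → ℚ} {n : ℕ} (C : Cyc b u s n)
    (hb : padicValRat 3 b = 0) : ∀ i, (s i) ^ 2 = 1 := by
  obtain ⟨B, B', U, I, h1, h2, h3, h4, h5, h6, h7⟩ := transfer C 3 hb
  let φ : ℤ_[3] →+* ZMod (3 ^ 2) := PadicInt.toZModPow 2
  have a1 := congrArg φ h1
  rw [map_mul, map_one] at a1
  have a2 : ∀ i, (φ B + φ (U i)) * φ (I i) = 1 := by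
    intro i
    have := congrArg φ (h2 i)
    rw [map_mul, map_add, map_one] at this
    exact this
  have a3 : ∀ i, φ (U (i + 1)) = φ (U i) * φ (I i) ^ 2 := by
    intro i
    rw [h3 i, map_mul, map_pow]
  have d1 : ∀ x y : ZMod (3 ^ 2), x * y = 1 → 3 * x = 3 ∨ 3 * x = 6 := by decide
  have d2 : ∀ x u : ZMod (3 ^ 2), (3 * x = 3 ∨ 3 * x = 6) →
      (3 * (x + u) = 3 ∨ 3 * (x + u) = 6) → 3 * u = 0 ∨ 3 * u = 3 * x := by decide
  have c1 := d1 _ _ a1
  have c2 := d2 _ _ c1 (d1 _ _ (a2 0))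
  rcases c2 with c3 | c3
  · -- near identity
    apply C.all_of_u 0
    apply h5
    have d3 : ∀ s i u : ZMod (3 ^ 2), s * i = 1 → 3 * u = 0 → u * i ^ 2 = u := by decide
    have e1 : ∀ i, φ (U i) = φ (U 0) := by
      intro i
      induction i with
      | zero => rfl
      | succ i ih =>
        rw [a3 i, d3 _ _ _ (a2 i) (by rw [ih]; exact c3), ih]
    have e2 : ∀ i, φ (I i) = φ (I 0) := by
      intro i
      have f1 := a2 i
      have f2 := a2 0
      rw [e1 i] at f1
      calc φ (I i) = (φ B + φ (U 0)) * φ (I 0) * φ (I i) := by rw [f2, one_mul]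
        _ = ((φ B + φ (U 0)) * φ (I i)) * φ (I 0) := by ring
        _ = φ (I 0) := by rw [f1, one_mul]
    apply tor3 φ U (fun i j => (B ^ 2 - U i * U j) * (I i * I j) ^ 2) (diff_id B U I h2 h3)
      ((φ B ^ 2 - φ (U 0) * φ (U 0)) * (φ (I 0) * φ (I 0)) ^ 2) _ _ C.hn h4
    · have d4 : ∀ x u i : ZMod (3 ^ 2), (x + u) * i = 1 → 3 * u = 0 →
          3 * ((x ^ 2 - u * u) * (i * i) ^ 2) = 3 := by decide
      exact d4 _ _ _ (a2 0) c3
    · intro i j
      rw [map_mul, map_sub, map_pow, map_mul, map_pow, map_mul, e1 i, e1 j, e2 i, e2 j]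
  · -- attracting
    have d3 : ∀ s i u : ZMod (3 ^ 2), s * i = 1 → 3 * (u * i ^ 2) = 3 * u := by decide
    have e1 : ∀ i, 3 * φ (U i) = 3 * φ B := by
      intro i
      induction i with
      | zero => exact c3
      | succ i ih =>
        rw [a3 i, d3 _ _ _ (a2 i), ih]
    rcases c1 with c4 | c4
    · -- η = -1
      apply C.all_of_one 0
      have e2 := attr φ 3 (by rw [map_ofNat]; decide) (fun i => B + U i + 1)
        (fun i => ((B + 1) * (B + U i) - B) * (I i) ^ 2) (by
          intro i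
          have := h2 i
          rw [h3 i]
          linear_combination (- B * ((B + U i) * I i + 1) - ((B + U i) * I i + 1) * 1) * this) (by
          intro i
          have d5 : ∀ x u i : ZMod (3 ^ 2), 3 * x = 3 → (x + u) * i = 1 → 3 * u = 3 * x →
              3 * (((x + 1) * (x + u) - x) * i ^ 2) = 0 := by decide
          have := d5 _ _ _ c4 (a2 i) (e1 i)
          simp only [map_mul, map_sub, map_add, map_pow, map_one, map_ofNat]
          exact this) C.hn (by simp only [h4])
      rw [h7 0 (by linear_combination e2)]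
      norm_num
    · apply C.all_of_one 0
      have e2 := attr φ 3 (by rw [map_ofNat]; decide) (fun i => B + U i - 1)
        (fun i => ((B - 1) * (B + U i) + B) * (I i) ^ 2) (by
          intro i
          have := h2 i
          rw [h3 i]
          linear_combination (- B * ((B + U i) * I i + 1) + ((B + U i) * I i + 1) * 1) * this) (by
          intro i
          have d5 : ∀ x u i : ZMod (3 ^ 2), 3 * x = 6 → (x + u) * i = 1 → 3 * u = 3 * x →
              3 * (((x - 1) * (x + u) + x) * i ^ 2) = 0 := by decide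
          have := d5 _ _ _ c4 (a2 i) (e1 i)
          simp only [map_mul, map_sub, map_add, map_pow, map_one, map_ofNat]
          exact this) C.hn (by simp only [h4])
      rw [h6 0 (by linear_combination e2)]
      norm_num

end

section

theorem odd_of_val {x : ℚ} (h0 : x ≠ 0) (h : padicValRat 2 x = 0) :
    ¬ (2:ℤ) ∣ x.num ∧ ¬ (2:ℤ) ∣ (x.den : ℤ) := by
  have h1 : ¬ 2 ∣ x.num.natAbs := by
    intro hd
    have := val_pos_of_dvd Nat.prime_two h0 hd
    omega
  constructor
  · intro hd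
    exact h1 (Int.natAbs_dvd_natAbs.mpr hd)
  · intro hd
    have hd' : 2 ∣ x.den := by exact_mod_cast hd
    have h4 : padicValRat 2 x = - (padicValNat 2 x.den : ℤ) := by
      rw [padicValRat, padicValInt, padicValNat.eq_zero_of_not_dvd h1]
      simp
    have h5 : 1 ≤ padicValNat 2 x.den := one_le_padicValNat_of_dvd x.den_ne_zero hd'
    omega

theorem odd_sub {x y : ℚ} (hx0 : x ≠ 0) (hy0 : y ≠ 0) (hx : padicValRat 2 x = 0)
    (hy : padicValRat 2 y = 0) (hne : x ≠ y) : 1 ≤ padicValRat 2 (x - y) := by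
  obtain ⟨a1, a2⟩ := odd_of_val hx0 hx
  obtain ⟨a3, a4⟩ := odd_of_val hy0 hy
  set z : ℤ := x.num * y.den - y.num * x.den with hz
  have hxd : (x.den : ℚ) ≠ 0 := by exact_mod_cast x.den_ne_zero
  have hyd : (y.den : ℚ) ≠ 0 := by exact_mod_cast y.den_ne_zero
  have e0 : (x - y) * ((x.den : ℚ) * (y.den : ℚ)) = (z : ℚ) := by
    have e1 : x * x.den = x.num := Rat.mul_den_eq_num x
    have e2 : y * y.den = y.num := Rat.mul_den_eq_num y
    rw [hz]
    push_cast
    rw [← e1, ← e2]
    ring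
  have hz0 : z ≠ 0 := by
    intro h
    rw [h, Int.cast_zero] at e0
    rcases mul_eq_zero.mp e0 with h1 | h1
    · exact hne (sub_eq_zero.mp h1)
    · exact (mul_ne_zero hxd hyd) h1
  have hze : (2:ℤ) ∣ z := by
    have b1 : x.num % 2 = 1 := by omega
    have b2 : (x.den : ℤ) % 2 = 1 := by omega
    have b3 : y.num % 2 = 1 := by omega
    have b4 : (y.den : ℤ) % 2 = 1 := by omega
    rw [hz]
    apply Int.dvd_of_emod_eq_zero
    rw [Int.sub_emod, Int.mul_emod x.num, b1, b4, Int.mul_emod y.num, b3, b2]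
    norm_num
  have h1 : padicValRat 2 ((x - y) * ((x.den : ℚ) * (y.den : ℚ))) =
      padicValRat 2 (x - y) := by
    rw [padicValRat.mul (sub_ne_zero.mpr hne) (mul_ne_zero hxd hyd), padicValRat.mul hxd hyd]
    have c1 : padicValRat 2 (x.den : ℚ) = 0 := by
      rw [padicValRat.of_nat, padicValNat.eq_zero_of_not_dvd]
      · rfl
      · intro h; exact a2 (by exact_mod_cast h)
    have c2 : padicValRat 2 (y.den : ℚ) = 0 := by
      rw [padicValRat.of_nat, padicValNat.eq_zero_of_not_dvd]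
      · rfl
      · intro h; exact a4 (by exact_mod_cast h)
    rw [c1, c2]; ring
  rw [← h1, e0, padicValRat.of_int, padicValInt]
  have : 1 ≤ padicValNat 2 z.natAbs :=
    one_le_padicValNat_of_dvd (Int.natAbs_ne_zero.mpr hz0)
      (by have := Int.natAbs_dvd_natAbs.mpr hze; simpa using this)
  exact_mod_cast this

theorem val_two : padicValRat 2 (2:ℚ) = 1 := by
  have := padicValRat.self (p := 2) (by norm_num)
  exact_mod_cast this

theorem half_aux {b : ℚ} {u s : ℕ → ℚ} {n : ℕ} (C : Cyc b u s n)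
    (hb : padicValRat 2 b = -1) (hnt : ∀ i, (s i) ^ 2 ≠ 1)
    (h : 2 ≤ padicValRat 2 (s 0 - 1)) : False := by
  have hne1 : ∀ i, s i ≠ 1 := fun i h => hnt i (by rw [h]; norm_num)
  have hne2 : ∀ i, s i ≠ -1 := fun i h => hnt i (by rw [h]; norm_num)
  have hstep : ∀ i, 2 ≤ padicValRat 2 (s i - 1) →
      padicValRat 2 (s i - 1) + 1 ≤ padicValRat 2 (s (i + 1) - 1) := by
    intro i hi
    have hun := (C.v_unit 2 (by omega) i).1
    have h0 := C.s0 i
    have e1 : s i - 1 ≠ 0 := sub_ne_zero.mpr (hne1 i)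
    have e1' : s (i + 1) - 1 ≠ 0 := sub_ne_zero.mpr (hne1 (i + 1))
    have e2 : s i + 1 ≠ 0 := fun h => hne2 i (by linarith)
    have e3 : padicValRat 2 (s i + 1) = 1 := by
      have : s i + 1 = (s i - 1) + 2 := by ring
      rw [this]
      rw [padicValRat.add_eq_min (by rw [← this]; exact e2) e1 (by norm_num)
        (by rw [val_two]; omega), val_two]
      omega
    have e4 : padicValRat 2 (b * (s i + 1)) = 0 := by
      rw [padicValRat.mul C.hb e2, e3, hb]; norm_num
    have hsub := C.sub_one i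
    have e5 : (b - 1) * s i + b = b * (s i + 1) - s i := by ring
    rw [e5] at hsub
    have e6 : b * (s i + 1) - s i ≠ 0 := by
      intro h
      rw [h, mul_zero] at hsub
      rcases mul_eq_zero.mp hsub with h1 | h1
      · exact e1' h1
      · exact h0 (pow_eq_zero_iff (two_ne_zero) |>.mp h1)
    have e7 : 1 ≤ padicValRat 2 (b * (s i + 1) - s i) :=
      odd_sub (mul_ne_zero C.hb e2) h0 e4 hun (sub_ne_zero.mp e6)
    have e8 := congrArg (padicValRat 2) hsub
    rw [padicValRat.mul e1' (pow_ne_zero _ h0), padicValRat.mul e1 e6, padicValRat.pow,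
      hun, mul_zero, add_zero] at e8
    omega
  have hall : ∀ i, 2 ≤ padicValRat 2 (s i - 1) := by
    intro i
    induction i with
    | zero => exact h
    | succ i ih => have := hstep i ih; omega
  apply per_lt (fun i => padicValRat 2 (s i - 1)) C.hn (fun i => by simp only [C.sper i]) 0
  intro i _
  have := hstep i (hall i)
  omega

theorem case_half {b : ℚ} {u s : ℕ → ℚ} {n : ℕ} (C : Cyc b u s n)
    (hb : padicValRat 2 b = -1) : ∀ i, (s i) ^ 2 = 1 := by
  by_contra hcon
  push Not at hcon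
  obtain ⟨k, hk⟩ := hcon
  have hnt : ∀ i, (s i) ^ 2 ≠ 1 := by
    intro i hi
    exact hk (C.all_of_one i hi k)
  have h0 := C.s0 0
  have hun := (C.v_unit 2 (by omega) 0).1
  have hne1 : s 0 ≠ 1 := fun h => hnt 0 (by rw [h]; norm_num)
  have hne2 : s 0 ≠ -1 := fun h => hnt 0 (by rw [h]; norm_num)
  have h1 : 1 ≤ padicValRat 2 (s 0 - 1) :=
    odd_sub h0 one_ne_zero hun (by simp) hne1
  rcases lt_or_ge 1 (padicValRat 2 (s 0 - 1)) with h2 | h2
  · exact half_aux C hb hnt (by omega)
  · have h3 : padicValRat 2 (s 0 - 1) = 1 := by omega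
    apply half_aux C.neg (by rw [padicValRat.neg]; exact hb) (fun i => by
      rw [neg_sq]; exact hnt i)
    have e1 : s 0 - 1 ≠ 0 := sub_ne_zero.mpr hne1
    set y := (s 0 - 1) / 2 with hy
    have hy0 : y ≠ 0 := div_ne_zero e1 two_ne_zero
    have hyv : padicValRat 2 y = 0 := by
      rw [hy, padicValRat.div e1 two_ne_zero, h3, val_two]; norm_num
    have hyne : y ≠ -1 := by
      intro h
      apply hne2
      rw [hy] at h
      linarith
    have h4 : 1 ≤ padicValRat 2 (y - (-1)) :=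
      odd_sub hy0 (by norm_num) hyv (by rw [padicValRat.neg]; simp) hyne
    have e2 : - s 0 - 1 = - (2 * (y - (-1))) := by rw [hy]; ring
    rw [e2, padicValRat.neg, padicValRat.mul two_ne_zero (sub_ne_zero.mpr hyne), val_two]
    omega

/-- the case of positive `b` and positive `u` -/
theorem case_pos {b : ℚ} {u s : ℕ → ℚ} {n : ℕ} (C : Cyc b u s n)
    (hb : 0 < b) (hu0 : 0 < u 0) : ∀ i, (s i) ^ 2 = 1 := by
  have hu : ∀ i, 0 < u i := by
    intro i
    induction i with
    | zero => exact hu0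
    | succ i ih =>
      rw [C.hu]
      have := C.s0 i
      positivity
  have hs : ∀ i, 0 < s i := fun i => by rw [C.hs]; have := hu i; linarith
  have hb1 : b < 1 := by
    by_contra hc
    apply per_lt (fun j => - u j) C.hn (fun j => by simp only [C.hper j]) 0
    intro j _
    have h1 := hu j
    have h2 := C.hs j
    have h3 : 1 < s j := by linarith
    have h4 : 1 < (s j) ^ 2 := by nlinarith
    rw [C.hu j, neg_lt_neg_iff, div_lt_iff₀ (by linarith)]
    nlinarith
  set k := 1 - b with hk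
  have hk0 : 0 < k := by rw [hk]; linarith
  by_contra hcon
  push Not at hcon
  obtain ⟨j, hj⟩ := hcon
  have hnt : ∀ i, (s i) ^ 2 ≠ 1 := fun i hi => hj (C.all_of_one i hi j)
  apply per_lt (fun i => - max (u i / k) (k / u i)) C.hn (fun i => by simp only [C.hper i]) 0
  intro i _
  have h1 := hu i
  have h2 := hs i
  have h3 := hu (i + 1)
  have hsi := C.hs i
  have hne : u i ≠ k := by
    intro h
    apply hnt i
    rw [C.hs i, h, hk]; ring
  have h4 : u (i + 1) * (s i) ^ 2 = u i := by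
    rw [C.hu i]
    have := C.s0 i
    field_simp
  have hs2 : 0 < (s i) ^ 2 := by positivity
  rw [neg_lt_neg_iff]
  rcases lt_or_gt_of_ne hne with hlt | hgt
  · -- u < k : s < 1, u < u' < k^2/u
    have a1 : s i < 1 := by rw [hsi]; rw [hk] at hlt; linarith
    have a2 : u i < u (i + 1) := by nlinarith [mul_pos h1 h2, mul_pos h3 h2]
    have a3 : u i * u (i + 1) < k ^ 2 := by
      have b1 : u i < k * s i := by
        rw [hsi]
        have : u i * b < k * b := mul_lt_mul_of_pos_right hlt hb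
        have e : k * (b + u i) = k * b + (1 - b) * u i := by rw [hk]; ring
        rw [e]; linarith
      have b2 : u i * u i < (k * s i) * (k * s i) := mul_self_lt_mul_self h1.le b1
      have b3 : (u i * u (i + 1)) * (s i) ^ 2 < k ^ 2 * (s i) ^ 2 := by nlinarith
      exact lt_of_mul_lt_mul_right b3 hs2.le
    have a4 : k / u (i + 1) < k / u i := div_lt_div_of_pos_left hk0 h1 a2
    have a5 : u (i + 1) / k < k / u i := by
      rw [div_lt_div_iff₀ hk0 h1]; nlinarith
    exact lt_of_lt_of_le (max_lt a5 a4) (le_max_right _ _)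
  · have a1 : 1 < s i := by rw [hsi]; rw [hk] at hgt; linarith
    have a2 : u (i + 1) < u i := by nlinarith [mul_pos h1 h2, mul_pos h3 h2]
    have a3 : k ^ 2 < u i * u (i + 1) := by
      have b1 : k * s i < u i := by
        rw [hsi]
        have : k * b < u i * b := mul_lt_mul_of_pos_right hgt hb
        have e : k * (b + u i) = k * b + (1 - b) * u i := by rw [hk]; ring
        rw [e]; linarith
      have b2 : (k * s i) * (k * s i) < u i * u i := mul_self_lt_mul_self (by positivity) b1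
      have b3 : k ^ 2 * (s i) ^ 2 < (u i * u (i + 1)) * (s i) ^ 2 := by nlinarith
      exact lt_of_mul_lt_mul_right b3 hs2.le
    have a4 : u (i + 1) / k < u i / k := div_lt_div_of_pos_right a2 hk0
    have a5 : k / u (i + 1) < u i / k := by
      rw [div_lt_div_iff₀ h3 hk0]; nlinarith
    exact lt_of_lt_of_le (max_lt a4 a5) (le_max_left _ _)

end

section

theorem one_of_val {q : ℚ} (h0 : q ≠ 0) (h : ∀ p, p.Prime → padicValRat p q = 0) :
    |q| = 1 := by
  have h1 : q.num.natAbs = 1 := by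
    rw [Nat.eq_one_iff_not_exists_prime_dvd]
    intro p hp hd
    have := val_pos_of_dvd hp h0 hd
    rw [h p hp] at this
    exact lt_irrefl _ this
  have h2 : q.den = 1 := by
    rw [Nat.eq_one_iff_not_exists_prime_dvd]
    intro p hp hd
    have : Fact p.Prime := ⟨hp⟩
    have h3 : ¬ p ∣ q.num.natAbs := by
      rw [h1]
      intro h4
      exact hp.one_lt.ne' (Nat.dvd_one.mp h4)
    have h4 := h p hp
    rw [padicValRat, padicValInt, padicValNat.eq_zero_of_not_dvd h3] at h4
    have h5 : 1 ≤ padicValNat p q.den := one_le_padicValNat_of_dvd q.den_ne_zero hd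
    omega
  have h3 : q = q.num := by
    conv_lhs => rw [← Rat.num_div_den q, h2]
    simp
  rw [h3]
  rcases Int.natAbs_eq q.num with h4 | h4
  · rw [h4, h1]; norm_num
  · rw [h4, h1]; norm_num

theorem den_one_of_val {q : ℚ} (h : ∀ p, p.Prime → 0 ≤ padicValRat p q) : q.den = 1 := by
  rw [Nat.eq_one_iff_not_exists_prime_dvd]
  intro p hp hd
  have : Fact p.Prime := ⟨hp⟩
  have h3 : ¬ p ∣ q.num.natAbs := by
    intro h2
    have h4 : p ∣ 1 := by
      rw [← q.reduced]; exact Nat.dvd_gcd h2 hd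
    exact hp.one_lt.ne' (Nat.dvd_one.mp h4)
  have h4 := h p hp
  rw [padicValRat, padicValInt, padicValNat.eq_zero_of_not_dvd h3] at h4
  have h5 : 1 ≤ padicValNat p q.den := one_le_padicValNat_of_dvd q.den_ne_zero hd
  omega

theorem of_t {b : ℚ} {u s : ℕ → ℚ} {n : ℕ} (C : Cyc b u s n)
    (h : ∀ i, |s i * s (i + 1)| = 1) :
    (∀ i, (s i) ^ 2 = 1) ∨ (∀ i, s i * s (i + 1) = -1) := by
  by_cases hex : ∃ k, s k * s (k + 1) = 1
  · left
    obtain ⟨k, hk⟩ := hex
    apply C.all_of_one k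
    have := C.t_eq k
    rw [hk, sub_self, mul_zero] at this
    rcases mul_eq_zero.mp this with h1 | h1
    · exact absurd h1 C.hb
    · linarith
  · right
    intro i
    push Not at hex
    have h1 := h i
    rcases abs_eq (zero_le_one' ℚ) |>.mp h1 with h2 | h2
    · exact absurd h2 (hex i)
    · exact h2

section ints

variable {β : ℤ} {g e : ℕ → ℤ} {n : ℕ}

theorem typeA (hn : 0 < n) (hper : ∀ i, g (i + n) = g i)
    (h1 : ∀ i, g (i + 1) = g i - 2 * e i) (h2 : ∀ i, g i ≠ β → e i = min β (g i))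
    (k : ℕ) (hk : -β < g k ∧ g k < β) : ∀ i, -β < g i ∧ g i < β := by
  have h3 : ∀ j, -β < g (k + j) ∧ g (k + j) < β := by
    intro j
    induction j with
    | zero => exact hk
    | succ j ih =>
      have a := h1 (k + j)
      have c := h2 (k + j) (by omega)
      rw [min_eq_right (by omega)] at c
      rw [← Nat.add_assoc]
      omega
  intro i
  have h6 := per_mul g hper k i
  have h7 : k ≤ i + n * k := by nlinarith [Nat.mul_le_mul_right k hn]
  obtain ⟨j, hj⟩ := Nat.exists_eq_add_of_le h7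
  rw [← h6, hj]; exact h3 j

theorem alt_of_le (hβ : 0 < β)
    (h1 : ∀ i, g (i + 1) = g i - 2 * e i) (h2 : ∀ i, g i ≠ β → e i = min β (g i))
    (h3 : ∀ i, min β (g i) ≤ e i) (hle : ∀ i, g i ≤ β) : ∀ i, e i + e (i + 1) = 0 := by
  have hlow : ∀ i, -β ≤ g i := by
    intro i
    by_contra hc
    have a := h1 i
    have c := h2 i (by omega)
    rw [min_eq_right (by omega)] at c
    have := hle (i + 1)
    omega
  have heq : ∀ i, e i = g i := by
    intro i
    by_cases h : g i = β
    · have a := h1 i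
      have c := h3 i
      rw [h, min_self] at c
      have := hlow (i + 1)
      omega
    · have c := h2 i h
      have := hle i
      rw [min_eq_right this] at c
      exact c
  intro i
  have a := h1 i
  have := heq i
  have := heq (i + 1)
  omega

end ints

/-- numerator a prime power, `b > 0` -/
theorem case_pp {b : ℚ} {u s : ℕ → ℚ} {n : ℕ} (C : Cyc b u s n) (hb : 0 < b)
    {p k : ℕ} (hp : p.Prime) (hN : b.num.natAbs = p ^ k) :
    (∀ i, (s i) ^ 2 = 1) ∨ (∀ i, s i * s (i + 1) = -1) := by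
  have : Fact p.Prime := ⟨hp⟩
  have hother : ∀ l, l.Prime → l ≠ p → ∀ i, padicValRat l (s i) = 0 := by
    intro l hl hlp i
    have : Fact l.Prime := ⟨hl⟩
    refine (C.v_unit l (val_of_not_dvd ?_) i).1
    rw [hN]
    intro hd
    exact hlp ((Nat.prime_dvd_prime_iff_eq hl hp).mp (hl.dvd_of_dvd_pow hd))
  rcases Nat.eq_zero_or_pos k with hk | hk
  · left
    intro i
    have : |s i| = 1 := by
      apply one_of_val (C.s0 i)
      intro l hl
      have : Fact l.Prime := ⟨hl⟩
      refine (C.v_unit l (val_of_not_dvd ?_) i).1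
      rw [hN, hk, pow_zero]
      intro hd
      exact hl.one_lt.ne' (Nat.dvd_one.mp hd)
    rw [← sq_abs, this, one_pow]
  · apply of_t C
    have hβ : padicValRat p b = k := by
      rw [val_of_dvd hp (by rw [hN]; exact dvd_pow_self p hk.ne'), hN, padicValNat.prime_pow]
    have hkz : (0:ℤ) < k := by exact_mod_cast hk
    have h1 := C.v1 p
    have h2 := C.v2 p
    have h3 := C.v3 p
    rw [hβ] at h2 h3
    have hper : ∀ i, padicValRat p (u (i + n)) = padicValRat p (u i) := fun i => by rw [C.hper]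
    have hle : ∀ i, padicValRat p (u i) ≤ k := by
      intro i
      by_contra hcon
      push Not at hcon
      have he : padicValRat p (s i) = k := by
        rw [h2 i (by omega), min_eq_left (by omega)]
      have hg := h1 i
      rw [he] at hg
      by_cases hA : padicValRat p (u (i + 1)) < k
      · have := typeA (β := (k:ℤ)) (g := fun i => padicValRat p (u i))
          (e := fun i => padicValRat p (s i)) C.hn hper h1 (fun i => h2 i) (i + 1)
          ⟨by omega, hA⟩ i
        omega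
      · have he1 : (k:ℤ) ≤ padicValRat p (s (i + 1)) := by
          have := h3 (i + 1)
          rw [min_eq_left (by omega)] at this
          exact this
        -- sizes
        have hpq : ((p:ℚ)) ≠ 0 := by exact_mod_cast hp.ne_zero
        have hpow : ∀ l, l.Prime → ∀ m : ℕ, padicValRat l ((p:ℚ) ^ m) =
            if l = p then (m:ℤ) else 0 := by
          intro l hl m
          have : Fact l.Prime := ⟨hl⟩
          rw [padicValRat.pow]
          split_ifs with h
          · subst h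
            rw [padicValRat.self hl.one_lt, mul_one]
          · rw [padicValRat.of_nat, padicValNat.eq_zero_of_not_dvd]
            · simp
            · intro hd
              exact h ((Nat.prime_dvd_prime_iff_eq hl hp).mp hd)
        have hs1 : |s i| = (p:ℚ) ^ k := by
          have h5 : |s i / (p:ℚ) ^ k| = 1 := by
            apply one_of_val (div_ne_zero (C.s0 i) (pow_ne_zero _ hpq))
            intro l hl
            have : Fact l.Prime := ⟨hl⟩
            rw [padicValRat.div (C.s0 i) (pow_ne_zero _ hpq), hpow l hl]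
            split_ifs with h
            · subst h; omega
            · rw [hother l hl h i]; norm_num
          rw [abs_div, abs_of_pos (show (0:ℚ) < (p:ℚ) ^ k by
            have := hp.pos; positivity)] at h5
          exact (div_eq_one_iff_eq (pow_ne_zero _ hpq)).mp h5
        obtain ⟨m, hm⟩ : ∃ m : ℕ, padicValRat p (s (i + 1)) = k + m :=
          ⟨(padicValRat p (s (i + 1)) - k).toNat, by omega⟩
        have hs2 : |s (i + 1)| = (p:ℚ) ^ (k + m) := by
          have h5 : |s (i + 1) / (p:ℚ) ^ (k + m)| = 1 := by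
            apply one_of_val (div_ne_zero (C.s0 (i + 1)) (pow_ne_zero _ hpq))
            intro l hl
            have : Fact l.Prime := ⟨hl⟩
            rw [padicValRat.div (C.s0 (i + 1)) (pow_ne_zero _ hpq), hpow l hl]
            split_ifs with h
            · subst h; push_cast; omega
            · rw [hother l hl h (i + 1)]; norm_num
          rw [abs_div, abs_of_pos (show (0:ℚ) < (p:ℚ) ^ (k + m) by
            have := hp.pos; positivity)] at h5
          exact (div_eq_one_iff_eq (pow_ne_zero _ hpq)).mp h5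
        set q : ℚ := (p:ℚ) ^ k with hq
        have hq2 : 2 ≤ q := by
          have : 2 ≤ p ^ k := le_trans hp.two_le (Nat.le_self_pow hk.ne' p)
          rw [hq]
          exact_mod_cast this
        have hD1 : (1:ℚ) ≤ b.den := by exact_mod_cast b.den_pos
        have hbD : b * b.den = q := by
          rw [Rat.mul_den_eq_num b, hq]
          have h5 : ((b.num.natAbs : ℕ) : ℚ) = b.num := by
            rw [Nat.cast_natAbs, abs_of_pos (Rat.num_pos.mpr hb)]
          rw [← h5, hN]; push_cast; rfl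
        set D : ℚ := (b.den : ℚ) with hD
        have hs2' : q ≤ |s (i + 1)| := by
          rw [hs2, pow_add]
          have : (1:ℚ) ≤ (p:ℚ) ^ m := one_le_pow₀ (by exact_mod_cast hp.one_lt.le)
          nlinarith
        have hsq : (s i) ^ 2 = q ^ 2 := by rw [← sq_abs, hs1]
        have hsucc := C.s_succ i
        rw [hsq] at hsucc
        have hDs : D * (q ^ 2 * s (i + 1)) = q * (q ^ 2 - 1) + D * s i := by
          rw [hsucc, ← hbD]; ring
        have hui : u i ≠ 0 := C.u0 i
        rcases abs_eq (by linarith : (0:ℚ) ≤ q) |>.mp hs1 with hs | hs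
        · -- s i = q
          have h6 : D ≠ 1 := by
            intro h
            apply hui
            have := C.hs i
            rw [h, mul_one] at hbD
            rw [hbD, hs] at this
            linarith
          have h7 : 2 ≤ D := by
            have h8 : b.den ≠ 1 := by
              intro h; apply h6; rw [hD, h]; norm_num
            have h9 : 2 ≤ b.den := by
              have := b.den_pos
              omega
            rw [hD]; exact_mod_cast h9
          have h8 : 0 < s (i + 1) := by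
            have : 0 < D * (q ^ 2 * s (i + 1)) := by
              rw [hDs, hs]; nlinarith [mul_pos (by linarith : (0:ℚ) < D) (by linarith : (0:ℚ) < q)]
            by_contra hc
            have h10 : D * (q ^ 2 * s (i + 1)) ≤ 0 :=
              mul_nonpos_of_nonneg_of_nonpos (by linarith)
                (mul_nonpos_of_nonneg_of_nonpos (by positivity) (not_lt.mp hc))
            linarith
          rw [abs_of_pos h8] at hs2'
          rw [hs] at hDs
          have h9 : D * (q ^ 2 * q) ≤ q * (q ^ 2 - 1) + D * q := by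
            rw [← hDs]
            apply mul_le_mul_of_nonneg_left _ (by linarith)
            exact mul_le_mul_of_nonneg_left hs2' (by positivity)
          -- (D-1)(q^2-1) q ≤ 0
          have h10 : 0 < (D - 1) * ((q ^ 2 - 1) * q) := by
            apply mul_pos (by linarith)
            apply mul_pos _ (by linarith)
            nlinarith
          nlinarith
        · have h9 : D * (q ^ 2 * |s (i + 1)|) = |q * (q ^ 2 - 1) + D * s i| := by
            rw [← hDs, abs_mul, abs_mul, abs_of_pos (by linarith : (0:ℚ) < D),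
              abs_of_pos (by positivity : (0:ℚ) < q ^ 2)]
          have h10 : D * (q ^ 2 * q) ≤ |q * (q ^ 2 - 1) + D * s i| := by
            rw [← h9]
            apply mul_le_mul_of_nonneg_left _ (by linarith)
            exact mul_le_mul_of_nonneg_left hs2' (by positivity)
          rw [hs] at h10
          have h11 : |q * (q ^ 2 - 1) + D * -q| < D * (q ^ 2 * q) := by
            have e0 : 0 < D * q := by nlinarith
            have e1 : q * q ^ 2 ≤ D * (q ^ 2 * q) := by
              have : 0 < q ^ 2 * q := by positivity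
              nlinarith
            rw [abs_lt]
            constructor
            · have e2 : 4 ≤ q ^ 2 := by nlinarith
              have e3 : D * q * 4 ≤ D * q * q ^ 2 := mul_le_mul_of_nonneg_left e2 e0.le
              have e4 : 0 < q * (q ^ 2 - 1) := mul_pos (by linarith) (by linarith)
              nlinarith
            · nlinarith
          linarith
    have halt := alt_of_le (β := (k:ℤ)) (g := fun i => padicValRat p (u i))
      (e := fun i => padicValRat p (s i)) hkz h1 (fun i => h2 i) h3 hle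
    intro i
    apply one_of_val (mul_ne_zero (C.s0 i) (C.s0 (i + 1)))
    intro l hl
    have : Fact l.Prime := ⟨hl⟩
    rw [padicValRat.mul (C.s0 i) (C.s0 (i + 1))]
    by_cases h : l = p
    · subst h; exact halt i
    · rw [hother l hl h i, hother l hl h (i + 1)]; norm_num

/-- numerator with at most two prime factors -/
theorem two_primes_core {b : ℚ} {u s : ℕ → ℚ} {n : ℕ} (C : Cyc b u s n)
    (hcard : b.num.natAbs.primeFactors.card ≤ 2)
    (hneg : ∀ i, ∃ p ∈ b.num.natAbs.primeFactors, padicValRat p (s i) < 0) :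
    ∀ i, |s i * s (i + 1)| = 1 := by
  have hN0 : b.num.natAbs ≠ 0 := by simpa using C.hb
  set S := b.num.natAbs.primeFactors with hS
  have hpr : ∀ p ∈ S, p.Prime := fun p hp => Nat.prime_of_mem_primeFactors hp
  have hother : ∀ l, l.Prime → l ∉ S → ∀ i, padicValRat l (s i) = 0 := by
    intro l hl hlS i
    have : Fact l.Prime := ⟨hl⟩
    refine (C.v_unit l (val_of_not_dvd ?_) i).1
    intro hd
    exact hlS (Nat.mem_primeFactors.mpr ⟨hl, hd, hN0⟩)
  have hβpos : ∀ p ∈ S, 0 < padicValRat p b := fun p hp =>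
    val_pos_of_dvd (hpr p hp) C.hb (Nat.dvd_of_mem_primeFactors hp)
  have hpos : ∀ p ∈ S, ∀ i, padicValRat p (s i) < 0 → 0 < padicValRat p (s (i + 1)) := by
    intro p hp i hi
    have : Fact p.Prime := ⟨hpr p hp⟩
    have h1 := C.v1 p i
    have h3 := C.v3 p i
    have h3' := C.v3 p (i + 1)
    have hβ := hβpos p hp
    have h2 := C.v2 p i (by intro h; rw [h, min_self] at h3; omega)
    omega
  have halt : ∀ p ∈ S, ∀ i, 0 ≤ padicValRat p (s i) → padicValRat p (s (i + 1)) < 0 := by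
    intro p hp i hi
    obtain ⟨q, hq, hqi⟩ := hneg i
    obtain ⟨r, hr, hri⟩ := hneg (i + 1)
    have hpq : p ≠ q := by
      intro h; subst h; omega
    have hrq : r ≠ q := by
      intro h; subst h
      have := hpos r hr i hqi
      omega
    have : r = p := by
      by_contra hrp
      have hsub : ({p, q, r} : Finset ℕ) ⊆ S := by
        intro x hx
        simp only [Finset.mem_insert, Finset.mem_singleton] at hx
        rcases hx with rfl | rfl | rfl <;> assumption
      have h3 : ({p, q, r} : Finset ℕ).card = 3 := by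
        rw [Finset.card_eq_three]
        exact ⟨p, q, r, hpq, Ne.symm hrp, Ne.symm hrq, rfl⟩
      have := Finset.card_le_card hsub
      omega
    rw [← this]; exact hri
  have hsum : ∀ p ∈ S, ∀ i, padicValRat p (s i) + padicValRat p (s (i + 1)) = 0 := by
    intro p hp
    have : Fact p.Prime := ⟨hpr p hp⟩
    have h1 := C.v1 p
    have h2 := C.v2 p
    have h3 := C.v3 p
    have hβ := hβpos p hp
    have hper : ∀ i, padicValRat p (u (i + n)) = padicValRat p (u i) := fun i => by rw [C.hper]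
    apply alt_of_le (β := padicValRat p b) (g := fun i => padicValRat p (u i)) hβ h1 h2 h3
    intro i
    by_contra hcon
    have he := h2 i (by omega)
    rw [min_eq_left (by omega)] at he
    have hn1 := halt p hp i (by omega)
    have hg := h1 i
    have h3' := h3 (i + 1)
    have := typeA (β := padicValRat p b) (g := fun i => padicValRat p (u i))
      (e := fun i => padicValRat p (s i)) C.hn hper h1 h2 (i + 1)
      ⟨by omega, by
        by_contra hc
        rw [min_eq_left (by omega)] at h3'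
        omega⟩ i
    omega
  intro i
  apply one_of_val (mul_ne_zero (C.s0 i) (C.s0 (i + 1)))
  intro l hl
  have : Fact l.Prime := ⟨hl⟩
  rw [padicValRat.mul (C.s0 i) (C.s0 (i + 1))]
  by_cases h : l ∈ S
  · exact hsum l h i
  · rw [hother l hl h i, hother l hl h (i + 1)]; norm_num

end

section

theorem psq {p : ℕ} : ((p : ZMod (p ^ 2))) * (p : ZMod (p ^ 2)) = 0 := by
  have h : ((p * p : ℕ) : ZMod (p ^ 2)) = 0 := by
    rw [ZMod.natCast_eq_zero_iff, pow_two]
  exact_mod_cast h

theorem exists_mul_p {p : ℕ} (hp : p.Prime) (x : ZMod (p ^ 2))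
    (h : (p : ZMod (p ^ 2)) * x = 0) : ∃ y, x = (p : ZMod (p ^ 2)) * y := by
  obtain ⟨a, rfl⟩ := ZMod.intCast_surjective x
  have h1 : (((p : ℤ) * a : ℤ) : ZMod (p ^ 2)) = 0 := by
    push_cast
    exact h
  rw [ZMod.intCast_zmod_eq_zero_iff_dvd] at h1
  obtain ⟨c, hc⟩ := h1
  have hp0 : (p : ℤ) ≠ 0 := by exact_mod_cast hp.ne_zero
  have h2 : a = (p : ℤ) * c := by
    have : (p : ℤ) * a = (p : ℤ) * ((p : ℤ) * c) := by rw [hc]; push_cast; ring
    exact mul_left_cancel₀ hp0 this
  refine ⟨(c : ZMod (p ^ 2)), ?_⟩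
  rw [h2]; push_cast; rfl

theorem geom_p {p : ℕ} (hp : p.Prime) (hodd : p ≠ 2) (ν : ZMod (p ^ 2))
    (h : (p : ZMod (p ^ 2)) * ν = (p : ZMod (p ^ 2))) : ∑ i ∈ Finset.range p, ν ^ i = (p : ZMod (p ^ 2)) := by
  obtain ⟨y, hy⟩ := exists_mul_p hp (ν - 1) (by rw [mul_sub, h]; ring)
  have hν : ν = 1 + (p : ZMod (p ^ 2)) * y := by rw [← hy]; ring
  have hpow : ∀ i : ℕ, ν ^ i = 1 + (i : ZMod (p ^ 2)) * ((p : ZMod (p ^ 2)) * y) := by
    intro i
    induction i with
    | zero => simp
    | succ i ih =>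
      rw [pow_succ ν i, ih, hν]
      have := psq (p := p)
      push_cast
      linear_combination ((i : ZMod (p ^ 2)) * y * y) * this
  rw [Finset.sum_congr rfl (fun i _ => hpow i), Finset.sum_add_distrib, Finset.sum_const,
    Finset.card_range, nsmul_eq_mul, mul_one, ← Finset.sum_mul]
  obtain ⟨k, hk⟩ := hp.odd_of_ne_two hodd
  have h1 : ∑ i ∈ Finset.range p, i = p * k := by
    have h2 := Finset.sum_range_id_mul_two p
    have h3 : p - 1 = 2 * k := by omega
    rw [h3] at h2
    nlinarith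
  have h4 : ∑ i ∈ Finset.range p, (i : ZMod (p ^ 2)) = (p : ZMod (p ^ 2)) * k := by
    have := congrArg (fun x : ℕ => (x : ZMod (p ^ 2))) h1
    simp only [Nat.cast_sum, Nat.cast_mul] at this
    exact this
  rw [h4]
  have := psq (p := p)
  linear_combination ((k : ZMod (p ^ 2)) * y) * this

theorem torp {R : Type*} [CommRing R] [IsDomain R] {p : ℕ} (hp : p.Prime) (hodd : p ≠ 2)
    (φ : R →+* ZMod (p ^ 2)) (U : ℕ → R)
    (L : ℕ → ℕ → R) (h : ∀ i j, U (i + 1) - U (j + 1) = (U i - U j) * L i j)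
    (lam : ZMod (p ^ 2)) (hlam : (p : ZMod (p ^ 2)) * lam = (p : ZMod (p ^ 2)))
    (hL : ∀ i j, φ (L i j) = lam) {n : ℕ} (hn : 0 < n) (hper : U n = U 0) : U 1 = U 0 := by
  obtain ⟨m, hm, hm1, hm2⟩ := min_period U hn hper
  have hpow : ∀ k : ℕ, (p : ZMod (p ^ 2)) * lam ^ k = (p : ZMod (p ^ 2)) := by
    intro k
    induction k with
    | zero => simp
    | succ k ih => rw [pow_succ lam k, ← mul_assoc, ih, hlam]
  by_cases h3 : p ∣ m
  · exfalso
    obtain ⟨k, hk⟩ := h3
    have hk0 : 0 < k := by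
      rcases Nat.eq_zero_or_pos k with h0 | h0
      · subst h0; omega
      · exact h0
    have hkm : k < m := by
      rw [hk]
      have := hp.two_le
      nlinarith
    have hV : ∀ i j, U ((i + 1) * k) - U ((j + 1) * k) =
        (U (i * k) - U (j * k)) * ∏ t ∈ Finset.range k, L (i * k + t) (j * k + t) := by
      intro i j
      have := diff_prod U L h (i * k) (j * k) k
      rw [Nat.add_mul, Nat.add_mul, Nat.one_mul]
      exact this
    have h1 := sum_form (fun j => U (j * k))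
      (fun i j => ∏ t ∈ Finset.range k, L (i * k + t) (j * k + t)) hV p
    rw [← hk, hm1, Nat.zero_mul, sub_self, Nat.one_mul] at h1
    rcases mul_eq_zero.mp h1.symm with h4 | h4
    · exact hm2 k hk0 hkm (sub_eq_zero.mp h4)
    · have h5 := congrArg φ h4
      rw [map_sum, map_zero] at h5
      have h6 : ∀ i ∈ Finset.range p, φ (∏ t ∈ Finset.range i,
          ∏ t_1 ∈ Finset.range k, L ((1 + t) * k + t_1) ((0 + t) * k + t_1)) =
          (lam ^ k) ^ i := by
        intro i _
        rw [map_prod]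
        have h7 : ∀ t ∈ Finset.range i, φ (∏ t_1 ∈ Finset.range k,
            L ((1 + t) * k + t_1) ((0 + t) * k + t_1)) = lam ^ k := by
          intro t _
          rw [map_prod, Finset.prod_congr rfl (fun t _ => hL _ _), Finset.prod_const,
            Finset.card_range]
        rw [Finset.prod_congr rfl h7, Finset.prod_const, Finset.card_range]
      rw [Finset.sum_congr rfl h6, geom_p hp hodd _ (hpow k), ZMod.natCast_eq_zero_iff] at h5
      have h8 := Nat.le_of_dvd hp.pos h5
      have := hp.two_le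
      nlinarith
  · by_contra hne
    have h1 := sum_form U L h m
    rw [hm1, sub_self] at h1
    rcases mul_eq_zero.mp h1.symm with h4 | h4
    · exact hne (sub_eq_zero.mp h4)
    · have h5 := congrArg (fun x => (p : ZMod (p ^ 2)) * φ x) h4
      simp only [map_sum, map_zero, mul_zero, Finset.mul_sum] at h5
      have h6 : ∀ i ∈ Finset.range m,
          (p : ZMod (p ^ 2)) * φ (∏ t ∈ Finset.range i, L (1 + t) (0 + t)) = (p : ZMod (p ^ 2)) := by
        intro i _
        rw [map_prod, Finset.prod_congr rfl (fun t _ => hL _ _), Finset.prod_const,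
          Finset.card_range, hpow]
      rw [Finset.sum_congr rfl h6, Finset.sum_const, Finset.card_range, nsmul_eq_mul] at h5
      have h7 : ((m * p : ℕ) : ZMod (p ^ 2)) = 0 := by
        push_cast
        exact h5
      rw [ZMod.natCast_eq_zero_iff] at h7
      obtain ⟨c, hc⟩ := h7
      apply h3
      refine ⟨c, ?_⟩
      have : m * p = (p * c) * p := by rw [hc]; ring
      exact Nat.eq_of_mul_eq_mul_right hp.pos this

/-- abstract form of the alternating case -/
theorem torAC {R : Type*} [CommRing R] [IsDomain R] {p : ℕ} (hp : p.Prime)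
    (φ : R →+* ZMod (p ^ 2)) (Z I w y : ℕ → R)
    (hS : ∀ i, (Z i + w i) * I i = 1) (hZ : ∀ i, Z (i + 1) = Z i * I i ^ 2)
    (hw : ∀ i, w (i + 2) = w i) (hy : ∀ i, w i = (p : R) * y i)
    {n : ℕ} (hn : 0 < n) (hper : Z (2 * n) = Z 0) : Z 2 = Z 0 := by
  have hw0 : ∀ k, w (2 * k) = w 0 := by
    intro k
    induction k with
    | zero => rfl
    | succ k ih => rw [Nat.mul_succ, hw, ih]
  have hw1 : ∀ k, w (2 * k + 1) = w 1 := by
    intro k
    induction k with
    | zero => rfl
    | succ k ih => rw [Nat.mul_succ, Nat.add_right_comm, hw, ih]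
  have hstep : ∀ i j, w i = w j →
      Z (i + 1) - Z (j + 1) = (Z i - Z j) * ((w i ^ 2 - Z i * Z j) * (I i * I j) ^ 2) := by
    intro i j hij
    have a := hS i
    have c := hS j
    rw [hZ i, hZ j]
    have e1 : Z i * I i ^ 2 = Z i * I i ^ 2 * ((Z j + w j) * I j) ^ 2 := by rw [c]; ring
    have e2 : Z j * I j ^ 2 = Z j * I j ^ 2 * ((Z i + w i) * I i) ^ 2 := by rw [a]; ring
    rw [e1, e2, hij]
    ring
  let L : ℕ → ℕ → R := fun k l =>
    ((w 0 ^ 2 - Z (2 * k) * Z (2 * l)) * (I (2 * k) * I (2 * l)) ^ 2) *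
      ((w 1 ^ 2 - Z (2 * k + 1) * Z (2 * l + 1)) * (I (2 * k + 1) * I (2 * l + 1)) ^ 2)
  have hdiff : ∀ k l, Z (2 * (k + 1)) - Z (2 * (l + 1)) = (Z (2 * k) - Z (2 * l)) * L k l := by
    intro k l
    have a1 := hstep (2 * k) (2 * l) (by rw [hw0, hw0])
    have a2 := hstep (2 * k + 1) (2 * l + 1) (by rw [hw1, hw1])
    rw [hw0] at a1
    rw [hw1] at a2
    rw [Nat.mul_succ, Nat.mul_succ]
    simp only [L]
    rw [← mul_assoc, ← a1]
    exact a2
  -- images
  have hpw : ∀ i, (p : ZMod (p ^ 2)) * φ (w i) = 0 := by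
    intro i
    rw [hy i, map_mul, map_natCast, ← mul_assoc, psq, zero_mul]
  have hww : ∀ i, φ (w i) ^ 2 = 0 := by
    intro i
    rw [hy i, map_mul, map_natCast]
    have := psq (p := p)
    linear_combination (φ (y i)) ^ 2 * this
  have hS' : ∀ i, (φ (Z i) + φ (w i)) * φ (I i) = 1 := by
    intro i
    have := congrArg φ (hS i)
    rw [map_mul, map_add, map_one] at this
    exact this
  have hZ' : ∀ i, φ (Z (i + 1)) = φ (Z i) * φ (I i) ^ 2 := by
    intro i
    rw [hZ i, map_mul, map_pow]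
  have hμ : ∀ i, (p : ZMod (p ^ 2)) * (φ (Z i) * φ (I i)) = (p : ZMod (p ^ 2)) := by
    intro i
    have a := hS' i
    have c := hpw i
    linear_combination (p : ZMod (p ^ 2)) * a - φ (I i) * c
  have hzz : ∀ i, (p : ZMod (p ^ 2)) * (φ (Z (i + 1)) * φ (Z i)) = (p : ZMod (p ^ 2)) := by
    intro i
    have a := hμ i
    rw [hZ' i]
    linear_combination (φ (Z i) * φ (I i)) * a + a
  have hz2 : ∀ i, (p : ZMod (p ^ 2)) * φ (Z (i + 2)) = (p : ZMod (p ^ 2)) * φ (Z i) := by
    intro i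
    have a := hzz i
    have c := hzz (i + 1)
    linear_combination (- φ (Z (i + 2))) * a + φ (Z i) * c
  have hz1 : ∀ k, (p : ZMod (p ^ 2)) * φ (Z (2 * k + 1)) = (p : ZMod (p ^ 2)) * φ (Z 1) := by
    intro k
    induction k with
    | zero => rfl
    | succ k ih => rw [Nat.mul_succ, Nat.add_right_comm, hz2, ih]
  have hμ1 : ∀ k, φ (Z (2 * k + 1)) * φ (I (2 * k + 1)) = φ (Z 1) * φ (I 1) := by
    intro k
    have a := hS' (2 * k + 1)
    have c := hS' 1
    have d := hz1 k
    rw [hw1] at a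
    have e : φ (w 1) * (φ (Z (2 * k + 1)) - φ (Z 1)) = 0 := by
      rw [hy 1, map_mul, map_natCast]
      linear_combination φ (y 1) * d
    linear_combination (- (φ (Z (2 * k + 1)) * φ (I (2 * k + 1)))) * c
      + (φ (Z 1) * φ (I 1)) * a + (φ (I (2 * k + 1)) * φ (I 1)) * e
  set μ := φ (Z 1) * φ (I 1) with hμdef
  have hLφ : ∀ k l, φ (L k l) = μ ^ 2 * μ ^ 2 := by
    intro k l
    simp only [L]
    have c0 := hww 0
    have c1 := hww 1
    simp only [map_mul, map_sub, map_pow, c0, c1]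
    have a1 := hZ' (2 * k)
    have a2 := hZ' (2 * l)
    have b1 := hμ1 k
    have b2 := hμ1 l
    calc (0 - φ (Z (2 * k)) * φ (Z (2 * l))) * (φ (I (2 * k)) * φ (I (2 * l))) ^ 2 *
        ((0 - φ (Z (2 * k + 1)) * φ (Z (2 * l + 1))) *
          (φ (I (2 * k + 1)) * φ (I (2 * l + 1))) ^ 2)
        = (φ (Z (2 * k)) * φ (I (2 * k)) ^ 2) * (φ (Z (2 * l)) * φ (I (2 * l)) ^ 2) *
          (φ (Z (2 * k + 1)) * φ (Z (2 * l + 1)) *
          (φ (I (2 * k + 1)) * φ (I (2 * l + 1))) ^ 2) := by ring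
      _ = (φ (Z (2 * k + 1)) * φ (I (2 * k + 1))) ^ 2 *
          (φ (Z (2 * l + 1)) * φ (I (2 * l + 1))) ^ 2 := by rw [← a1, ← a2]; ring
      _ = μ ^ 2 * μ ^ 2 := by rw [b1, b2]
  have hpμ : (p : ZMod (p ^ 2)) * μ = (p : ZMod (p ^ 2)) := hμ 1
  have hfin : (fun k => Z (2 * k)) 1 = (fun k => Z (2 * k)) 0 := by
    by_cases h2 : p = 2
    · subst h2
      apply tor2 φ (fun k => Z (2 * k)) L hdiff _ hn (by simpa using hper)
      intro i j
      rw [hLφ]
      have hdec : ∀ x : ZMod (2 ^ 2), ((2 : ℕ) : ZMod (2 ^ 2)) * x = ((2 : ℕ) : ZMod (2 ^ 2)) →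
          x ^ 2 * x ^ 2 = 1 := by decide
      exact hdec _ hpμ
    · apply torp hp h2 φ (fun k => Z (2 * k)) L hdiff (μ ^ 2 * μ ^ 2) _ hLφ hn
        (by simpa using hper)
      linear_combination (μ ^ 3 + μ ^ 2 + μ + 1) * hpμ
  simpa using hfin

end

section

theorem of_two {b : ℚ} {u s : ℕ → ℚ} {n : ℕ} (C : Cyc b u s n) (k : ℕ)
    (h : u (k + 2) = u k) : ∀ i, |s i * s (i + 1)| = 1 := by
  have hdet : ∀ i j, u i = u j → u (i + 1) = u (j + 1) := by
    intro i j hij
    rw [C.hu, C.hu, C.hs i, C.hs j, hij]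
  have h1 : ∀ j, u (k + j + 2) = u (k + j) := by
    intro j
    induction j with
    | zero => exact h
    | succ j ih =>
      have := hdet _ _ ih
      rw [← Nat.add_assoc]
      rw [show k + j + 1 + 2 = k + j + 2 + 1 by ring]
      exact this
  intro i
  have h6 := per_mul u C.hper k i
  have h6' := per_mul u C.hper k (i + 2)
  have hn := C.hn
  have h7 : k ≤ i + n * k := by nlinarith [Nat.mul_le_mul_right k hn]
  obtain ⟨j, hj⟩ := Nat.exists_eq_add_of_le h7
  have h8 : u (i + 2) = u i := by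
    rw [← h6, ← h6', hj, show i + 2 + n * k = k + j + 2 by omega]
    exact h1 j
  have h9 := C.hu i
  have h10 := C.hu (i + 1)
  rw [show i + 1 + 1 = i + 2 by ring, h8, h9] at h10
  have a := C.s0 i
  have c := C.s0 (i + 1)
  have d := C.u0 i
  have h11 : (s i * s (i + 1)) ^ 2 = 1 := by
    field_simp at h10
    linear_combination h10
  have h12 : |s i * s (i + 1)| ^ 2 = 1 := by rw [sq_abs, h11]
  have h13 : (0:ℚ) ≤ |s i * s (i + 1)| := abs_nonneg _
  nlinarith

theorem caseAC {b : ℚ} {u s : ℕ → ℚ} {n : ℕ} (C : Cyc b u s n) (p : ℕ) [hpf : Fact p.Prime]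
    (hβ : 0 < padicValRat p b) (k : ℕ)
    (hk : - padicValRat p b < padicValRat p (u k) ∧ padicValRat p (u k) < padicValRat p b) :
    ∀ i, |s i * s (i + 1)| = 1 := by
  have hper' : ∀ i, padicValRat p (u (i + n)) = padicValRat p (u i) := fun i => by rw [C.hper]
  have hall := typeA (β := padicValRat p b) (g := fun i => padicValRat p (u i))
    (e := fun i => padicValRat p (s i)) C.hn hper' (C.v1 p) (C.v2 p) k hk
  have he : ∀ i, padicValRat p (s i) = padicValRat p (u i) := by
    intro i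
    have a := hall i
    rw [C.v2 p i (by omega), min_eq_right (by omega)]
  have hg : ∀ i, padicValRat p (u (i + 1)) = - padicValRat p (u i) := by
    intro i
    rw [C.v1 p i, he i]; ring
  obtain ⟨j0, hj0⟩ : ∃ j0, 0 ≤ padicValRat p (u j0) := by
    by_cases h : 0 ≤ padicValRat p (u 0)
    · exact ⟨0, h⟩
    · refine ⟨1, ?_⟩
      have := hg 0
      rw [Nat.zero_add] at this
      omega
  have hpq : (p : ℚ) ≠ 0 := by exact_mod_cast hpf.out.ne_zero
  let q : ℕ → ℚ := fun i => (p : ℚ) ^ (- padicValRat p (u (j0 + i)))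
  have hq0 : ∀ i, q i ≠ 0 := fun i => zpow_ne_zero _ hpq
  have hqv : ∀ i, padicValRat p (q i) = - padicValRat p (u (j0 + i)) := by
    intro i
    simp only [q]
    rw [padicValRat.zpow, padicValRat.self hpf.out.one_lt, mul_one]
  have hq2 : ∀ i, q (i + 2) = q i := by
    intro i
    simp only [q]
    have a := hg (j0 + i)
    have c := hg (j0 + i + 1)
    rw [show j0 + (i + 2) = j0 + i + 1 + 1 by ring, c, a]
    ring_nf
  have hq1 : ∀ i, q (i + 1) * q i = 1 := by
    intro i
    simp only [q]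
    rw [← zpow_add₀ hpq]
    have a := hg (j0 + i)
    rw [show j0 + (i + 1) = j0 + i + 1 by ring, a]
    have : - - padicValRat p (u (j0 + i)) + - padicValRat p (u (j0 + i)) = 0 := by ring
    rw [this, zpow_zero]
  let Zq : ℕ → ℚ := fun i => u (j0 + i) * q i
  let Sq : ℕ → ℚ := fun i => s (j0 + i) * q i
  let wq : ℕ → ℚ := fun i => b * q i
  have hZ0 : ∀ i, Zq i ≠ 0 := fun i => mul_ne_zero (C.u0 _) (hq0 i)
  have hS0 : ∀ i, Sq i ≠ 0 := fun i => mul_ne_zero (C.s0 _) (hq0 i)
  have hw0 : ∀ i, wq i ≠ 0 := fun i => mul_ne_zero C.hb (hq0 i)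
  have vZ : ∀ i, padicValRat p (Zq i) = 0 := by
    intro i
    simp only [Zq]
    rw [padicValRat.mul (C.u0 _) (hq0 i), hqv]; ring
  have vS : ∀ i, padicValRat p (Sq i) = 0 := by
    intro i
    simp only [Sq]
    rw [padicValRat.mul (C.s0 _) (hq0 i), hqv, he]; ring
  have vw : ∀ i, 1 ≤ padicValRat p (wq i) := by
    intro i
    simp only [wq]
    rw [padicValRat.mul C.hb (hq0 i), hqv]
    have := hall (j0 + i)
    omega
  have nZ : ∀ i, ‖((Zq i : ℚ) : ℚ_[p])‖ ≤ 1 := fun i => norm_le_of_val (hZ0 i) (vZ i).ge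
  have nS : ∀ i, ‖(((Sq i)⁻¹ : ℚ) : ℚ_[p])‖ ≤ 1 := fun i =>
    norm_le_of_val (inv_ne_zero (hS0 i)) (by rw [padicValRat.inv, vS i]; simp)
  have nw : ∀ i, ‖((wq i : ℚ) : ℚ_[p])‖ ≤ 1 := fun i =>
    norm_le_of_val (hw0 i) (by have := vw i; omega)
  have ny : ∀ i, ‖((wq i / p : ℚ) : ℚ_[p])‖ ≤ 1 := fun i =>
    norm_le_of_val (div_ne_zero (hw0 i) hpq) (by
      rw [padicValRat.div (hw0 i) hpq, padicValRat.self hpf.out.one_lt]
      have := vw i; omega)
  have hfin := torAC hpf.out (PadicInt.toZModPow 2) (fun i => toZ p (Zq i))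
    (fun i => toZ p (Sq i)⁻¹) (fun i => toZ p (wq i)) (fun i => toZ p (wq i / p))
    (by
      intro i
      apply Subtype.ext
      rw [PadicInt.coe_mul, PadicInt.coe_add, coe_toZ (nZ i), coe_toZ (nw i), coe_toZ (nS i),
        ← Rat.cast_add, ← Rat.cast_mul]
      have : Zq i + wq i = Sq i := by
        simp only [Zq, wq, Sq]
        rw [C.hs (j0 + i)]; ring
      rw [this, mul_inv_cancel₀ (hS0 i)]
      simp)
    (by
      intro i
      apply Subtype.ext
      rw [PadicInt.coe_mul, PadicInt.coe_pow, coe_toZ (nZ (i + 1)), coe_toZ (nZ i),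
        coe_toZ (nS i), ← Rat.cast_pow, ← Rat.cast_mul]
      congr 1
      simp only [Zq, Sq]
      rw [← Nat.add_assoc, C.hu (j0 + i)]
      have a := C.s0 (j0 + i)
      have c := hq0 i
      have d := hq1 i
      have e : q (i + 1) = (q i)⁻¹ := eq_inv_of_mul_eq_one_left d
      rw [e]
      field_simp)
    (by
      intro i
      simp only [wq]
      rw [hq2 i])
    (by
      intro i
      apply Subtype.ext
      rw [PadicInt.coe_mul, coe_toZ (nw i), coe_toZ (ny i), PadicInt.coe_natCast,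
        ← Rat.cast_natCast, ← Rat.cast_mul]
      congr 1
      field_simp)
    C.hn
    (by
      have : Zq (2 * n) = Zq 0 := by
        simp only [Zq, q]
        have := per_mul u C.hper 2 j0
        rw [Nat.add_zero, Nat.mul_comm 2 n, this]
      simp only [this])
  have h1 := congrArg (fun x : ℤ_[p] => (x : ℚ_[p])) hfin
  simp only [coe_toZ (nZ 2), coe_toZ (nZ 0)] at h1
  have h2 : Zq 2 = Zq 0 := by exact_mod_cast h1
  apply of_two C j0
  simp only [Zq] at h2
  have h3 := hq2 0
  rw [Nat.zero_add] at h3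
  rw [h3, Nat.add_zero] at h2
  exact mul_right_cancel₀ (hq0 0) h2

end

section

/-- integer facts in the expanding case -/
theorem typeB_neg {β g g' e : ℤ} (hβ : 0 < β) (h1 : g' = g - 2 * e)
    (h2 : g ≠ β → e = min β g) (h3 : min β g ≤ e)
    (hB : ¬ (-β < g ∧ g < β)) (hB' : ¬ (-β < g' ∧ g' < β)) :
    (g = β → g' ≤ -β) ∧ (g ≠ β → β ≤ g') := by
  constructor
  · intro h
    subst h
    rw [min_self] at h3
    omega
  · intro h
    have := h2 h
    omega

/-- bundle of data attached to a cycle all of whose numerator primes are expanding -/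
structure Data (b : ℚ) (u s : ℕ → ℚ) (n : ℕ) (E W : ℕ → ℕ) : Prop where
  cyc : Cyc b u s n
  hnt : ∀ i, (s i) ^ 2 ≠ 1
  E1 : ∀ i, 1 ≤ E i
  W1 : ∀ i, 1 ≤ W i
  WN : ∀ i, W i ≤ b.num.natAbs
  perE : ∀ i, E (i + n) = E i
  perW : ∀ i, W (i + n) = W i
  rel : ∀ i, |s (i + 1)| * ((E i : ℚ) * (W i : ℚ)) ^ 2 = (b.num.natAbs : ℚ) * (E (i + 1) : ℚ)
  num : ∀ i, ∀ ρ : ℚ, ρ ≠ 0 → (∀ p : ℕ, p.Prime →
      (padicValRat p ρ ≤ padicValRat p b + padicValRat p (s i)
        - min (padicValRat p b) (padicValRat p (u i))) ∧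
        (padicValRat p b ≤ 0 → padicValRat p ρ ≤ 0)) → ρ.num.natAbs ≤ b.num.natAbs * E i
  den : ∀ i, (s (i + 1)).den ≤ W i * E i ^ 2
  prod : (∏ i ∈ Finset.range n, E i) * (∏ i ∈ Finset.range n, W i) ^ 2 ≤ b.num.natAbs ^ n
  EW : ∀ i, W i = 1 → E i = 1
  hit : ∀ p, p.Prime → p ∣ b.num.natAbs → ∃ i, p ^ (padicValNat p b.num.natAbs) ≤ W i
  minW : ∀ i m, (∀ x, x.Prime → x ∣ b.num.natAbs → m ≤ x ^ (padicValNat x b.num.natAbs)) →
    W i ≠ 1 → m ≤ W i
  big : ∀ i, (b.num.natAbs : ℚ) ^ 4 ≤ |u (i + 1) / b| *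
    (((E i : ℚ) * (W i : ℚ)) ^ 2 * ((W (i + 1) : ℚ) ^ 4 * (W i : ℚ) ^ 4 * (W (i + 2) : ℚ) ^ 2))
  supp : ∀ i, ∀ p : ℕ, p.Prime → p ∣ E i * W i → p ∣ b.num.natAbs

theorem exists_data {b : ℚ} {u s : ℕ → ℚ} {n : ℕ} (C : Cyc b u s n)
    (hnt : ¬ ∀ i, |s i * s (i + 1)| = 1) : ∃ E W : ℕ → ℕ, Data b u s n E W := by
  have hnt1 : ∀ i, (s i) ^ 2 ≠ 1 := by
    intro i hi
    apply hnt
    intro j
    have h1 := C.all_of_one i hi j
    have h2 := C.all_of_one i hi (j + 1)
    have h3 : |s j * s (j + 1)| ^ 2 = 1 := by rw [sq_abs, mul_pow, h1, h2]; norm_num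
    have h4 : (0:ℚ) ≤ |s j * s (j + 1)| := abs_nonneg _
    nlinarith
  set N := b.num.natAbs with hNdef
  have hN0 : N ≠ 0 := by
    rw [hNdef]; simpa using C.hb
  set S := N.primeFactors with hSdef
  let β : ℕ → ℕ := fun p => padicValNat p N
  have hβ : ∀ p ∈ S, padicValRat p b = (β p : ℤ) ∧ 0 < β p := by
    intro p hp
    have hpp := Nat.prime_of_mem_primeFactors hp
    have hd := Nat.dvd_of_mem_primeFactors hp
    have h1 := val_of_dvd hpp hd
    have h2 := val_pos_of_dvd hpp C.hb hd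
    refine ⟨h1, ?_⟩
    rw [h1] at h2
    exact_mod_cast h2
  have hpr : ∀ p ∈ S, p.Prime := fun p hp => Nat.prime_of_mem_primeFactors hp
  have hoS : ∀ l, l.Prime → l ∉ S → padicValRat l b ≤ 0 := by
    intro l hl hlS
    apply val_of_not_dvd
    intro hd
    exact hlS (Nat.mem_primeFactors.mpr ⟨hl, hd, hN0⟩)
  have hB : ∀ p ∈ S, ∀ i, ¬ (-(β p : ℤ) < padicValRat p (u i) ∧
      padicValRat p (u i) < (β p : ℤ)) := by
    intro p hp i hk
    have : Fact p.Prime := ⟨hpr p hp⟩
    rw [← (hβ p hp).1] at hk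
    apply hnt
    apply caseAC C p _ i hk
    rw [(hβ p hp).1]
    exact_mod_cast (hβ p hp).2
  let g : ℕ → ℕ → ℤ := fun i p => padicValRat p (u i)
  let e : ℕ → ℕ → ℤ := fun i p => padicValRat p (s i)
  let η : ℕ → ℕ → ℕ := fun i p => (e i p - min (β p : ℤ) (g i p)).toNat
  let δ : ℕ → ℕ → ℕ := fun i p => if g i p = (β p : ℤ) then β p else 0
  have hη : ∀ i, ∀ p ∈ S, (η i p : ℤ) = e i p - min (β p : ℤ) (g i p) := by
    intro i p hp
    have : Fact p.Prime := ⟨hpr p hp⟩
    have h3 := C.v3 p i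
    rw [(hβ p hp).1] at h3
    simp only [η, e, g]
    omega
  have hη0 : ∀ i, ∀ p ∈ S, g i p ≠ (β p : ℤ) → η i p = 0 := by
    intro i p hp hne
    have : Fact p.Prime := ⟨hpr p hp⟩
    have h2 := C.v2 p i
    rw [(hβ p hp).1] at h2
    have h3 := h2 hne
    have h4 := hη i p hp
    simp only [e, g] at h4
    rw [h3, sub_self] at h4
    exact_mod_cast h4
  -- e (i+1) in terms of η, δ
  have hrel : ∀ i, ∀ p ∈ S, e (i + 1) p = (β p : ℤ) + η (i + 1) p - 2 * η i p - 2 * δ i p := by
    intro i p hp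
    have : Fact p.Prime := ⟨hpr p hp⟩
    have hv1 := C.v1 p i
    have hv2 := C.v2 p i
    have hv3 := C.v3 p i
    rw [(hβ p hp).1] at hv2 hv3
    have hpos : (0:ℤ) < (β p : ℤ) := by exact_mod_cast (hβ p hp).2
    obtain ⟨c1, c2⟩ := typeB_neg hpos hv1 hv2 hv3 (hB p hp i) (hB p hp (i + 1))
    have h4 := hη i p hp
    have h4' := hη (i + 1) p hp
    by_cases hg : g i p = (β p : ℤ)
    · have h5 : δ i p = β p := by simp only [δ]; rw [if_pos hg]
      have h6 := c1 hg
      have h7 := hη0 (i + 1) p hp (by simp only [g]; omega)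
      rw [h5]
      simp only [e, g] at h4 h4' hg ⊢
      rw [min_eq_right (by omega)] at h4'
      rw [hg, min_self] at h4
      rw [h7] at h4' ⊢
      push_cast at h4' ⊢
      omega
    · have h5 : δ i p = 0 := by simp only [δ]; rw [if_neg hg]
      have h6 := c2 hg
      have h7 := hη0 i p hp hg
      rw [h5, h7]
      simp only [e, g] at h4' ⊢
      rw [min_eq_left h6] at h4'
      push_cast
      omega
  -- the potential inequality summed
  have hsum : ∀ p ∈ S, ∑ i ∈ Finset.range n, (η i p + 2 * δ i p) ≤ n * β p := by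
    intro p hp
    have : Fact p.Prime := ⟨hpr p hp⟩
    let φ : ℕ → ℤ := fun i => max ((β p : ℤ) - g i p) (g i p - (β p : ℤ))
    have h1 : ∀ i, 2 * ((η i p : ℤ) + 2 * (δ i p : ℤ)) ≤ 2 * (β p : ℤ) + (φ (i + 1) - φ i) := by
      intro i
      have hv1 := C.v1 p i
      have hv2 := C.v2 p i
      have hv3 := C.v3 p i
      rw [(hβ p hp).1] at hv2 hv3
      have hpos : (0:ℤ) < (β p : ℤ) := by exact_mod_cast (hβ p hp).2
      have hpot := pot hpos hv1 hv2 hv3
      have h4 := hη i p hp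
      have h5 : (4 * (δ i p : ℤ)) = (if padicValRat p (u i) = (β p : ℤ) then 4 * (β p : ℤ) else 0) := by
        simp only [δ, g]
        split_ifs <;> simp
      rw [← h5] at hpot
      simp only [φ, g, e] at h4 ⊢
      linarith
    have h2 : ∑ i ∈ Finset.range n, (2 * ((η i p : ℤ) + 2 * (δ i p : ℤ))) ≤
        ∑ i ∈ Finset.range n, (2 * (β p : ℤ) + (φ (i + 1) - φ i)) :=
      Finset.sum_le_sum (fun i _ => h1 i)
    rw [Finset.sum_add_distrib, Finset.sum_range_sub, ← Finset.mul_sum] at h2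
    have h3 : φ n = φ 0 := by
      simp only [φ, g]
      have := C.hper 0
      rw [Nat.zero_add] at this
      rw [this]
    rw [h3, sub_self, add_zero, Finset.sum_const, Finset.card_range, nsmul_eq_mul] at h2
    have h4 : ((∑ i ∈ Finset.range n, (η i p + 2 * δ i p) : ℕ) : ℤ) ≤ ((n * β p : ℕ) : ℤ) := by
      push_cast
      linarith
    exact_mod_cast h4
  have hfac : ∏ p ∈ S, p ^ (β p) = N := prod_fac hN0
  let E : ℕ → ℕ := fun i => ∏ p ∈ S, p ^ η i p
  let W : ℕ → ℕ := fun i => ∏ p ∈ S, p ^ δ i p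
  have hE1 : ∀ i, 1 ≤ E i := fun i => Nat.one_le_iff_ne_zero.mpr
    (Finset.prod_ne_zero_iff.mpr (fun p hp => pow_ne_zero _ (hpr p hp).ne_zero))
  have hW1 : ∀ i, 1 ≤ W i := fun i => Nat.one_le_iff_ne_zero.mpr
    (Finset.prod_ne_zero_iff.mpr (fun p hp => pow_ne_zero _ (hpr p hp).ne_zero))
  -- valuations of such products
  have hvprod : ∀ (f : ℕ → ℕ) (l : ℕ), l.Prime →
      padicValRat l ((∏ p ∈ S, p ^ f p : ℕ) : ℚ) = if l ∈ S then (f l : ℤ) else 0 := by
    intro f l hl
    have : Fact l.Prime := ⟨hl⟩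
    rw [padicValRat.of_nat]
    have hne : (∏ p ∈ S, p ^ f p) ≠ 0 :=
      Finset.prod_ne_zero_iff.mpr (fun p hp => pow_ne_zero _ (hpr p hp).ne_zero)
    rw [← Nat.factorization_def _ hl, Nat.factorization_prod (fun p hp =>
      pow_ne_zero _ (hpr p hp).ne_zero), Finsupp.finset_sum_apply]
    have h1 : ∀ p ∈ S, (p ^ f p).factorization l = if p = l then f p else 0 := by
      intro p hp
      rw [Nat.Prime.factorization_pow (hpr p hp), Finsupp.single_apply]
    rw [Finset.sum_congr rfl h1, Finset.sum_ite_eq']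
    split_ifs <;> simp
  refine ⟨E, W, C, hnt1, hE1, hW1, ?_, ?_, ?_, ?_, ?_, ?_, ?_, ?_, ?_, ?_, ?_, ?_⟩
  · -- WN
    intro i
    change W i ≤ N
    rw [← hfac]
    apply Finset.prod_le_prod'
    intro p hp
    apply Nat.pow_le_pow_right (hpr p hp).pos
    simp only [δ]
    split_ifs <;> omega
  · intro i
    simp only [E, η, e, g]
    rw [C.hper, C.sper]
  · intro i
    have h1 : ∀ p, g (i + n) p = g i p := by
      intro p
      simp only [g]
      rw [C.hper]
    have h2 : ∀ p, δ (i + n) p = δ i p := by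
      intro p
      simp only [δ, h1]
    simp only [W, h2]
  · -- rel
    intro i
    have hEq : (E i : ℚ) ≠ 0 := by have := hE1 i; positivity
    have hWq : (W i : ℚ) ≠ 0 := by have := hW1 i; positivity
    have hEq' : (E (i + 1) : ℚ) ≠ 0 := by have := hE1 (i + 1); positivity
    have hNq : (N : ℚ) ≠ 0 := by exact_mod_cast hN0
    have hsa : |s (i + 1)| ≠ 0 := abs_ne_zero.mpr (C.s0 _)
    have key : |(|s (i + 1)| * ((E i : ℚ) * (W i : ℚ)) ^ 2) / ((N : ℚ) * (E (i + 1) : ℚ))| = 1 := by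
      apply one_of_val (div_ne_zero (mul_ne_zero hsa (pow_ne_zero _ (mul_ne_zero hEq hWq)))
        (mul_ne_zero hNq hEq'))
      intro l hl
      have : Fact l.Prime := ⟨hl⟩
      rw [padicValRat.div (mul_ne_zero hsa (pow_ne_zero _ (mul_ne_zero hEq hWq)))
        (mul_ne_zero hNq hEq'), padicValRat.mul hsa (pow_ne_zero _ (mul_ne_zero hEq hWq)),
        padicValRat.pow, padicValRat.mul hEq hWq, padicValRat.mul hNq hEq', val_abs]
      have w1 := hvprod (η i) l hl
      have w2 := hvprod (δ i) l hl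
      have w3 := hvprod (η (i + 1)) l hl
      have w4 := hvprod β l hl
      rw [hfac] at w4
      simp only [E, W]
      rw [w1, w2, w3, w4]
      by_cases hlS : l ∈ S
      · simp only [if_pos hlS]
        have := hrel i l hlS
        simp only [e] at this
        rw [this]
        push_cast
        ring
      · simp only [if_neg hlS]
        rw [(C.v_unit l (hoS l hl hlS) (i + 1)).1]
        norm_num
    rw [abs_of_nonneg (by positivity)] at key
    exact (div_eq_one_iff_eq (mul_ne_zero hNq hEq')).mp key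
  · -- num
    intro i ρ hρ hh
    have h1 : N * E i = ∏ p ∈ S, p ^ (β p + η i p) := by
      rw [← hfac]
      simp only [E]
      rw [← Finset.prod_mul_distrib]
      apply Finset.prod_congr rfl
      intro p _
      rw [pow_add]
    rw [h1]
    apply num_le hρ S hpr
    · intro p hp
      have h3 := (hh p (hpr p hp)).1
      have h4 := hη i p hp
      rw [(hβ p hp).1] at h3
      simp only [e, g] at h4
      push_cast
      rw [h4]
      linarith
    · intro p hp hpS
      exact (hh p hp).2 (hoS p hp hpS)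
  · -- den
    intro i
    have hs0 := C.s0 (i + 1)
    have h1 : W i * E i ^ 2 = ∏ p ∈ S, p ^ (δ i p + 2 * η i p) := by
      simp only [E, W]
      rw [← Finset.prod_pow, ← Finset.prod_mul_distrib]
      apply Finset.prod_congr rfl
      intro p _
      rw [pow_add, mul_comm 2, pow_mul]
    have h2 : (s (i + 1)).den = ((s (i + 1))⁻¹).num.natAbs := by
      rw [Rat.num_inv]
      rw [Int.natAbs_mul, Int.natAbs_sign_of_ne_zero (by simpa using hs0), one_mul]
      simp
    rw [h2, h1]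
    apply num_le (inv_ne_zero hs0) S hpr
    · intro p hp
      have : Fact p.Prime := ⟨hpr p hp⟩
      rw [padicValRat.inv]
      have h5 := hrel i p hp
      simp only [e] at h5
      rw [h5]
      push_cast
      by_cases hg : g i p = (β p : ℤ)
      · have h6 : δ i p = β p := by simp only [δ]; rw [if_pos hg]
        rw [h6]
        have : (0:ℤ) ≤ η (i + 1) p := by positivity
        linarith
      · have h7 := hη0 i p hp hg
        have h6 : δ i p = 0 := by simp only [δ]; rw [if_neg hg]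
        rw [h6, h7]
        have : (0:ℤ) ≤ η (i + 1) p := by positivity
        have : (0:ℤ) ≤ β p := by positivity
        push_cast
        linarith
    · intro p hp hpS
      have : Fact p.Prime := ⟨hp⟩
      rw [padicValRat.inv, (C.v_unit p (hoS p hp hpS) (i + 1)).1]
      simp
  · -- prod
    calc (∏ i ∈ Finset.range n, E i) * (∏ i ∈ Finset.range n, W i) ^ 2
        = ∏ i ∈ Finset.range n, ∏ p ∈ S, p ^ (η i p + 2 * δ i p) := by
          rw [← Finset.prod_pow, ← Finset.prod_mul_distrib]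
          apply Finset.prod_congr rfl
          intro i _
          simp only [E, W]
          rw [← Finset.prod_pow, ← Finset.prod_mul_distrib]
          apply Finset.prod_congr rfl
          intro p _
          rw [pow_add, mul_comm 2, pow_mul]
      _ = ∏ p ∈ S, ∏ i ∈ Finset.range n, p ^ (η i p + 2 * δ i p) := Finset.prod_comm
      _ = ∏ p ∈ S, p ^ (∑ i ∈ Finset.range n, (η i p + 2 * δ i p)) :=
          Finset.prod_congr rfl (fun p _ => Finset.prod_pow_eq_pow_sum _ _ _)
      _ ≤ ∏ p ∈ S, p ^ (n * β p) := by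
          apply Finset.prod_le_prod'
          intro p hp
          exact Nat.pow_le_pow_right (hpr p hp).pos (hsum p hp)
      _ = ∏ p ∈ S, (p ^ β p) ^ n := by
          apply Finset.prod_congr rfl
          intro p _
          rw [← pow_mul, mul_comm]
      _ = N ^ n := by
          rw [Finset.prod_pow, hfac]
  · -- EW
    intro i hW
    apply Finset.prod_eq_one
    intro p hp
    have h1 : p ^ δ i p = 1 := by
      have h2 : p ^ (δ i p) ≤ W i := by
        apply Finset.single_le_prod' (f := fun p => p ^ (δ i p)) _ hp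
        intro q hq'
        exact Nat.one_le_pow _ _ (hpr q hq').pos
      rw [hW] at h2
      have := Nat.one_le_pow (δ i p) p (hpr p hp).pos
      omega
    have h3 : g i p ≠ (β p : ℤ) := by
      intro hg
      have h6 : δ i p = β p := by simp only [δ]; rw [if_pos hg]
      rw [h6] at h1
      have h7 : 2 ≤ p ^ β p := le_trans (hpr p hp).two_le (Nat.le_self_pow (hβ p hp).2.ne' p)
      omega
    rw [hη0 i p hp h3, pow_zero]
  · -- hit
    intro p hp hd
    have hpS : p ∈ S := Nat.mem_primeFactors.mpr ⟨hp, hd, hN0⟩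
    have : Fact p.Prime := ⟨hp⟩
    by_contra hcon
    push Not at hcon
    have hne : ∀ i, g i p ≠ (β p : ℤ) := by
      intro i hg
      have h6 : δ i p = β p := by simp only [δ]; rw [if_pos hg]
      have h2 : p ^ (δ i p) ≤ W i := by
        apply Finset.single_le_prod' (f := fun p => p ^ (δ i p)) _ hpS
        intro q hq'
        exact Nat.one_le_pow _ _ (hpr q hq').pos
      rw [h6] at h2
      have h3 : W i < p ^ padicValNat p N := hcon i
      simp only [β] at h2
      omega
    have hpos : (0:ℤ) < (β p : ℤ) := by exact_mod_cast (hβ p hpS).2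
    have hge : ∀ i, (β p : ℤ) ≤ g (i + 1) p := by
      intro i
      have hv1 := C.v1 p i
      have hv2 := C.v2 p i
      have hv3 := C.v3 p i
      rw [(hβ p hpS).1] at hv2 hv3
      exact (typeB_neg hpos hv1 hv2 hv3 (hB p hpS i) (hB p hpS (i + 1))).2 (hne i)
    apply per_lt (fun i => - g i p) C.hn (fun i => by simp only [g]; rw [C.hper]) 1
    intro i hi
    obtain ⟨j, rfl⟩ : ∃ j, i = j + 1 := ⟨i - 1, by omega⟩
    have h1 := hge j
    have h2 := hne (j + 1)
    have hv1 := C.v1 p (j + 1)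
    have hv2 := C.v2 p (j + 1)
    rw [(hβ p hpS).1] at hv2
    simp only [g] at h1 h2 ⊢
    have h3 := hv2 h2
    rw [min_eq_left h1] at h3
    omega
  · -- minW
    intro i m hm hWne
    have hex : ∃ p ∈ S, g i p = (β p : ℤ) := by
      by_contra hc
      push Not at hc
      apply hWne
      apply Finset.prod_eq_one
      intro p hp
      have h5 : δ i p = 0 := by simp only [δ]; rw [if_neg (hc p hp)]
      rw [h5, pow_zero]
    obtain ⟨p, hp, hg⟩ := hex
    have h6 : δ i p = β p := by simp only [δ]; rw [if_pos hg]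
    have h2 : p ^ (δ i p) ≤ W i := by
      apply Finset.single_le_prod' (f := fun p => p ^ (δ i p)) _ hp
      intro q hq'
      exact Nat.one_le_pow _ _ (hpr q hq').pos
    rw [h6] at h2
    exact le_trans (hm p (hpr p hp) (Nat.dvd_of_mem_primeFactors hp)) h2
  · -- big
    intro i
    have hEq : (E i : ℚ) ≠ 0 := by have := hE1 i; positivity
    have hWq : ∀ j, (W j : ℚ) ≠ 0 := by intro j; have := hW1 j; positivity
    have hNq : (N : ℚ) ≠ 0 := by exact_mod_cast hN0
    have hub : u (i + 1) / b ≠ 0 := div_ne_zero (C.u0 _) C.hb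
    have hub' : |u (i + 1) / b| ≠ 0 := abs_ne_zero.mpr hub
    set ρ : ℚ := |u (i + 1) / b| * (((E i : ℚ) * (W i : ℚ)) ^ 2 *
      ((W (i + 1) : ℚ) ^ 4 * (W i : ℚ) ^ 4 * (W (i + 2) : ℚ) ^ 2)) / (N : ℚ) ^ 4 with hρ
    have hM0 : (((E i : ℚ) * (W i : ℚ)) ^ 2 *
      ((W (i + 1) : ℚ) ^ 4 * (W i : ℚ) ^ 4 * (W (i + 2) : ℚ) ^ 2)) ≠ 0 := by
      have := hWq i
      have := hWq (i + 1)
      have := hWq (i + 2)
      positivity
    have hval : ∀ l, l.Prime → 0 ≤ padicValRat l ρ := by
      intro l hl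
      have : Fact l.Prime := ⟨hl⟩
      rw [hρ, padicValRat.div (mul_ne_zero hub' hM0) (pow_ne_zero _ hNq),
        padicValRat.mul hub' hM0, val_abs, padicValRat.div (C.u0 _) C.hb,
        padicValRat.mul (pow_ne_zero _ (mul_ne_zero hEq (hWq i)))
          (mul_ne_zero (mul_ne_zero (pow_ne_zero _ (hWq _)) (pow_ne_zero _ (hWq _)))
            (pow_ne_zero _ (hWq _))),
        padicValRat.pow, padicValRat.mul hEq (hWq i),
        padicValRat.mul (mul_ne_zero (pow_ne_zero _ (hWq _)) (pow_ne_zero _ (hWq _)))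
            (pow_ne_zero _ (hWq _)),
        padicValRat.mul (pow_ne_zero _ (hWq _)) (pow_ne_zero _ (hWq _)),
        padicValRat.pow, padicValRat.pow, padicValRat.pow, padicValRat.pow]
      have w1 := hvprod (η i) l hl
      have w2 := hvprod (δ i) l hl
      have w3 := hvprod (δ (i + 1)) l hl
      have w4 := hvprod (δ (i + 2)) l hl
      have w5 := hvprod β l hl
      rw [hfac] at w5
      simp only [E, W]
      rw [w1, w2, w3, w4, w5]
      by_cases hlS : l ∈ S
      · simp only [if_pos hlS]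
        rw [(hβ l hlS).1]
        have hpos : (0:ℤ) < (β l : ℤ) := by exact_mod_cast (hβ l hlS).2
        have hT : ∀ j, (g j l = (β l : ℤ) → g (j + 1) l = - (β l : ℤ) - 2 * η j l) ∧
            (g j l ≠ (β l : ℤ) → (β l : ℤ) ≤ g (j + 1) l) ∧
            ((β l : ℤ) < g j l → g (j + 1) l = g j l - 2 * β l) := by
          intro j
          have hv1 := C.v1 l j
          have hv2 := C.v2 l j
          have hv3 := C.v3 l j
          rw [(hβ l hlS).1] at hv2 hv3
          obtain ⟨c1, c2⟩ := typeB_neg hpos hv1 hv2 hv3 (hB l hlS j) (hB l hlS (j + 1))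
          have h4 := hη j l hlS
          simp only [e, g] at h4 ⊢
          refine ⟨?_, c2, ?_⟩
          · intro hg
            rw [hg, min_self] at h4
            omega
          · intro hg
            have h5 := hv2 (by omega)
            rw [min_eq_left hg.le] at h5
            omega
        have hd0 : (δ i l : ℤ) = if g i l = (β l : ℤ) then (β l : ℤ) else 0 := by
          simp only [δ]; split_ifs <;> simp
        have hd1 : (δ (i + 1) l : ℤ) = if g (i + 1) l = (β l : ℤ) then (β l : ℤ) else 0 := by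
          simp only [δ]; split_ifs <;> simp
        have hd2 : (δ (i + 2) l : ℤ) = if g (i + 2) l = (β l : ℤ) then (β l : ℤ) else 0 := by
          simp only [δ]; split_ifs <;> simp
        have t0 := hT i
        have t1 := hT (i + 1)
        have t2 := hT (i + 2)
        rw [show i + 1 + 1 = i + 2 by ring] at t1
        rw [show i + 2 + 1 = i + 3 by ring] at t2
        have hη' : (0:ℤ) ≤ η i l := by positivity
        rw [hd0, hd1, hd2]
        simp only [g] at t0 t1 t2 ⊢
        obtain ⟨t01, t02, t03⟩ := t0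
        obtain ⟨t11, t12, t13⟩ := t1
        obtain ⟨t21, t22, t23⟩ := t2
        push_cast
        split_ifs with k0 k1 k2 k2 k1 k2 k2 <;> omega
      · simp only [if_neg hlS]
        have := (C.v_unit l (hoS l hl hlS) (i + 1)).2
        push_cast
        omega
    have hden := den_one_of_val hval
    have hρpos : 0 < ρ := by
      rw [hρ]
      have h1 := hWq i
      have h2 := hWq (i + 1)
      have h3 := hWq (i + 2)
      positivity
    have hρ1 : 1 ≤ ρ := by
      have h1 : ρ = ρ.num := by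
        conv_lhs => rw [← Rat.num_div_den ρ, hden]
        simp
      have h2 : 0 < ρ.num := Rat.num_pos.mpr hρpos
      rw [h1]
      exact_mod_cast h2
    have hN4 : (0:ℚ) < (N : ℚ) ^ 4 := by positivity
    rw [hρ, le_div_iff₀ hN4, one_mul] at hρ1
    exact hρ1
  · -- supp
    intro i l hl hd
    have hone : ∀ f : ℕ → ℕ, l ∣ ∏ p ∈ S, p ^ f p → l ∣ N := by
      intro f hf
      obtain ⟨p, hp, hlp⟩ := (Prime.dvd_finset_prod_iff hl.prime _).mp hf
      have h1 : l ∣ p := hl.dvd_of_dvd_pow hlp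
      exact dvd_trans h1 (Nat.dvd_of_mem_primeFactors hp)
    rcases (Nat.Prime.dvd_mul hl).mp hd with h1 | h1
    · exact hone _ h1
    · exact hone _ h1

end

section

theorem bD_eq {b : ℚ} (hb : 0 < b) : b * (b.den : ℚ) = (b.num.natAbs : ℚ) := by
  have h1 : b * b.den = b.num := Rat.mul_den_eq_num b
  have h2 : ((b.num.natAbs : ℕ) : ℚ) = b.num := by
    rw [Nat.cast_natAbs, abs_of_pos (Rat.num_pos.mpr hb)]
  rw [h2]; exact h1

theorem upper_abs {b : ℚ} {u s : ℕ → ℚ} {n : ℕ} (C : Cyc b u s n) (hb : 1 < b)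
    (hnt : ∀ i, (s i) ^ 2 ≠ 1) (i : ℕ) : (b - 1) * |s i| < b := by
  have hu := C.u_neg hb.le
  have h1 := C.s_lt_one hu hnt i
  have h2 := C.s_gt hu hnt i
  rcases abs_cases (s i) with ⟨h, _⟩ | ⟨h, _⟩
  · rw [h]; nlinarith
  · rw [h]; nlinarith

theorem W_ne_one {b : ℚ} {u s : ℕ → ℚ} {n : ℕ} {E W : ℕ → ℕ} (h : Data b u s n E W)
    (hb : 1 < b) (i : ℕ) : W i ≠ 1 := by
  intro hW
  have hE := h.EW i hW
  have hr := h.rel i
  rw [hW, hE] at hr
  have hup := upper_abs h.cyc hb h.hnt (i + 1)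
  have hE1 : (1:ℚ) ≤ E (i + 1) := by exact_mod_cast h.E1 (i + 1)
  have hbD := bD_eq (show 0 < b by linarith)
  have hD1 : (1:ℚ) ≤ b.den := by exact_mod_cast b.den_pos
  have hND : b.den < b.num.natAbs := by
    have : (b.den : ℚ) < (b.num.natAbs : ℚ) := by rw [← hbD]; nlinarith
    exact_mod_cast this
  have hND' : (b.den : ℚ) + 1 ≤ (b.num.natAbs : ℚ) := by exact_mod_cast hND
  set N : ℚ := (b.num.natAbs : ℚ) with hN
  set D : ℚ := (b.den : ℚ) with hD
  have hs : N ≤ |s (i + 1)| := by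
    have e : |s (i + 1)| = N * (E (i + 1) : ℚ) := by
      rw [← hr]; norm_num
    rw [e]; nlinarith
  have h1 : (b - 1) * N < b := lt_of_le_of_lt (mul_le_mul_of_nonneg_left hs (by linarith)) hup
  -- multiply by D
  have h2 : (b * D - D) * N < b * D := by nlinarith
  rw [hbD] at h2
  nlinarith

theorem exists_max {n : ℕ} (hn : 0 < n) (E : ℕ → ℕ) (hper : ∀ i, E (i + n) = E i) :
    ∃ k, ∀ j, E j ≤ E k := by
  obtain ⟨k, hk, hmax⟩ := Finset.exists_max_image (Finset.range n) E
    ⟨0, Finset.mem_range.mpr hn⟩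
  refine ⟨k, fun j => ?_⟩
  have h1 := per_mul E hper (j / n) (j % n)
  rw [Nat.mod_add_div] at h1
  rw [h1]
  exact hmax _ (Finset.mem_range.mpr (Nat.mod_lt _ hn))

/-- one large prime power in the numerator -/
theorem crit_large {b : ℚ} {u s : ℕ → ℚ} {n : ℕ} {E W : ℕ → ℕ} (h : Data b u s n E W)
    (hb : 6 ≤ b) {m q : ℕ} (hm : ∀ i, m ≤ W i) (hm0 : 0 < m) (hq : ∃ i, q ≤ W i)
    (hmq : (b.den : ℚ) ^ 2 * b ^ 4 ≤ (m : ℚ) * q * (b - 1) ^ 4) : False := by
  have C := h.cyc
  have hbD := bD_eq (show 0 < b by linarith)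
  have hD1 : (1:ℚ) ≤ b.den := by exact_mod_cast b.den_pos
  have hlow : ∀ i, (b - 1) ^ 3 ≤ b * ((b.num.natAbs : ℚ) * (E i : ℚ)) := by
    intro i
    obtain ⟨ρ, hρ0, hρ1, hρ2, hρ3⟩ := rho_exists C hb h.hnt i
    have h1 := num_ge hb hρ0 hρ1 hρ2
    have h2 := h.num i ρ hρ0.ne' hρ3
    have h3 : (ρ.num.natAbs : ℚ) ≤ (b.num.natAbs : ℚ) * (E i : ℚ) := by exact_mod_cast h2
    nlinarith
  obtain ⟨k, hk⟩ := exists_max C.hn E h.perE
  have hab := fun i => abs_bounds C hb h.hnt i
  set N : ℚ := (b.num.natAbs : ℚ) with hN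
  set D : ℚ := (b.den : ℚ) with hD
  have hNpos : 0 < N := by
    rw [← hbD]; nlinarith
  have hmq' : (0:ℚ) < m := by exact_mod_cast hm0
  have hEk : (1:ℚ) ≤ E k := by exact_mod_cast h.E1 k
  -- (4)
  have h4 : (b - 1) * m ^ 2 * E k ≤ b * N := by
    have hr := h.rel k
    have h1 := (hab (k + 1)).1
    have h2 : (E (k + 1) : ℚ) ≤ E k := by exact_mod_cast hk (k + 1)
    have h3 : (m : ℚ) ≤ W k := by exact_mod_cast hm k
    have h5 : (m:ℚ) ^ 2 ≤ (W k : ℚ) ^ 2 := by nlinarith
    have h6 : (b - 1) * ((E k : ℚ) * (W k : ℚ)) ^ 2 ≤ b * (N * E k) := by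
      have : (b - 1) * ((E k : ℚ) * (W k : ℚ)) ^ 2 ≤
          b * |s (k + 1)| * ((E k : ℚ) * (W k : ℚ)) ^ 2 :=
        mul_le_mul_of_nonneg_right h1.le (sq_nonneg _)
      have e : b * |s (k + 1)| * ((E k : ℚ) * (W k : ℚ)) ^ 2 = b * (N * E (k + 1)) := by
        rw [← hr]; ring
      rw [e] at this
      have : b * (N * (E (k + 1) : ℚ)) ≤ b * (N * E k) := by
        apply mul_le_mul_of_nonneg_left _ (by linarith)
        exact mul_le_mul_of_nonneg_left h2 hNpos.le
      linarith
    have h7 : (b - 1) * m ^ 2 * E k * E k ≤ b * N * E k := by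
      have : (b - 1) * (m:ℚ) ^ 2 * E k * E k ≤ (b - 1) * ((E k : ℚ) * (W k : ℚ)) ^ 2 := by
        have e : (b - 1) * ((E k : ℚ) * (W k : ℚ)) ^ 2 = (b - 1) * (W k : ℚ) ^ 2 * E k * E k := by
          ring
        rw [e]
        have hb1 : 0 ≤ b - 1 := by linarith
        have := mul_le_mul_of_nonneg_left h5 hb1
        have := mul_le_mul_of_nonneg_right this (by linarith : (0:ℚ) ≤ E k)
        exact mul_le_mul_of_nonneg_right this (by linarith : (0:ℚ) ≤ E k)
      linarith
    exact le_of_mul_le_mul_right h7 (by linarith)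
  obtain ⟨i, hi⟩ := hq
  have hWi : (q : ℚ) ≤ W i := by exact_mod_cast hi
  have hEi : (1:ℚ) ≤ E i := by exact_mod_cast h.E1 i
  have hWi1 : (1:ℚ) ≤ W i := by exact_mod_cast h.W1 i
  -- (5)
  have h5 : (b - 1) * ((E i : ℚ) * (W i : ℚ)) ^ 2 < b * (N * E k) := by
    have hr := h.rel i
    have h1 := (hab (i + 1)).1
    have h2 : (E (i + 1) : ℚ) ≤ E k := by exact_mod_cast hk (i + 1)
    have h3 : (b - 1) * ((E i : ℚ) * (W i : ℚ)) ^ 2 <
        b * |s (i + 1)| * ((E i : ℚ) * (W i : ℚ)) ^ 2 :=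
      mul_lt_mul_of_pos_right h1 (by positivity)
    have e : b * |s (i + 1)| * ((E i : ℚ) * (W i : ℚ)) ^ 2 = b * (N * E (i + 1)) := by
      rw [← hr]; ring
    rw [e] at h3
    have : b * (N * (E (i + 1) : ℚ)) ≤ b * (N * E k) := by
      apply mul_le_mul_of_nonneg_left _ (by linarith)
      exact mul_le_mul_of_nonneg_left h2 hNpos.le
    linarith
  set x : ℚ := (b - 1) * m * (E i * W i) with hx
  have hxpos : 0 < x := by
    rw [hx]
    have : 0 < b - 1 := by linarith
    positivity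
  have h6 : x ^ 2 < (b * N) ^ 2 := by
    have e1 : x ^ 2 = ((b - 1) * m ^ 2) * ((b - 1) * ((E i : ℚ) * (W i : ℚ)) ^ 2) := by
      rw [hx]; ring
    rw [e1]
    have hpos : 0 < (b - 1) * (m:ℚ) ^ 2 := by
      have : 0 < b - 1 := by linarith
      positivity
    have h7 := mul_lt_mul_of_pos_left h5 hpos
    have h8 : ((b - 1) * (m:ℚ) ^ 2) * (b * (N * E k)) = (b * N) * ((b - 1) * m ^ 2 * E k) := by ring
    rw [h8] at h7
    have h9 : (b * N) * ((b - 1) * m ^ 2 * E k) ≤ (b * N) * (b * N) :=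
      mul_le_mul_of_nonneg_left h4 (by positivity)
    nlinarith
  have h7 : x < b * N := by
    have : 0 < b * N := by positivity
    exact lt_of_pow_lt_pow_left₀ 2 this.le h6
  -- (6)
  have h8 := hlow i
  have hb1 : 0 < b - 1 := by linarith
  have h9 : (b - 1) ^ 3 * ((b - 1) * m * W i) ≤ b * (N * E i) * ((b - 1) * m * W i) :=
    mul_le_mul_of_nonneg_right h8 (by positivity)
  have h10 : b * (N * E i) * ((b - 1) * m * W i) = (b * N) * x := by rw [hx]; ring
  rw [h10] at h9
  have h11 : (b * N) * x < (b * N) * (b * N) := mul_lt_mul_of_pos_left h7 (by positivity)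
  have h12 : (b * N) * (b * N) = D ^ 2 * b ^ 4 := by rw [← hbD]; ring
  have h13 : (m : ℚ) * q * (b - 1) ^ 4 ≤ (b - 1) ^ 3 * ((b - 1) * m * W i) := by
    have e : (b - 1) ^ 3 * ((b - 1) * m * W i) = (m : ℚ) * W i * (b - 1) ^ 4 := by ring
    rw [e]
    apply mul_le_mul_of_nonneg_right _ (by positivity)
    exact mul_le_mul_of_nonneg_left hWi hmq'.le
  linarith

theorem val_neg_of_dvd_den {q : ℚ} {p : ℕ} (hp : p.Prime) (hd : p ∣ q.den) :
    padicValRat p q < 0 := by
  have : Fact p.Prime := ⟨hp⟩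
  have h3 : ¬ p ∣ q.num.natAbs := by
    intro h2
    have h4 : p ∣ 1 := by
      rw [← q.reduced]; exact Nat.dvd_gcd h2 hd
    exact hp.one_lt.ne' (Nat.dvd_one.mp h4)
  rw [padicValRat, padicValInt, padicValNat.eq_zero_of_not_dvd h3]
  have h5 : 1 ≤ padicValNat p q.den := one_le_padicValNat_of_dvd q.den_ne_zero hd
  omega

theorem den_dvd {b : ℚ} {u s : ℕ → ℚ} {n : ℕ} (C : Cyc b u s n) (i : ℕ) :
    (b.den : ℤ) ∣ (s i).num ^ 2 - ((s i).den : ℤ) ^ 2 := by
  have ht := C.t_eq i
  set x := (s i).num with hx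
  set y := (s i).den with hy
  set x' := (s (i + 1)).num with hx'
  set y' := (s (i + 1)).den with hy'
  have hyq : (y : ℚ) ≠ 0 := by exact_mod_cast (s i).den_ne_zero
  have hyq' : (y' : ℚ) ≠ 0 := by exact_mod_cast (s (i + 1)).den_ne_zero
  have hDq : (b.den : ℚ) ≠ 0 := by exact_mod_cast b.den_ne_zero
  have e1 : s i * y = x := Rat.mul_den_eq_num (s i)
  have e2 : s (i + 1) * y' = x' := Rat.mul_den_eq_num (s (i + 1))
  have e3 : b * b.den = b.num := Rat.mul_den_eq_num b
  have key : (b.num : ℚ) * (((x : ℚ) ^ 2 - (y : ℚ) ^ 2) * y') =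
      (b.den : ℚ) * (x * (x * x' - y * y')) := by
    rw [← e1, ← e2, ← e3]
    linear_combination (b.den : ℚ) * (y : ℚ) ^ 2 * y' * ht
  have keyZ : b.num * ((x ^ 2 - (y : ℤ) ^ 2) * (y' : ℤ)) = (b.den : ℤ) * (x * (x * x' - y * y')) := by
    exact_mod_cast key
  have c1 : IsCoprime (b.den : ℤ) b.num := by
    rw [Int.isCoprime_iff_gcd_eq_one]
    have := b.reduced
    rw [Nat.Coprime, Nat.gcd_comm] at this
    rw [Int.gcd]
    simpa using this
  have c2 : IsCoprime (b.den : ℤ) (y' : ℤ) := by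
    rw [Nat.isCoprime_iff_coprime]
    apply Nat.coprime_of_dvd
    intro l hl hd1 hd2
    have : Fact l.Prime := ⟨hl⟩
    have h1 : padicValRat l b ≤ 0 := (val_neg_of_dvd_den hl hd1).le
    have h2 := (C.v_unit l h1 (i + 1)).1
    have h3 := val_neg_of_dvd_den hl hd2
    omega
  have d1 : (b.den : ℤ) ∣ b.num * ((x ^ 2 - (y : ℤ) ^ 2) * (y' : ℤ)) := ⟨_, keyZ⟩
  have d2 := c1.dvd_of_dvd_mul_left d1
  exact c2.dvd_of_dvd_mul_right d2

/-- large denominator -/
theorem crit_den {b : ℚ} {u s : ℕ → ℚ} {n : ℕ} {E W : ℕ → ℕ} (h : Data b u s n E W)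
    (hD : b.num.natAbs ^ 6 ≤ b.den) : False := by
  have C := h.cyc
  set N := b.num.natAbs with hN
  have hN0 : N ≠ 0 := by rw [hN]; simpa using C.hb
  have hN1 : 1 ≤ N := Nat.pos_of_ne_zero hN0
  have hor : ∀ i, N ^ 2 < E (i + 1) ∨ N < E i := by
    intro i
    have hdvd := den_dvd C (i + 1)
    have hne : (s (i + 1)).num ^ 2 - ((s (i + 1)).den : ℤ) ^ 2 ≠ 0 := by
      intro h0
      apply h.hnt (i + 1)
      have h1 : (s (i + 1)).num ^ 2 = ((s (i + 1)).den : ℤ) ^ 2 := by linarith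
      have h2 : ((s (i + 1)).num : ℚ) ^ 2 = ((s (i + 1)).den : ℚ) ^ 2 := by exact_mod_cast h1
      have h3 : ((s (i + 1)).den : ℚ) ≠ 0 := by exact_mod_cast (s (i + 1)).den_ne_zero
      have h4 : s (i + 1) = (s (i + 1)).num / (s (i + 1)).den := (Rat.num_div_den _).symm
      rw [h4, div_pow, h2, div_self (pow_ne_zero _ h3)]
    have hle := Int.le_of_dvd (abs_pos.mpr hne) ((dvd_abs _ _).mpr hdvd)
    have hx : (s (i + 1)).num.natAbs ≤ N * E (i + 1) := by
      apply h.num (i + 1) (s (i + 1)) (C.s0 _)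
      intro p hp
      have : Fact p.Prime := ⟨hp⟩
      constructor
      · have := min_le_left (padicValRat p b) (padicValRat p (u (i + 1)))
        linarith
      · intro hβ
        rw [(C.v_unit p hβ (i + 1)).1]
    have hy : (s (i + 1)).den ≤ W i * E i ^ 2 := h.den i
    have hnum0 : (s (i + 1)).num ≠ 0 := by simpa using C.s0 (i + 1)
    have hden0 : 0 < (s (i + 1)).den := (s (i + 1)).den_pos
    have hsq : (s (i + 1)).num ^ 2 = (((s (i + 1)).num.natAbs : ℕ) : ℤ) ^ 2 := by
      rw [Int.natCast_natAbs, sq_abs]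
    rw [hsq] at hle
    have hn1 : 0 < (s (i + 1)).num.natAbs := Int.natAbs_pos.mpr hnum0
    set X := (s (i + 1)).num.natAbs with hX
    set Y := (s (i + 1)).den with hY
    have hcase : b.den < X ^ 2 ∨ b.den < Y ^ 2 := by
      rcases abs_cases (((X : ℕ) : ℤ) ^ 2 - ((Y : ℕ) : ℤ) ^ 2) with ⟨h1, _⟩ | ⟨h1, _⟩
      · left
        rw [h1] at hle
        have : (0:ℤ) < ((Y : ℕ) : ℤ) ^ 2 := by positivity
        have : (b.den : ℤ) < ((X : ℕ) : ℤ) ^ 2 := by linarith
        exact_mod_cast this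
      · right
        rw [h1] at hle
        have : (0:ℤ) < ((X : ℕ) : ℤ) ^ 2 := by positivity
        have : (b.den : ℤ) < ((Y : ℕ) : ℤ) ^ 2 := by linarith
        exact_mod_cast this
    rcases hcase with hc | hc
    · left
      have h1 : (N ^ 3) ^ 2 < (N * E (i + 1)) ^ 2 := by
        calc (N ^ 3) ^ 2 = N ^ 6 := by ring
          _ ≤ b.den := hD
          _ < X ^ 2 := hc
          _ ≤ (N * E (i + 1)) ^ 2 := Nat.pow_le_pow_left hx 2
      have h2 : N ^ 3 < N * E (i + 1) := lt_of_pow_lt_pow_left₀ 2 (Nat.zero_le _) h1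
      have h3 : N * N ^ 2 < N * E (i + 1) := by
        calc N * N ^ 2 = N ^ 3 := by ring
          _ < _ := h2
      exact lt_of_mul_lt_mul_left h3 (Nat.zero_le _)
    · right
      have h1 : (N ^ 3) ^ 2 < (N * E i ^ 2) ^ 2 := by
        calc (N ^ 3) ^ 2 = N ^ 6 := by ring
          _ ≤ b.den := hD
          _ < Y ^ 2 := hc
          _ ≤ (N * E i ^ 2) ^ 2 := Nat.pow_le_pow_left
              (le_trans hy (Nat.mul_le_mul_right _ (h.WN i))) 2
      have h2 : N ^ 3 < N * E i ^ 2 := lt_of_pow_lt_pow_left₀ 2 (Nat.zero_le _) h1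
      have h3 : N * N ^ 2 < N * E i ^ 2 := by
        calc N * N ^ 2 = N ^ 3 := by ring
          _ < _ := h2
      have h4 : N ^ 2 < E i ^ 2 := lt_of_mul_lt_mul_left h3 (Nat.zero_le _)
      exact lt_of_pow_lt_pow_left₀ 2 (Nat.zero_le _) h4
  let f : ℕ → ℕ := fun i => if N ^ 2 < E i then 1 else 0
  let g : ℕ → ℕ := fun i => if N < E i then 1 else 0
  have hNN : N ≤ N ^ 2 := by nlinarith
  have hfg : ∀ i, N ^ (f i + g i) ≤ E i := by
    intro i
    simp only [f, g]
    by_cases h1 : N ^ 2 < E i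
    · rw [if_pos h1, if_pos (lt_of_le_of_lt hNN h1)]
      exact h1.le
    · rw [if_neg h1]
      by_cases h2 : N < E i
      · rw [if_pos h2]; simp; exact h2.le
      · rw [if_neg h2]; simpa using h.E1 i
  have hshift : ∑ i ∈ Finset.range n, f (i + 1) = ∑ i ∈ Finset.range n, f i := by
    have h1 := Finset.sum_range_succ f n
    have h2 := Finset.sum_range_succ' f n
    have h3 : f n = f 0 := by
      simp only [f]
      have := h.perE 0
      rw [Nat.zero_add] at this
      rw [this]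
    omega
  have hcount : n ≤ ∑ i ∈ Finset.range n, (f i + g i) := by
    rw [Finset.sum_add_distrib, ← hshift, ← Finset.sum_add_distrib]
    calc n = ∑ i ∈ Finset.range n, 1 := by simp
      _ ≤ ∑ i ∈ Finset.range n, (f (i + 1) + g i) := by
          apply Finset.sum_le_sum
          intro i _
          simp only [f, g]
          rcases hor i with h1 | h1
          · rw [if_pos h1]; omega
          · rw [if_pos h1]; omega
  have hE : N ^ n ≤ ∏ i ∈ Finset.range n, E i := by
    calc N ^ n ≤ N ^ (∑ i ∈ Finset.range n, (f i + g i)) := Nat.pow_le_pow_right hN1 hcount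
      _ = ∏ i ∈ Finset.range n, N ^ (f i + g i) := (Finset.prod_pow_eq_pow_sum _ _ _).symm
      _ ≤ ∏ i ∈ Finset.range n, E i := Finset.prod_le_prod' (fun i _ => hfg i)
  have hprod : (∏ i ∈ Finset.range n, E i) * (∏ i ∈ Finset.range n, W i) ^ 2 ≤ N ^ n := h.prod
  have hW1 : ∏ i ∈ Finset.range n, W i = 1 := by
    have h1 : 1 ≤ ∏ i ∈ Finset.range n, W i := Finset.one_le_prod' (fun i _ => h.W1 i)
    by_contra hne
    have h2 : 2 ≤ ∏ i ∈ Finset.range n, W i := by omega
    have h3 : 4 ≤ (∏ i ∈ Finset.range n, W i) ^ 2 := by nlinarith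
    have h4 : 0 < N ^ n := Nat.pow_pos hN1
    have h5 := Nat.mul_le_mul hE h3
    omega
  have hWi : ∀ i ∈ Finset.range n, W i = 1 := by
    intro i hi
    have h1 : W i ≤ ∏ i ∈ Finset.range n, W i :=
      Finset.single_le_prod' (f := W) (fun j _ => h.W1 j) hi
    have := h.W1 i
    omega
  have hEi : ∀ i, E i = 1 := by
    intro i
    have h1 := per_mul E h.perE (i / n) (i % n)
    rw [Nat.mod_add_div] at h1
    rw [h1]
    exact h.EW _ (hWi _ (Finset.mem_range.mpr (Nat.mod_lt _ C.hn)))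
  rcases hor 0 with h1 | h1
  · rw [hEi] at h1; nlinarith
  · rw [hEi] at h1; omega

end

section

/-- transfer of a cycle to `ℤ_p`, second form -/
theorem transfer' {b : ℚ} {u s : ℕ → ℚ} {n : ℕ} (C : Cyc b u s n) (p : ℕ) [Fact p.Prime]
    (hb : padicValRat p b = 0) :
    ∃ (B B' : ℤ_[p]) (U I : ℕ → ℤ_[p]), B * B' = 1 ∧ (∀ i, (B + U i) * I i = 1) ∧
      (∀ i, U (i + 1) = U i * (I i) ^ 2) ∧ (∀ i, U (i + n) = U i) ∧
      (∀ i, ((U i : ℤ_[p]) : ℚ_[p]) = ((u i : ℚ) : ℚ_[p])) ∧
      (∀ i, ((B + U i : ℤ_[p]) : ℚ_[p]) = ((s i : ℚ) : ℚ_[p])) := by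
  have hun := fun i => C.v_unit p hb.le i
  have hB := norm_le_of_val (p := p) C.hb hb.ge
  have hB' : ‖((b⁻¹ : ℚ) : ℚ_[p])‖ ≤ 1 :=
    norm_le_of_val (inv_ne_zero C.hb) (by rw [padicValRat.inv, hb]; simp)
  have hU : ∀ i, ‖((u i : ℚ) : ℚ_[p])‖ ≤ 1 := fun i =>
    norm_le_of_val (C.u0 i) (by rw [← hb]; exact (hun i).2)
  have hI : ∀ i, ‖(((s i)⁻¹ : ℚ) : ℚ_[p])‖ ≤ 1 := fun i =>
    norm_le_of_val (inv_ne_zero (C.s0 i)) (by rw [padicValRat.inv, (hun i).1]; simp)
  have key : ∀ i, (((toZ p b + toZ p (u i) : ℤ_[p])) : ℚ_[p]) = ((s i : ℚ) : ℚ_[p]) := by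
    intro i
    rw [PadicInt.coe_add, coe_toZ hB, coe_toZ (hU i), C.hs i]
    push_cast
    ring
  refine ⟨toZ p b, toZ p b⁻¹, fun i => toZ p (u i), fun i => toZ p (s i)⁻¹, ?_, ?_, ?_, ?_,
    ?_, ?_⟩
  · apply Subtype.ext
    rw [PadicInt.coe_mul, coe_toZ hB, coe_toZ hB', ← Rat.cast_mul, mul_inv_cancel₀ C.hb]
    simp
  · intro i
    apply Subtype.ext
    rw [PadicInt.coe_mul, key i, coe_toZ (hI i), ← Rat.cast_mul, mul_inv_cancel₀ (C.s0 i)]
    simp
  · intro i
    apply Subtype.ext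
    rw [PadicInt.coe_mul, PadicInt.coe_pow, coe_toZ (hU (i + 1)), coe_toZ (hU i),
      coe_toZ (hI i), ← Rat.cast_pow, ← Rat.cast_mul, C.hu i]
    congr 1
    rw [inv_pow, div_eq_mul_inv]
  · intro i
    simp only [C.hper i]
  · intro i
    exact coe_toZ (hU i)
  · exact key

/-- stepping by `m` -/
theorem tor_step {R : Type*} [CommRing R] [IsDomain R] {p : ℕ} (hp : p.Prime) (hodd : p ≠ 2)
    (φ : R →+* ZMod (p ^ 2)) (B : R) (U I : ℕ → R)
    (hS : ∀ i, (B + U i) * I i = 1) (hU : ∀ i, U (i + 1) = U i * I i ^ 2)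
    {m : ℕ} (hmod : ∀ i, φ (U (i + m)) = φ (U i))
    (hlam : (p : ZMod (p ^ 2)) * ∏ t ∈ Finset.range m,
      ((φ B ^ 2 - φ (U t) * φ (U t)) * (φ (I t) * φ (I t)) ^ 2) = (p : ZMod (p ^ 2)))
    {n : ℕ} (hn : 0 < n) (hper : U (n * m) = U 0) : U m = U 0 := by
  have hS' : ∀ i, (φ B + φ (U i)) * φ (I i) = 1 := by
    intro i
    have := congrArg φ (hS i)
    rw [map_mul, map_add, map_one] at this
    exact this
  have hImod : ∀ i, φ (I (i + m)) = φ (I i) := by
    intro i
    have a := hS' i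
    have c := hS' (i + m)
    rw [hmod i] at c
    linear_combination (- φ (I (i + m))) * a + φ (I i) * c
  have hUm : ∀ k t, φ (U (k * m + t)) = φ (U t) := by
    intro k t
    induction k with
    | zero => simp
    | succ k ih =>
      rw [Nat.succ_mul, Nat.add_right_comm, hmod, ih]
  have hIm : ∀ k t, φ (I (k * m + t)) = φ (I t) := by
    intro k t
    induction k with
    | zero => simp
    | succ k ih =>
      rw [Nat.succ_mul, Nat.add_right_comm, hImod, ih]
  have hd := diff_prod U (fun i j => (B ^ 2 - U i * U j) * (I i * I j) ^ 2) (diff_id B U I hS hU)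
  have hV : ∀ i j, U ((i + 1) * m) - U ((j + 1) * m) =
      (U (i * m) - U (j * m)) * ∏ t ∈ Finset.range m,
        ((B ^ 2 - U (i * m + t) * U (j * m + t)) * (I (i * m + t) * I (j * m + t)) ^ 2) := by
    intro i j
    have := hd (i * m) (j * m) m
    rw [Nat.add_mul, Nat.add_mul, Nat.one_mul]
    exact this
  have := torp hp hodd φ (fun k => U (k * m)) _ hV
    (∏ t ∈ Finset.range m,
      ((φ B ^ 2 - φ (U t) * φ (U t)) * (φ (I t) * φ (I t)) ^ 2)) hlam (by
      intro i j
      rw [map_prod]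
      apply Finset.prod_congr rfl
      intro t _
      rw [map_mul, map_sub, map_pow, map_mul, map_pow, map_mul, hUm, hUm, hIm, hIm]) hn
      (by simpa using hper)
  simpa using this

theorem u_const {b : ℚ} {u s : ℕ → ℚ} {n : ℕ} (C : Cyc b u s n) {k m : ℕ}
    (h : u (k + m) = u k) : ∀ i, u (i + m) = u i := by
  have hdet : ∀ i j, u i = u j → u (i + 1) = u (j + 1) := by
    intro i j hij
    rw [C.hu, C.hu, C.hs i, C.hs j, hij]
  have h1 : ∀ j, u (k + j + m) = u (k + j) := by
    intro j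
    induction j with
    | zero => exact h
    | succ j ih =>
      have := hdet _ _ ih
      rw [← Nat.add_assoc]
      rw [show k + j + 1 + m = k + j + m + 1 by ring]
      exact this
  intro i
  have h6 := per_mul u C.hper k i
  have h6' := per_mul u C.hper k (i + m)
  have hn := C.hn
  have h7 : k ≤ i + n * k := by nlinarith [Nat.mul_le_mul_right k hn]
  obtain ⟨j, hj⟩ := Nat.exists_eq_add_of_le h7
  rw [← h6, ← h6', hj, show i + m + n * k = k + j + m by omega]
  exact h1 j

theorem sq_prod_four {b : ℚ} {u s : ℕ → ℚ} {n : ℕ} (C : Cyc b u s n)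
    (h : ∀ i, u (i + 4) = u i) (i : ℕ) :
    (s i * s (i + 1) * (s (i + 2) * s (i + 3))) ^ 2 = 1 := by
  have h0 := C.hu i
  have h1 := C.hu (i + 1)
  have h2 := C.hu (i + 2)
  have h3 := C.hu (i + 3)
  have h4 := h i
  rw [show i + 1 + 1 = i + 2 by ring] at h1
  rw [show i + 2 + 1 = i + 3 by ring] at h2
  rw [show i + 3 + 1 = i + 4 by ring] at h3
  rw [h3, h2, h1, h0] at h4
  have a0 := C.s0 i
  have a1 := C.s0 (i + 1)
  have a2 := C.s0 (i + 2)
  have a3 := C.s0 (i + 3)
  have d := C.u0 i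
  field_simp at h4
  linear_combination - h4

theorem four_of_abs {b : ℚ} {u s : ℕ → ℚ} {n : ℕ} (C : Cyc b u s n)
    (h : ∀ i, |s i * s (i + 1)| = 1) (i : ℕ) :
    s i * s (i + 1) * (s (i + 2) * s (i + 3)) = 1 := by
  rcases of_t C h with h1 | h1
  · have hu : ∀ i, u (i + 1) = u i := by
      intro i
      rw [C.hu, h1 i, div_one]
    have hs : ∀ i, s (i + 1) = s i := by
      intro i
      rw [C.hs, C.hs, hu]
    rw [hs (i + 2), hs (i + 1), hs i]
    have := h1 i
    linear_combination (s i ^ 2 + 1) * this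
  · rw [h1 i, h1 (i + 2)]; norm_num

end

section

theorem dvd_of_toZMod {p : ℕ} [Fact p.Prime] {x : ℤ_[p]} (h : PadicInt.toZMod x = 0) :
    (p : ℤ_[p]) ∣ x := by
  have h1 : x ∈ RingHom.ker (PadicInt.toZMod : ℤ_[p] →+* ZMod p) := h
  rw [PadicInt.ker_toZMod, PadicInt.maximalIdeal_eq_span_p, Ideal.mem_span_singleton] at h1
  exact h1

theorem p_mul_of_toZMod {p : ℕ} [Fact p.Prime] {x : ℤ_[p]} (h : PadicInt.toZMod x = 1) :
    (p : ZMod (p ^ 2)) * (PadicInt.toZModPow 2 : ℤ_[p] →+* ZMod (p ^ 2)) x = (p : ZMod (p ^ 2)) := by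
  have h1 : (p : ℤ_[p]) ∣ x - 1 := dvd_of_toZMod (by rw [map_sub, h, map_one, sub_self])
  obtain ⟨y, hy⟩ := h1
  have h2 : x = 1 + p * y := by rw [← hy]; ring
  rw [h2, map_add, map_mul, map_natCast, map_one]
  have := psq (p := p)
  linear_combination ((PadicInt.toZModPow 2 : ℤ_[p] →+* ZMod (p ^ 2)) y) * this

theorem toZModPow_eq_of_dvd {p : ℕ} [Fact p.Prime] {x y a c : ℤ_[p]}
    (ha : (p : ℤ_[p]) ∣ a) (hc : (p : ℤ_[p]) ∣ c) (h : x - y = a * c) :
    (PadicInt.toZModPow 2 : ℤ_[p] →+* ZMod (p ^ 2)) x =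
      (PadicInt.toZModPow 2 : ℤ_[p] →+* ZMod (p ^ 2)) y := by
  obtain ⟨a', rfl⟩ := ha
  obtain ⟨c', rfl⟩ := hc
  rw [← sub_eq_zero, ← map_sub, h, map_mul, map_mul, map_mul, map_natCast]
  have := psq (p := p)
  linear_combination ((PadicInt.toZModPow 2 : ℤ_[p] →+* ZMod (p ^ 2)) a') *
    ((PadicInt.toZModPow 2 : ℤ_[p] →+* ZMod (p ^ 2)) c') * this

instance fact_prime_five : Fact (Nat.Prime 5) := ⟨by norm_num⟩

theorem five_one {b : ℚ} {u s : ℕ → ℚ} {n : ℕ} (C : Cyc b u s n)
    (B : ℤ_[5]) (U I : ℕ → ℤ_[5]) (h2 : ∀ i, (B + U i) * I i = 1)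
    (h3 : ∀ i, U (i + 1) = U i * (I i) ^ 2) (h4 : ∀ i, U (i + n) = U i)
    (h5 : ∀ i, ((U i : ℤ_[5]) : ℚ_[5]) = ((u i : ℚ) : ℚ_[5]))
    (h6 : ∀ i, ((B + U i : ℤ_[5]) : ℚ_[5]) = ((s i : ℚ) : ℚ_[5]))
    (hη : ∀ i, PadicInt.toZMod (B + U i) = 1) :
    ∀ i, s i * s (i + 1) * (s (i + 2) * s (i + 3)) = 1 := by
  have hI : ∀ i, PadicInt.toZMod (I i) = 1 := by
    intro i
    have := congrArg (PadicInt.toZMod : ℤ_[5] →+* ZMod 5) (h2 i)
    rw [map_mul, hη i, one_mul, map_one] at this
    exact this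
  by_cases hB : PadicInt.toZMod (2 * B - 1) = 0
  · -- attracting
    have hfix : B + U 0 - 1 = 0 := by
      apply attr (PadicInt.toZMod : ℤ_[5] →+* ZMod 5) 1 (by rw [map_one]; exact one_ne_zero)
        (fun i => B + U i - 1)
        (fun i => ((B - 1) * (B + U i) + B) * (I i) ^ 2) _ _ C.hn
        (by
          have := h4 0
          rw [Nat.zero_add] at this
          simp only [this])
      · intro i
        have := h2 i
        rw [h3 i]
        linear_combination (- B * ((B + U i) * I i + 1) + ((B + U i) * I i + 1) * 1) * this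
      · intro i
        rw [one_mul, map_mul, map_pow, hI i, map_add, map_mul, hη i, one_pow, mul_one, mul_one,
          ← map_add]
        rw [← hB]
        congr 1
        ring
    have h7 := h6 0
    have h8 : B + U 0 = 1 := by linear_combination hfix
    rw [h8, PadicInt.coe_one] at h7
    have h9 : s 0 = 1 := by exact_mod_cast h7.symm
    have h10 := C.all_of_one 0 (by rw [h9]; norm_num)
    apply four_of_abs C
    intro i
    have a1 := h10 i
    have a2 := h10 (i + 1)
    have h3 : |s i * s (i + 1)| ^ 2 = 1 := by rw [sq_abs, mul_pow, a1, a2]; norm_num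
    have h4 : (0:ℚ) ≤ |s i * s (i + 1)| := abs_nonneg _
    nlinarith
  · -- torsion
    have hF : ∀ i, PadicInt.toZMod (((B - 1) * (B + U i) + B) * (I i) ^ 2) =
        PadicInt.toZMod (2 * B - 1) := by
      intro i
      rw [map_mul, map_pow, hI i, map_add, map_mul, hη i, one_pow, mul_one, mul_one, ← map_add]
      congr 1
      ring
    have hY : ∀ i, B + U (i + 1) - 1 = (B + U i - 1) * (((B - 1) * (B + U i) + B) * (I i) ^ 2) := by
      intro i
      have := h2 i
      rw [h3 i]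
      linear_combination (- B * ((B + U i) * I i + 1) + ((B + U i) * I i + 1) * 1) * this
    have hmod : ∀ i, (PadicInt.toZModPow 2 : ℤ_[5] →+* ZMod (5 ^ 2)) (U (i + 4)) =
        (PadicInt.toZModPow 2 : ℤ_[5] →+* ZMod (5 ^ 2)) (U i) := by
      intro i
      set F : ℕ → ℤ_[5] := fun i => ((B - 1) * (B + U i) + B) * (I i) ^ 2 with hFdef
      have e1 := hY i
      have e2 := hY (i + 1)
      have e3 := hY (i + 2)
      have e4 := hY (i + 3)
      rw [show i + 1 + 1 = i + 2 by ring] at e2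
      rw [show i + 2 + 1 = i + 3 by ring] at e3
      rw [show i + 3 + 1 = i + 4 by ring] at e4
      apply toZModPow_eq_of_dvd (a := B + U i - 1)
        (c := F i * F (i + 1) * F (i + 2) * F (i + 3) - 1)
      · exact dvd_of_toZMod (by rw [map_sub, hη i, map_one, sub_self])
      · apply dvd_of_toZMod
        rw [map_sub, map_mul, map_mul, map_mul, map_one]
        simp only [hFdef]
        rw [hF, hF, hF, hF]
        have hdec : ∀ x : ZMod 5, x ≠ 0 → x * x * x * x - 1 = 0 := by decide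
        exact hdec _ hB
      · have f1 : U (i + 4) - U i = (B + U (i + 4) - 1) - (B + U i - 1) := by ring
        rw [f1, e4, e3, e2, e1]
        simp only [hFdef]
        rw [show i + 1 + 0 = i + 1 by ring]
        ring
    have hper4 : U (n * 4) = U 0 := by
      have := per_mul U h4 4 0
      rw [Nat.zero_add] at this
      exact this
    have key := tor_step (p := 5) (by norm_num) (by norm_num)
      (PadicInt.toZModPow 2 : ℤ_[5] →+* ZMod (5 ^ 2)) B U I h2 h3 hmod (by
        have h7 : PadicInt.toZMod (∏ t ∈ Finset.range 4,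
            ((B ^ 2 - U t * U t) * (I t * I t) ^ 2)) = 1 := by
          rw [map_prod]
          have h8 : ∀ t ∈ Finset.range 4, PadicInt.toZMod ((B ^ 2 - U t * U t) * (I t * I t) ^ 2) =
              PadicInt.toZMod (2 * B - 1) := by
            intro t _
            rw [map_mul, map_pow, map_mul, hI t, map_sub, map_pow, map_mul]
            have h9 := hη t
            rw [map_add] at h9
            rw [map_sub, map_mul, map_one]
            have h10 : (PadicInt.toZMod (2 : ℤ_[5])) = 2 := map_ofNat _ 2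
            rw [h10]
            linear_combination (PadicInt.toZMod B - PadicInt.toZMod (U t) - 1) * h9
          rw [Finset.prod_congr rfl h8, Finset.prod_const, Finset.card_range]
          have hdec : ∀ x : ZMod 5, x ≠ 0 → x ^ 4 = 1 := by decide
          exact hdec _ hB
        have h8 := p_mul_of_toZMod h7
        rw [map_prod] at h8
        simp only [map_mul, map_sub, map_pow] at h8
        exact h8) C.hn hper4
    have h7 : u 4 = u 0 := by
      have a := h5 4
      have c := h5 0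
      rw [key, c] at a
      exact_mod_cast a.symm
    have h8 := u_const C (k := 0) (m := 4) (by rw [Nat.zero_add]; exact h7)
    intro i
    have h9 := sq_prod_four C h8 i
    have h9' : (s i * s (i + 1) * (s (i + 2) * s (i + 3)) - 1) *
        (s i * s (i + 1) * (s (i + 2) * s (i + 3)) + 1) = 0 := by linear_combination h9
    rcases mul_eq_zero.mp h9' with h10 | h10
    · linarith
    · exfalso
      have h10 : s i * s (i + 1) * (s (i + 2) * s (i + 3)) = -1 := by linarith
      have h11 : ((B + U i) * (B + U (i + 1)) * ((B + U (i + 2)) * (B + U (i + 3))) : ℤ_[5]) = -1 := by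
        apply Subtype.ext
        rw [PadicInt.coe_mul, PadicInt.coe_mul, PadicInt.coe_mul, h6, h6, h6, h6,
          PadicInt.coe_neg, PadicInt.coe_one]
        exact_mod_cast h10
      have h12 := congrArg (PadicInt.toZMod : ℤ_[5] →+* ZMod 5) h11
      rw [map_mul, map_mul, map_mul, hη, hη, hη, hη, map_neg, map_one] at h12
      revert h12
      decide

theorem case_five {b : ℚ} {u s : ℕ → ℚ} {n : ℕ} (C : Cyc b u s n)
    (hb : padicValRat 5 b = 0) :
    ∀ i, s i * s (i + 1) * (s (i + 2) * s (i + 3)) = 1 := by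
  obtain ⟨B, B', U, I, h1, h2, h3, h4, h5, h6⟩ := transfer' C 5 hb
  have a1 := congrArg (PadicInt.toZMod : ℤ_[5] →+* ZMod 5) h1
  rw [map_mul, map_one] at a1
  have a2 : ∀ i, (PadicInt.toZMod B + PadicInt.toZMod (U i)) * PadicInt.toZMod (I i) = 1 := by
    intro i
    have := congrArg (PadicInt.toZMod : ℤ_[5] →+* ZMod 5) (h2 i)
    rw [map_mul, map_add, map_one] at this
    exact this
  have a3 : ∀ i, PadicInt.toZMod (U (i + 1)) =
      PadicInt.toZMod (U i) * PadicInt.toZMod (I i) ^ 2 := by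
    intro i
    rw [h3 i, map_mul, map_pow]
  by_cases h0 : PadicInt.toZMod (U 0) = 0
  · -- near identity, step two
    have hz : ∀ i, PadicInt.toZMod (U i) = 0 := by
      intro i
      induction i with
      | zero => exact h0
      | succ i ih => rw [a3 i, ih, zero_mul]
    have hII : ∀ i, PadicInt.toZMod (I i) ^ 4 = 1 := by
      intro i
      have c := a2 i
      rw [hz i, add_zero] at c
      have hdec : ∀ x y : ZMod 5, x * y = 1 → y ^ 4 = 1 := by decide
      exact hdec _ _ c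
    have hmod : ∀ i, (PadicInt.toZModPow 2 : ℤ_[5] →+* ZMod (5 ^ 2)) (U (i + 2)) =
        (PadicInt.toZModPow 2 : ℤ_[5] →+* ZMod (5 ^ 2)) (U i) := by
      intro i
      apply toZModPow_eq_of_dvd (a := U i) (c := (I i * I (i + 1)) ^ 2 - 1)
      · exact dvd_of_toZMod (hz i)
      · apply dvd_of_toZMod
        rw [map_sub, map_pow, map_mul, map_one]
        have c := a2 i
        have d := a2 (i + 1)
        rw [hz i, add_zero] at c
        rw [hz (i + 1), add_zero] at d
        have hdec : ∀ x y z : ZMod 5, x * y = 1 → x * z = 1 → (y * z) ^ 2 - 1 = 0 := by decide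
        exact hdec _ _ _ c d
      · rw [show i + 2 = i + 1 + 1 by ring, h3 (i + 1), h3 i]; ring
    have hper2 : U (n * 2) = U 0 := by
      have := per_mul U h4 2 0
      rw [Nat.zero_add] at this
      exact this
    have key := tor_step (p := 5) (by norm_num) (by norm_num)
      (PadicInt.toZModPow 2 : ℤ_[5] →+* ZMod (5 ^ 2)) B U I h2 h3 hmod (by
        have h7 : PadicInt.toZMod (∏ t ∈ Finset.range 2,
            ((B ^ 2 - U t * U t) * (I t * I t) ^ 2)) = 1 := by
          rw [map_prod]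
          have h8 : ∀ t ∈ Finset.range 2, PadicInt.toZMod ((B ^ 2 - U t * U t) * (I t * I t) ^ 2) =
              PadicInt.toZMod B ^ 2 := by
            intro t _
            rw [map_mul, map_pow, map_mul, map_sub, map_pow, map_mul, hz t]
            have := hII t
            linear_combination (PadicInt.toZMod B) ^ 2 * this
          rw [Finset.prod_congr rfl h8, Finset.prod_const, Finset.card_range]
          have hdec : ∀ x y : ZMod 5, x * y = 1 → (x ^ 2) ^ 2 = 1 := by decide
          exact hdec _ _ a1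
        have h8 := p_mul_of_toZMod h7
        rw [map_prod] at h8
        simp only [map_mul, map_sub, map_pow] at h8
        exact h8) C.hn hper2
    have h7 : u 2 = u 0 := by
      have a := h5 2
      have c := h5 0
      rw [key, c] at a
      exact_mod_cast a.symm
    exact four_of_abs C (of_two C 0 (by rw [Nat.zero_add]; exact h7))
  · -- unit class
    have hne : ∀ i, PadicInt.toZMod (U i) ≠ 0 := by
      intro i
      induction i with
      | zero => exact h0
      | succ i ih =>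
        rw [a3 i]
        have c := a2 i
        have hdec : ∀ x u i : ZMod 5, (x + u) * i = 1 → u ≠ 0 → u * i ^ 2 ≠ 0 := by decide
        exact hdec _ _ _ c ih
    have hstep : ∀ i, PadicInt.toZMod B + PadicInt.toZMod (U (i + 1)) = 1 ∨
        PadicInt.toZMod B + PadicInt.toZMod (U (i + 1)) = -1 := by
      intro i
      have c := a2 i
      have d := a2 (i + 1)
      rw [a3 i] at d ⊢
      have hdec : ∀ x y u i j : ZMod 5, x * y = 1 → (x + u) * i = 1 →
          (x + u * i ^ 2) * j = 1 → u ≠ 0 → x + u * i ^ 2 = 1 ∨ x + u * i ^ 2 = -1 := by decide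
      exact hdec _ _ _ _ _ a1 c d (hne i)
    have hconst : ∀ i, PadicInt.toZMod (U (i + 2)) = PadicInt.toZMod (U (i + 1)) := by
      intro i
      rw [show i + 2 = i + 1 + 1 by ring, a3 (i + 1)]
      have d := a2 (i + 1)
      rcases hstep i with h | h
      · rw [h, one_mul] at d
        rw [d]; ring
      · rw [h] at d
        have : PadicInt.toZMod (I (i + 1)) ^ 2 = 1 := by
          linear_combination (- PadicInt.toZMod (I (i + 1)) + 1) * d
        rw [this, mul_one]
    have hc1 : ∀ i, PadicInt.toZMod (U (i + 1)) = PadicInt.toZMod (U 1) := by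
      intro i
      induction i with
      | zero => rfl
      | succ i ih => rw [hconst i, ih]
    have hc : ∀ i, PadicInt.toZMod (U i) = PadicInt.toZMod (U 1) := by
      intro i
      rcases Nat.eq_zero_or_pos i with h | h
      · subst h
        have e := h4 0
        rw [Nat.zero_add] at e
        rw [← e]
        obtain ⟨k, hk⟩ : ∃ k, n = k + 1 := ⟨n - 1, by have := C.hn; omega⟩
        rw [hk]; exact hc1 k
      · obtain ⟨k, rfl⟩ : ∃ k, i = k + 1 := ⟨i - 1, by omega⟩
        exact hc1 k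
    rcases hstep 0 with h | h
    · apply five_one C B U I h2 h3 h4 h5 h6
      intro i
      rw [map_add, hc i]
      exact h
    · have hN := five_one C.neg (-B) (fun i => - U i) (fun i => - I i)
        (by intro i; have := h2 i; linear_combination this)
        (by intro i; simp only [h3 i]; ring)
        (by intro i; simp only [h4 i])
        (by intro i; rw [PadicInt.coe_neg, h5 i]; push_cast; ring)
        (by
          intro i
          have : -B + -U i = -(B + U i) := by ring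
          rw [this, PadicInt.coe_neg, h6 i]; push_cast; ring)
        (by
          intro i
          have : -B + -U i = -(B + U i) := by ring
          rw [this, map_neg, map_add, hc i]
          rw [Nat.zero_add] at h
          rw [h, neg_neg])
      intro i
      have := hN i
      linear_combination this

end

section

/-- the chain of inequalities -/
theorem chain {N K c e0 e1 e2 e3 w0 w1 w2 a : ℚ} (hN : 0 < N) (hK : 0 < K) (hc : 0 < c)
    (he0 : 0 < e0) (he1 : 0 < e1) (he2 : 0 < e2) (he3 : 0 < e3)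
    (hw0 : 0 < w0) (hw1 : 0 < w1) (hw2 : 0 < w2) (ha : a ≤ c)
    (k0 : N ≤ K * e0) (k1 : N ≤ K * e1)
    (A0 : (e0 * w0) ^ 2 ≤ c * (N * e1)) (A1 : (e1 * w1) ^ 2 ≤ c * (N * e2))
    (A2 : (e2 * w2) ^ 2 ≤ c * (N * e3)) (A3 : 4 * e3 ≤ c * N)
    (big : N ^ 4 ≤ a * ((e0 * w0) ^ 2 * (w1 ^ 4 * w0 ^ 4 * w2 ^ 2))) :
    4 * N ^ 2 ≤ K ^ 5 * c ^ 8 := by
  have b1 : N ^ 4 ≤ c * ((e0 * w0) ^ 2 * (w1 ^ 4 * w0 ^ 4 * w2 ^ 2)) :=
    le_trans big (mul_le_mul_of_nonneg_right ha (by positivity))
  -- multiply by e0^4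
  have b2 : N ^ 4 * e0 ^ 4 ≤ c * ((e0 * w0) ^ 2) ^ 3 * (w1 ^ 4 * w2 ^ 2) := by
    have := mul_le_mul_of_nonneg_right b1 (by positivity : 0 ≤ e0 ^ 4)
    have e : c * ((e0 * w0) ^ 2 * (w1 ^ 4 * w0 ^ 4 * w2 ^ 2)) * e0 ^ 4 =
        c * ((e0 * w0) ^ 2) ^ 3 * (w1 ^ 4 * w2 ^ 2) := by ring
    rw [e] at this
    exact this
  have b3 : ((e0 * w0) ^ 2) ^ 3 ≤ (c * (N * e1)) ^ 3 := pow_le_pow_left₀ (by positivity) A0 3
  have b4 : N ^ 4 * e0 ^ 4 ≤ c * (c * (N * e1)) ^ 3 * (w1 ^ 4 * w2 ^ 2) := by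
    refine le_trans b2 ?_
    apply mul_le_mul_of_nonneg_right _ (by positivity)
    exact mul_le_mul_of_nonneg_left b3 hc.le
  have b5 : N ^ 4 ≤ (K * e0) ^ 4 := pow_le_pow_left₀ hN.le k0 4
  have b6 : N ^ 4 * N ^ 4 ≤ K ^ 4 * (c * (c * (N * e1)) ^ 3 * (w1 ^ 4 * w2 ^ 2)) := by
    calc N ^ 4 * N ^ 4 ≤ N ^ 4 * (K * e0) ^ 4 := mul_le_mul_of_nonneg_left b5 (by positivity)
      _ = K ^ 4 * (N ^ 4 * e0 ^ 4) := by ring
      _ ≤ _ := mul_le_mul_of_nonneg_left b4 (by positivity)
  have b7 : N ^ 3 * N ^ 5 ≤ N ^ 3 * (K ^ 4 * c ^ 4 * (e1 ^ 3 * w1 ^ 4 * w2 ^ 2)) := by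
    calc N ^ 3 * N ^ 5 = N ^ 4 * N ^ 4 := by ring
      _ ≤ _ := b6
      _ = N ^ 3 * (K ^ 4 * c ^ 4 * (e1 ^ 3 * w1 ^ 4 * w2 ^ 2)) := by ring
  have b8 : N ^ 5 ≤ K ^ 4 * c ^ 4 * (e1 ^ 3 * w1 ^ 4 * w2 ^ 2) :=
    le_of_mul_le_mul_left b7 (by positivity)
  have b9 : N ^ 5 * e1 ≤ K ^ 4 * c ^ 4 * ((e1 * w1) ^ 2) ^ 2 * w2 ^ 2 := by
    have := mul_le_mul_of_nonneg_right b8 he1.le
    have e : K ^ 4 * c ^ 4 * (e1 ^ 3 * w1 ^ 4 * w2 ^ 2) * e1 =
        K ^ 4 * c ^ 4 * ((e1 * w1) ^ 2) ^ 2 * w2 ^ 2 := by ring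
    rw [e] at this
    exact this
  have b10 : ((e1 * w1) ^ 2) ^ 2 ≤ (c * (N * e2)) ^ 2 := pow_le_pow_left₀ (by positivity) A1 2
  have b11 : N ^ 5 * e1 ≤ K ^ 4 * c ^ 4 * (c * (N * e2)) ^ 2 * w2 ^ 2 := by
    refine le_trans b9 ?_
    apply mul_le_mul_of_nonneg_right _ (by positivity)
    exact mul_le_mul_of_nonneg_left b10 (by positivity)
  have b12 : N ^ 5 * e1 ≤ K ^ 4 * c ^ 6 * N ^ 2 * (c * (N * e3)) := by
    calc N ^ 5 * e1 ≤ K ^ 4 * c ^ 4 * (c * (N * e2)) ^ 2 * w2 ^ 2 := b11
      _ = K ^ 4 * c ^ 6 * N ^ 2 * (e2 * w2) ^ 2 := by ring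
      _ ≤ _ := mul_le_mul_of_nonneg_left A2 (by positivity)
  have b13 : N ^ 5 * N ≤ K * (K ^ 4 * c ^ 6 * N ^ 2 * (c * (N * e3))) := by
    calc N ^ 5 * N ≤ N ^ 5 * (K * e1) := mul_le_mul_of_nonneg_left k1 (by positivity)
      _ = K * (N ^ 5 * e1) := by ring
      _ ≤ _ := mul_le_mul_of_nonneg_left b12 hK.le
  have b14 : N ^ 4 * (4 * N ^ 2) ≤ N ^ 4 * (K ^ 5 * c ^ 8) := by
    calc N ^ 4 * (4 * N ^ 2) = 4 * (N ^ 5 * N) := by ring
      _ ≤ 4 * (K * (K ^ 4 * c ^ 6 * N ^ 2 * (c * (N * e3)))) := by linarith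
      _ = K ^ 5 * c ^ 7 * N ^ 3 * (4 * e3) := by ring
      _ ≤ K ^ 5 * c ^ 7 * N ^ 3 * (c * N) := mul_le_mul_of_nonneg_left A3 (by positivity)
      _ = N ^ 4 * (K ^ 5 * c ^ 8) := by ring
  exact le_of_mul_le_mul_left b14 (by positivity)

/-- large numerator -/
theorem crit_num {b : ℚ} {u s : ℕ → ℚ} {n : ℕ} {E W : ℕ → ℕ} (h : Data b u s n E W)
    (hb : 81 ≤ b) (hN : b.den ^ 5 ≤ b.num.natAbs) : False := by
  have C := h.cyc
  have hbD := bD_eq (show 0 < b by linarith)
  have hD1 : (1:ℚ) ≤ b.den := by exact_mod_cast b.den_pos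
  have hlow : ∀ i, (b - 1) ^ 3 ≤ b * ((b.num.natAbs : ℚ) * (E i : ℚ)) := by
    intro i
    obtain ⟨ρ, hρ0, hρ1, hρ2, hρ3⟩ := rho_exists C (by linarith) h.hnt i
    have h1 := num_ge (by linarith) hρ0 hρ1 hρ2
    have h2 := h.num i ρ hρ0.ne' hρ3
    have h3 : (ρ.num.natAbs : ℚ) ≤ (b.num.natAbs : ℚ) * (E i : ℚ) := by exact_mod_cast h2
    nlinarith
  obtain ⟨k, hk⟩ := exists_max C.hn E h.perE
  have hab := fun i => abs_bounds C (by linarith) h.hnt i
  have hNr : ((b.den : ℚ)) ^ 5 ≤ (b.num.natAbs : ℚ) := by exact_mod_cast hN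
  set N : ℚ := (b.num.natAbs : ℚ) with hNdef
  set D : ℚ := (b.den : ℚ) with hD
  have hNpos : 0 < N := by
    rw [← hbD]; nlinarith
  have hb1 : 0 < b - 1 := by linarith
  set c : ℚ := b / (b - 1) with hc
  have hcpos : 0 < c := by rw [hc]; positivity
  have hcb : c * (b - 1) = b := by rw [hc]; field_simp
  have hc81 : c ≤ 81 / 80 := by
    rw [hc, div_le_div_iff₀ hb1 (by norm_num)]; linarith
  have hEpos : ∀ i, (0:ℚ) < E i := by
    intro i
    have : (1:ℚ) ≤ E i := by exact_mod_cast h.E1 i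
    linarith
  have hWpos : ∀ i, (0:ℚ) < W i := by
    intro i
    have : (1:ℚ) ≤ W i := by exact_mod_cast h.W1 i
    linarith
  have hW2 : ∀ i, (2:ℚ) ≤ W i := by
    intro i
    have h1 := h.W1 i
    have h2 := W_ne_one h (by linarith) i
    have : 2 ≤ W i := by omega
    exact_mod_cast this
  -- A
  have hA : ∀ i, ((E i : ℚ) * (W i : ℚ)) ^ 2 ≤ c * (N * E (i + 1)) := by
    intro i
    have hr := h.rel i
    have h1 := (hab (i + 1)).1
    have h2 : (b - 1) * ((E i : ℚ) * (W i : ℚ)) ^ 2 ≤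
        b * |s (i + 1)| * ((E i : ℚ) * (W i : ℚ)) ^ 2 :=
      mul_le_mul_of_nonneg_right h1.le (sq_nonneg _)
    have e : b * |s (i + 1)| * ((E i : ℚ) * (W i : ℚ)) ^ 2 = b * (N * E (i + 1)) := by
      rw [← hr]; ring
    rw [e] at h2
    have h3 : (b - 1) * ((E i : ℚ) * (W i : ℚ)) ^ 2 ≤ (b - 1) * (c * (N * E (i + 1))) := by
      calc (b - 1) * ((E i : ℚ) * (W i : ℚ)) ^ 2 ≤ b * (N * E (i + 1)) := h2
        _ = (b - 1) * (c * (N * E (i + 1))) := by
            linear_combination (- (N * (E (i + 1) : ℚ))) * hcb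
    exact le_of_mul_le_mul_left h3 hb1
  -- K
  set K : ℚ := c ^ 3 * D ^ 2 with hK
  have hKpos : 0 < K := by rw [hK]; positivity
  have hk' : ∀ i, N ≤ K * E i := by
    intro i
    have h1 := hlow i
    have e1 : N * (b * (b - 1) ^ 3) ≤ (K * E i) * (b * (b - 1) ^ 3) := by
      have e2 : (K * E i) * (b * (b - 1) ^ 3) = D ^ 2 * E i * b * (c * (b - 1)) ^ 3 := by
        rw [hK]; ring
      rw [e2, hcb]
      calc N * (b * (b - 1) ^ 3) ≤ N * (b * (b * (N * E i))) := by
            apply mul_le_mul_of_nonneg_left _ hNpos.le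
            exact mul_le_mul_of_nonneg_left h1 (by linarith)
        _ = D ^ 2 * E i * b * b ^ 3 := by rw [← hbD]; ring
    exact le_of_mul_le_mul_right e1 (by positivity)
  -- A3
  have hA3 : ∀ i, 4 * (E i : ℚ) ≤ c * N := by
    intro i
    have h1 := hA k
    have h2 : (E (k + 1) : ℚ) ≤ E k := by exact_mod_cast hk (k + 1)
    have h3 : (E i : ℚ) ≤ E k := by exact_mod_cast hk i
    have h4 : c * (N * (E (k + 1) : ℚ)) ≤ c * (N * E k) := by
      apply mul_le_mul_of_nonneg_left _ hcpos.le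
      exact mul_le_mul_of_nonneg_left h2 hNpos.le
    have h5 : (E k : ℚ) * (4 * E k) ≤ (E k : ℚ) * (c * N) := by
      have h6 : (4:ℚ) ≤ (W k : ℚ) ^ 2 := by have := hW2 k; nlinarith
      have h7 : (E k : ℚ) ^ 2 * 4 ≤ (E k : ℚ) ^ 2 * (W k : ℚ) ^ 2 :=
        mul_le_mul_of_nonneg_left h6 (sq_nonneg _)
      nlinarith
    have h8 := le_of_mul_le_mul_left h5 (hEpos k)
    linarith
  have ha : |u (0 + 1) / b| ≤ c := by
    have h1 := (hab 1).2
    have h2 := C.hs 1
    have h3 : u 1 / b = s 1 / b - 1 := by rw [h2]; field_simp; ring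
    have h4 : |s 1| ≤ c := by
      have : |s 1| * (b - 1) ≤ c * (b - 1) := by rw [hcb]; linarith
      exact le_of_mul_le_mul_right this hb1
    have hu := C.u_neg (by linarith) 1
    rw [Nat.zero_add, abs_div, abs_of_neg hu, abs_of_pos (by linarith : (0:ℚ) < b)]
    rw [div_le_iff₀ (by linarith)]
    have h5 : - u 1 = b - s 1 := by rw [h2]; ring
    rw [h5]
    have h6 := neg_abs_le (s 1)
    have h7 : c * b = c + b := by
      have : c * b = c * (b - 1) + c := by ring
      rw [this, hcb]; ring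
    rw [h7]; linarith
  have hchain := chain hNpos hKpos hcpos (hEpos 0) (hEpos 1) (hEpos 2) (hEpos 3)
    (hWpos 0) (hWpos 1) (hWpos 2) ha (hk' 0) (hk' 1) (hA 0) (hA 1) (hA 2) (hA3 3) (h.big 0)
  have hc23 : c ^ 23 ≤ (81 / 80) ^ 23 := pow_le_pow_left₀ hcpos.le hc81 23
  have hnum : ((81:ℚ) / 80) ^ 23 < 4 := by norm_num
  have hD10 : (D ^ 5) ^ 2 ≤ N ^ 2 := pow_le_pow_left₀ (by positivity) hNr 2
  have e : K ^ 5 * c ^ 8 = c ^ 23 * (D ^ 5) ^ 2 := by rw [hK]; ring
  rw [e] at hchain
  have h10 : c ^ 23 * (D ^ 5) ^ 2 ≤ c ^ 23 * N ^ 2 := mul_le_mul_of_nonneg_left hD10 (by positivity)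
  have h11 : c ^ 23 * N ^ 2 < 4 * N ^ 2 := mul_lt_mul_of_pos_right (by linarith) (by positivity)
  linarith

end

section

/-- two primes, `b > 1` -/
theorem case_two_primes {b : ℚ} {u s : ℕ → ℚ} {n : ℕ} (C : Cyc b u s n) (hb : 1 < b)
    (hcard : b.num.natAbs.primeFactors.card ≤ 2) : ∀ i, |s i * s (i + 1)| = 1 := by
  by_contra hnt
  obtain ⟨E, W, h⟩ := exists_data C hnt
  apply hnt
  apply two_primes_core C hcard
  intro i
  by_contra hcon
  push Not at hcon
  have hN0 : b.num.natAbs ≠ 0 := by simpa using C.hb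
  set N := b.num.natAbs with hNdef
  have hNq : (N : ℚ) ≠ 0 := by exact_mod_cast hN0
  have hup := upper_abs C hb h.hnt i
  have hbD := bD_eq (show 0 < b by linarith)
  have hD1 : (1:ℚ) ≤ b.den := by exact_mod_cast b.den_pos
  -- s i / N is an integer
  have hval : ∀ l, l.Prime → 0 ≤ padicValRat l (s i / N) := by
    intro l hl
    have : Fact l.Prime := ⟨hl⟩
    rw [padicValRat.div (C.s0 i) hNq, padicValRat.of_nat]
    by_cases hd : l ∣ N
    · have hmem : l ∈ N.primeFactors := Nat.mem_primeFactors.mpr ⟨hl, hd, hN0⟩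
      have h1 := hcon l hmem
      have h2 := val_of_dvd hl hd
      have h3 := val_pos_of_dvd hl C.hb hd
      have hnAC : ¬ (- padicValRat l b < padicValRat l (u i) ∧
          padicValRat l (u i) < padicValRat l b) := by
        intro hk
        exact hnt (caseAC C l h3 i hk)
      have hv2 := C.v2 l i
      have hv3 := C.v3 l i
      rw [← h2]
      by_cases hg : padicValRat l (u i) = padicValRat l b
      · rw [hg, min_self] at hv3; omega
      · have := hv2 hg
        omega
    · rw [padicValNat.eq_zero_of_not_dvd hd]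
      rw [(C.v_unit l (val_of_not_dvd hd) i).1]
      norm_num
  have hden := den_one_of_val hval
  have hne : s i / N ≠ 0 := div_ne_zero (C.s0 i) hNq
  have h1 : s i / N = (s i / N).num := by
    conv_lhs => rw [← Rat.num_div_den (s i / N), hden]
    simp
  have h2 : (s i / N).num ≠ 0 := by simpa using hne
  have h3 : (1:ℚ) ≤ |((s i / N).num : ℚ)| := by
    have := Int.one_le_abs h2
    exact_mod_cast this
  rw [← h1, abs_div, le_div_iff₀ (by positivity), one_mul] at h3
  have h4 : (N : ℚ) ≤ |s i| := le_trans (le_abs_self _) h3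
  have h5 : (b - 1) * N < b := lt_of_le_of_lt (mul_le_mul_of_nonneg_left h4 (by linarith)) hup
  have hND : b.den < N := by
    have : (b.den : ℚ) < (N : ℚ) := by rw [← hbD]; nlinarith
    exact_mod_cast this
  have hND' : (b.den : ℚ) + 1 ≤ (N : ℚ) := by exact_mod_cast hND
  have h6 : (b * b.den - b.den) * N < b * b.den := by nlinarith
  rw [hbD] at h6
  have h7 : (0:ℚ) < N := by positivity
  nlinarith

/-- the hypothesis on `b` -/
def Good (b : ℚ) : Prop :=
  (padicValRat 2 b = 0 ∨ padicValRat 2 b = -1) ∨ padicValRat 3 b = 0 ∨ padicValRat 5 b = 0 ∨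
  b.num.natAbs.primeFactors.card ≤ 1 ∨
  (1 < |b| ∧ b.num.natAbs.primeFactors.card ≤ 2) ∨
  b.den ^ 5 ≤ b.num.natAbs ∨ b.num.natAbs ^ 6 ≤ b.den ∨
  (∃ p, p.Prime ∧ p ∣ b.num.natAbs ∧ ∀ p', p'.Prime → p' ∣ b.num.natAbs →
    2 * b.den ^ 2 ≤ p ^ (padicValNat p b.num.natAbs) * p' ^ (padicValNat p' b.num.natAbs))

/-- the main statement on positive `b` -/
theorem main_pos {b : ℚ} {u s : ℕ → ℚ} {n : ℕ} (C : Cyc b u s n) (hb : 0 < b)
    (h : 0 < u 0 ∨ Good b) : ∀ i, s i * s (i + 1) * (s (i + 2) * s (i + 3)) = 1 := by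
  have hsq : (∀ i, (s i) ^ 2 = 1) → ∀ i, s i * s (i + 1) * (s (i + 2) * s (i + 3)) = 1 := by
    intro h1
    apply four_of_abs C
    intro i
    have a1 := h1 i
    have a2 := h1 (i + 1)
    have h3 : |s i * s (i + 1)| ^ 2 = 1 := by rw [sq_abs, mul_pow, a1, a2]; norm_num
    have h4 : (0:ℚ) ≤ |s i * s (i + 1)| := abs_nonneg _
    nlinarith
  rcases h with h | h
  · exact hsq (case_pos C hb h)
  by_cases hv2 : padicValRat 2 b = 0 ∨ padicValRat 2 b = -1
  · rcases hv2 with h1 | h1
    · exact hsq (case_two C h1)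
    · exact hsq (case_half C h1)
  by_cases hv3 : padicValRat 3 b = 0
  · exact hsq (case_three C hv3)
  by_cases hv5 : padicValRat 5 b = 0
  · exact case_five C hv5
  have hN0 : b.num.natAbs ≠ 0 := by simpa using C.hb
  by_cases hcard1 : b.num.natAbs.primeFactors.card ≤ 1
  · -- prime power
    have hpp : ∃ p k, p.Prime ∧ b.num.natAbs = p ^ k := by
      have hfac := prod_fac hN0
      rcases Nat.lt_or_ge 0 b.num.natAbs.primeFactors.card with h0 | h0
      · have h1 : b.num.natAbs.primeFactors.card = 1 := by omega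
        obtain ⟨p, hp⟩ := Finset.card_eq_one.mp h1
        rw [hp, Finset.prod_singleton] at hfac
        refine ⟨p, _, ?_, hfac.symm⟩
        apply Nat.prime_of_mem_primeFactors (n := b.num.natAbs)
        rw [hp]; exact Finset.mem_singleton_self p
      · have h1 : b.num.natAbs.primeFactors = ∅ := by
          apply Finset.card_eq_zero.mp; omega
        rw [h1, Finset.prod_empty] at hfac
        exact ⟨2, 0, Nat.prime_two, by rw [pow_zero]; exact hfac.symm⟩
    obtain ⟨p, k, hp, hk⟩ := hpp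
    rcases case_pp C hb hp hk with h1 | h1
    · exact hsq h1
    · apply four_of_abs C
      intro i
      rw [h1 i]; norm_num
  by_contra hfail
  have hnt : ¬ ∀ i, |s i * s (i + 1)| = 1 := fun h1 => hfail (four_of_abs C h1)
  obtain ⟨E, W, hd⟩ := exists_data C hnt
  have hbD := bD_eq hb
  have hD1 : (1:ℚ) ≤ b.den := by exact_mod_cast b.den_pos
  -- two distinct primes dividing the numerator
  set N := b.num.natAbs with hNdef
  have hcard2 : 2 ≤ N.primeFactors.card := by omega
  -- divisibility by 2 or 4 etc.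
  have hden2 : b.den ≠ 2 := by
    intro h2
    apply hv2
    right
    have h3 : ¬ 2 ∣ b.num.natAbs := by
      intro h4
      have h5 : 2 ∣ 1 := by
        rw [← b.reduced]; exact Nat.dvd_gcd h4 (by rw [h2])
      omega
    rw [padicValRat, padicValInt, padicValNat.eq_zero_of_not_dvd h3, h2]
    simp
  have hNge : ∀ p, p.Prime → p ∣ N → p ^ (padicValNat p N) * 2 ≤ N := by
    intro p hp hpd
    have hfac := prod_fac hN0
    have hmem : p ∈ N.primeFactors := Nat.mem_primeFactors.mpr ⟨hp, hpd, hN0⟩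
    obtain ⟨q, hq, hqp⟩ : ∃ q ∈ N.primeFactors, q ≠ p := by
      by_contra hc
      push Not at hc
      have : N.primeFactors ⊆ {p} := by
        intro x hx; rw [Finset.mem_singleton]; exact hc x hx
      have := Finset.card_le_card this
      rw [Finset.card_singleton] at this
      omega
    have hpair : ({p, q} : Finset ℕ) ⊆ N.primeFactors := by
      intro x hx
      simp only [Finset.mem_insert, Finset.mem_singleton] at hx
      rcases hx with rfl | rfl <;> assumption
    have h1 : ∏ x ∈ ({p, q} : Finset ℕ), x ^ (padicValNat x N) ≤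
        ∏ x ∈ N.primeFactors, x ^ (padicValNat x N) := by
      apply Finset.prod_le_prod_of_subset_of_one_le' hpair
      intro x hx _
      exact Nat.one_le_pow _ _ (Nat.prime_of_mem_primeFactors hx).pos
    rw [hfac, Finset.prod_pair (Ne.symm hqp)] at h1
    have hqpr := Nat.prime_of_mem_primeFactors hq
    have h2 : 2 ≤ q ^ (padicValNat q N) := by
      have h3 : 1 ≤ padicValNat q N := by
        have : Fact q.Prime := ⟨hqpr⟩
        exact one_le_padicValNat_of_dvd hN0 (Nat.dvd_of_mem_primeFactors hq)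
      exact le_trans hqpr.two_le (Nat.le_self_pow (by omega) q)
    calc p ^ (padicValNat p N) * 2 ≤ p ^ (padicValNat p N) * q ^ (padicValNat q N) :=
          Nat.mul_le_mul_left _ h2
      _ ≤ N := h1
  -- if den = 1 then 6 | N
  have hden1 : b.den = 1 → 6 ≤ N := by
    intro h1
    have h2 : 2 ∣ N := by
      by_contra hc
      apply hv2
      left
      rw [padicValRat, padicValInt, padicValNat.eq_zero_of_not_dvd hc, h1]
      simp
    have h3 : 3 ∣ N := by
      by_contra hc
      apply hv3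
      rw [padicValRat, padicValInt, padicValNat.eq_zero_of_not_dvd hc, h1]
      simp
    have h6 : 6 ∣ N := Nat.Coprime.mul_dvd_of_dvd_of_dvd (by norm_num) h2 h3
    exact Nat.le_of_dvd (Nat.pos_of_ne_zero hN0) h6
  -- the large prime power criterion
  have hlargeq : (∃ p, p.Prime ∧ p ∣ N ∧ ∀ p', p'.Prime → p' ∣ N →
      2 * b.den ^ 2 ≤ p ^ (padicValNat p N) * p' ^ (padicValNat p' N)) → False := by
    rintro ⟨p, hp, hpd, hall⟩
    -- minimal prime power
    obtain ⟨p0, hp0, hmin⟩ := Finset.exists_min_image N.primeFactors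
      (fun x => x ^ (padicValNat x N)) (Finset.card_pos.mp (by omega))
    have hp0' := Nat.prime_of_mem_primeFactors hp0
    have hp0d := Nat.dvd_of_mem_primeFactors hp0
    set m := p0 ^ (padicValNat p0 N) with hm
    set q := p ^ (padicValNat p N) with hqdef
    have hmq := hall p0 hp0' hp0d
    rw [← hm] at hmq
    have hqq := hall p hp hpd
    have hm2 : 2 ≤ m := by
      have : Fact p0.Prime := ⟨hp0'⟩
      have h3 : 1 ≤ padicValNat p0 N := one_le_padicValNat_of_dvd hN0 hp0d
      exact le_trans hp0'.two_le (Nat.le_self_pow (by omega) p0)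
    have hq2 : 2 ≤ q := by
      have : Fact p.Prime := ⟨hp⟩
      have h3 : 1 ≤ padicValNat p N := one_le_padicValNat_of_dvd hN0 hpd
      exact le_trans hp.two_le (Nat.le_self_pow (by omega) p)
    -- b ≥ 6
    have hNbig : b.den ≠ 1 → 2 * b.den ^ 2 ≤ N := by
      intro _
      -- use a prime different from p
      obtain ⟨r, hr, hrp⟩ : ∃ r ∈ N.primeFactors, r ≠ p := by
        by_contra hc
        push Not at hc
        have : N.primeFactors ⊆ {p} := by
          intro x hx; rw [Finset.mem_singleton]; exact hc x hx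
        have := Finset.card_le_card this
        rw [Finset.card_singleton] at this
        omega
      have hrpr := Nat.prime_of_mem_primeFactors hr
      have hpair : ({p, r} : Finset ℕ) ⊆ N.primeFactors := by
        intro x hx
        simp only [Finset.mem_insert, Finset.mem_singleton] at hx
        rcases hx with rfl | rfl
        · exact Nat.mem_primeFactors.mpr ⟨hp, hpd, hN0⟩
        · assumption
      have h1 : ∏ x ∈ ({p, r} : Finset ℕ), x ^ (padicValNat x N) ≤
          ∏ x ∈ N.primeFactors, x ^ (padicValNat x N) := by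
        apply Finset.prod_le_prod_of_subset_of_one_le' hpair
        intro x hx _
        exact Nat.one_le_pow _ _ (Nat.prime_of_mem_primeFactors hx).pos
      rw [prod_fac hN0, Finset.prod_pair (Ne.symm hrp)] at h1
      exact le_trans (hall r hrpr (Nat.dvd_of_mem_primeFactors hr)) h1
    -- the minimal W
    have hmW : ∀ i, 1 < b → m ≤ W i := by
      intro i hb1
      -- W i ≠ 1, so it is at least some prime power
      exact hd.minW i m (fun x hx hxd => by
        have hmem : x ∈ N.primeFactors := Nat.mem_primeFactors.mpr ⟨hx, hxd, hN0⟩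
        exact hmin x hmem) (W_ne_one hd hb1 i)
    have hbcase : (b.den = 1 ∧ 6 ≤ b) ∨ (19 / 3 ≤ b) := by
      by_cases h1 : b.den = 1
      · left
        refine ⟨h1, ?_⟩
        have h2 := hden1 h1
        have h3 : b = N := by rw [← hbD, h1]; simp
        rw [h3]; exact_mod_cast h2
      · right
        have h2 := hNbig h1
        have h3 : 3 ≤ b.den := by
          have := b.den_pos
          omega
        have h4 : b = N / b.den := by rw [← hbD]; field_simp
        rw [h4, div_le_div_iff₀ (by norm_num) (by linarith)]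
        rcases Nat.eq_or_lt_of_le h3 with h5 | h5
        · -- den = 3
          have h6 : ¬ 3 ∣ N := by
            intro h7
            have h8 : 3 ∣ 1 := by
              rw [← b.reduced]; exact Nat.dvd_gcd h7 (by rw [← h5])
            omega
          have h9 : 19 ≤ N := by
            rw [← h5] at h2
            by_contra hc
            have : N = 18 := by omega
            apply h6
            rw [this]; norm_num
          rw [← h5]
          have : (19:ℚ) ≤ N := by exact_mod_cast h9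
          push_cast
          linarith
        · have h6 : 19 * b.den ≤ N * 3 := by nlinarith
          exact_mod_cast h6
    have hb6 : 6 ≤ b := by rcases hbcase with h1 | h1 <;> linarith [h1]
    apply crit_large hd hb6 (m := m) (q := q) (fun i => hmW i (by linarith)) (by omega)
      (hd.hit p hp hpd)
    have hmqr : 2 * (b.den : ℚ) ^ 2 ≤ (m : ℚ) * q := by
      have : 2 * b.den ^ 2 ≤ m * q := by rw [mul_comm m q]; exact hmq
      exact_mod_cast this
    rcases hbcase with ⟨h1, h2⟩ | h1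
    · have h3 : (4:ℚ) ≤ (m : ℚ) * q := by
        have : 4 ≤ m * q := by nlinarith
        exact_mod_cast this
      rw [h1]
      have h4 : b ^ 4 ≤ 4 * (b - 1) ^ 4 := by
        have h5 : b ≤ 6 / 5 * (b - 1) := by linarith
        have h6 : b ^ 4 ≤ (6 / 5 * (b - 1)) ^ 4 := pow_le_pow_left₀ (by linarith) h5 4
        have h7 : 0 ≤ (b - 1) ^ 4 := by positivity
        nlinarith
      have h7 : 0 ≤ (b - 1) ^ 4 := by positivity
      push_cast
      nlinarith
    · have h4 : b ^ 4 ≤ 2 * (b - 1) ^ 4 := by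
        have h5 : b ≤ 19 / 16 * (b - 1) := by linarith
        have h6 : b ^ 4 ≤ (19 / 16 * (b - 1)) ^ 4 := pow_le_pow_left₀ (by linarith) h5 4
        have h7 : 0 ≤ (b - 1) ^ 4 := by positivity
        nlinarith
      have h7 : 0 ≤ (b - 1) ^ 4 := by positivity
      have h8 : (b.den : ℚ) ^ 2 * b ^ 4 ≤ (b.den : ℚ) ^ 2 * (2 * (b - 1) ^ 4) :=
        mul_le_mul_of_nonneg_left h4 (by positivity)
      nlinarith
  rcases h with h1 | h1 | h1 | h1 | h1 | h1 | h1 | h1
  · exact hv2 h1
  · exact hv3 h1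
  · exact hv5 h1
  · exact hcard1 h1
  · rw [abs_of_pos hb] at h1
    exact hnt (case_two_primes C h1.1 h1.2)
  · -- num ≥ den^5
    by_cases hone : b.den = 1
    · apply hlargeq
      obtain ⟨p, hp⟩ := Finset.card_pos.mp (show 0 < N.primeFactors.card by omega)
      have hpp := Nat.prime_of_mem_primeFactors hp
      have hge : ∀ x, x.Prime → x ∣ N → 2 ≤ x ^ (padicValNat x N) := by
        intro x hx hxd
        have : Fact x.Prime := ⟨hx⟩
        have h3 : 1 ≤ padicValNat x N := one_le_padicValNat_of_dvd hN0 hxd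
        exact le_trans hx.two_le (Nat.le_self_pow (by omega) x)
      refine ⟨p, hpp, Nat.dvd_of_mem_primeFactors hp, ?_⟩
      intro p' hp' hpd'
      rw [hone]
      have a := hge p hpp (Nat.dvd_of_mem_primeFactors hp)
      have c := hge p' hp' hpd'
      nlinarith
    · have h3 : 3 ≤ b.den := by
        have := b.den_pos
        omega
      apply crit_num hd _ h1
      have h4 : b = N / b.den := by rw [← hbD]; field_simp
      rw [h4, le_div_iff₀ (by linarith)]
      have h5 : 81 * b.den ≤ N := by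
        calc 81 * b.den = 3 ^ 4 * b.den := by norm_num
          _ ≤ b.den ^ 4 * b.den := Nat.mul_le_mul_right _ (Nat.pow_le_pow_left h3 4)
          _ = b.den ^ 5 := by ring
          _ ≤ N := h1
      exact_mod_cast h5
  · exact crit_den hd h1
  · exact hlargeq h1

end

section

/-- Rankin's bound for integers composed of given primes -/
theorem rankin {ε : ℝ} (hε : 0 < ε) (S : Finset ℕ) (hS : ∀ p ∈ S, p.Prime) {X : ℝ} (hX : 0 < X)
    (T : Finset ℕ) (hT : ∀ m ∈ T, m ≠ 0 ∧ (m : ℝ) ≤ X ∧ ∀ p, p.Prime → p ∣ m → p ∈ S) :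
    (T.card : ℝ) ≤ X ^ ε * ∏ p ∈ S, (1 - (p : ℝ) ^ (-ε))⁻¹ := by
  let g : ℕ →* ℝ :=
    { toFun := fun m => (m : ℝ) ^ (-ε)
      map_one' := by simp
      map_mul' := fun a c => by
        push_cast
        exact Real.mul_rpow (by positivity) (by positivity) }
  have hg : ∀ m : ℕ, g m = (m : ℝ) ^ (-ε) := fun m => rfl
  have hg0 : ∀ m : ℕ, 0 ≤ g m := fun m => by rw [hg]; positivity
  have hlt : ∀ {p : ℕ}, p.Prime → ‖g p‖ < 1 := by
    intro p hp
    rw [Real.norm_of_nonneg (hg0 p), hg]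
    exact Real.rpow_lt_one_of_one_lt_of_neg (by exact_mod_cast hp.one_lt) (by linarith)
  obtain ⟨h1, h2⟩ :=
    EulerProduct.summable_and_hasSum_factoredNumbers_prod_filter_prime_geometric (f := g) hlt S
  have hfil : S.filter Nat.Prime = S := Finset.filter_true_of_mem hS
  rw [hfil] at h2
  have hmem : ∀ m ∈ T, m ∈ Nat.factoredNumbers S := by
    intro m hm
    obtain ⟨a1, _, a3⟩ := hT m hm
    exact Nat.mem_factoredNumbers'.mpr a3
  have hsum : ∑ m ∈ T, g m ≤ ∏ p ∈ S, (1 - g p)⁻¹ := by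
    let T' : Finset (Nat.factoredNumbers S) := T.attach.map
      ⟨fun x => ⟨x.1, hmem x.1 x.2⟩, fun x y hxy => by
        apply Subtype.ext
        exact congrArg (fun z : Nat.factoredNumbers S => (z : ℕ)) hxy⟩
    have h3 : ∑ m ∈ T, g m = ∑ m ∈ T', g m := by
      simp only [T', Finset.sum_map, Function.Embedding.coeFn_mk]
      rw [← Finset.sum_attach]
    rw [h3]
    exact sum_le_hasSum T' (fun m _ => hg0 m) h2
  have hcard : (T.card : ℝ) ≤ ∑ m ∈ T, X ^ ε * g m := by
    have h4 : (T.card : ℝ) = ∑ m ∈ T, (1 : ℝ) := by simp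
    rw [h4]
    apply Finset.sum_le_sum
    intro m hm
    obtain ⟨a1, a2, _⟩ := hT m hm
    have hmpos : (0:ℝ) < m := by positivity
    rw [hg, Real.rpow_neg hmpos.le, ← div_eq_mul_inv, le_div_iff₀ (by positivity), one_mul]
    exact Real.rpow_le_rpow hmpos.le a2 hε.le
  calc (T.card : ℝ) ≤ ∑ m ∈ T, X ^ ε * g m := hcard
    _ = X ^ ε * ∑ m ∈ T, g m := by rw [Finset.mul_sum]
    _ ≤ X ^ ε * ∏ p ∈ S, (1 - g p)⁻¹ := mul_le_mul_of_nonneg_left hsum (by positivity)
    _ = _ := by simp only [hg]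

/-- the Euler factors are small -/
theorem euler_le {ε : ℝ} (hε : 0 < ε) : ∃ C : ℝ, 1 ≤ C ∧ ∀ S : Finset ℕ, (∀ p ∈ S, p.Prime) →
    ∏ p ∈ S, (1 - (p : ℝ) ^ (-ε))⁻¹ ≤ C * ∏ p ∈ S, (p : ℝ) ^ ε := by
  set K : ℝ := (1 - (2 : ℝ) ^ (-ε))⁻¹ with hK
  set P : ℕ := ⌈(2 : ℝ) ^ (1 / ε)⌉₊ with hP
  have h2 : (0:ℝ) < (2 : ℝ) ^ (-ε) := by positivity
  have h2' : (2 : ℝ) ^ (-ε) < 1 := Real.rpow_lt_one_of_one_lt_of_neg (by norm_num) (by linarith)
  have hK1 : 1 ≤ K := by
    rw [hK]
    exact (one_le_inv₀ (by linarith)).mpr (by linarith)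
  refine ⟨K ^ P, one_le_pow₀ hK1, ?_⟩
  intro S hS
  have hpt : ∀ p ∈ S, (1 - (p : ℝ) ^ (-ε))⁻¹ ≤ (if p < P then K else 1) * (p : ℝ) ^ ε := by
    intro p hp
    have hp2 : (2:ℝ) ≤ p := by exact_mod_cast (hS p hp).two_le
    have hppos : (0:ℝ) < p := by linarith
    have hpe : 1 ≤ (p : ℝ) ^ ε := Real.one_le_rpow (by linarith) hε.le
    split_ifs with h
    · have h3 : (p : ℝ) ^ (-ε) ≤ (2 : ℝ) ^ (-ε) :=
        Real.rpow_le_rpow_of_nonpos (by norm_num) hp2 (by linarith)
      calc (1 - (p : ℝ) ^ (-ε))⁻¹ ≤ K := by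
            rw [hK]
            exact inv_anti₀ (by linarith) (by linarith)
        _ = K * 1 := (mul_one K).symm
        _ ≤ K * (p : ℝ) ^ ε := mul_le_mul_of_nonneg_left hpe (by linarith)
    · rw [one_mul]
      have h3 : (2 : ℝ) ^ (1 / ε) ≤ p := by
        push Not at h
        exact le_trans (Nat.le_ceil _) (by exact_mod_cast h)
      have h4 : (2 : ℝ) ≤ (p : ℝ) ^ ε := by
        have := Real.rpow_le_rpow (by positivity) h3 hε.le
        rw [← Real.rpow_mul (by norm_num), one_div, inv_mul_cancel₀ hε.ne', Real.rpow_one] at this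
        exact this
      rw [Real.rpow_neg hppos.le]
      have h5 : ((p : ℝ) ^ ε)⁻¹ ≤ 2⁻¹ := inv_anti₀ (by norm_num) h4
      calc (1 - ((p : ℝ) ^ ε)⁻¹)⁻¹ ≤ (2⁻¹ : ℝ)⁻¹ := inv_anti₀ (by norm_num) (by
            have : (2⁻¹ : ℝ) = 1 - 2⁻¹ := by norm_num
            linarith)
        _ = 2 := by norm_num
        _ ≤ _ := h4
  have hnn : ∀ p ∈ S, 0 ≤ (1 - (p : ℝ) ^ (-ε))⁻¹ := by
    intro p hp
    apply inv_nonneg.mpr
    have : (p : ℝ) ^ (-ε) < 1 :=
      Real.rpow_lt_one_of_one_lt_of_neg (by exact_mod_cast (hS p hp).one_lt) (by linarith)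
    linarith
  calc ∏ p ∈ S, (1 - (p : ℝ) ^ (-ε))⁻¹
      ≤ ∏ p ∈ S, ((if p < P then K else 1) * (p : ℝ) ^ ε) := Finset.prod_le_prod hnn hpt
    _ = (∏ p ∈ S, (if p < P then K else 1)) * ∏ p ∈ S, (p : ℝ) ^ ε := Finset.prod_mul_distrib
    _ ≤ K ^ P * ∏ p ∈ S, (p : ℝ) ^ ε := by
        apply mul_le_mul_of_nonneg_right _ (Finset.prod_nonneg (fun p _ => by positivity))
        rw [Finset.prod_ite, Finset.prod_const, Finset.prod_const_one, mul_one]
        apply pow_le_pow_right₀ hK1
        calc (S.filter (fun p => p < P)).card ≤ (Finset.range P).card := by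
              apply Finset.card_le_card
              intro p hp
              exact Finset.mem_range.mpr (Finset.mem_filter.mp hp).2
          _ = P := Finset.card_range P

/-- the integers up to `N ^ 3` all of whose primes divide `N` -/
def sup3 (N : ℕ) : Finset ℕ :=
  (Finset.Icc 1 (N ^ 3)).filter (fun m => ∀ p ∈ m.primeFactors, p ∣ N)

theorem sup3_card {ε : ℝ} (hε : 0 < ε) : ∃ C : ℝ, 1 ≤ C ∧ ∀ N : ℕ, 1 ≤ N →
    ((sup3 N).card : ℝ) ≤ C * (N : ℝ) ^ ε := by
  obtain ⟨C, hC, h⟩ := euler_le (ε := ε / 4) (by linarith)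
  refine ⟨C, hC, ?_⟩
  intro N hN
  have hNpos : (0:ℝ) < N := by exact_mod_cast hN
  have hN0 : N ≠ 0 := by omega
  have hpr : ∀ p ∈ N.primeFactors, p.Prime := fun p hp => Nat.prime_of_mem_primeFactors hp
  have h1 := rankin (ε := ε / 4) (by linarith) N.primeFactors hpr
    (X := (N : ℝ) ^ 3) (by positivity) (sup3 N) (by
      intro m hm
      rw [sup3, Finset.mem_filter, Finset.mem_Icc] at hm
      refine ⟨by omega, by exact_mod_cast hm.1.2, fun p hp hpm => ?_⟩
      exact Nat.mem_primeFactors.mpr ⟨hp, hm.2 p (Nat.mem_primeFactors.mpr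
        ⟨hp, hpm, by omega⟩), hN0⟩)
  have h2 : ∏ p ∈ N.primeFactors, (p : ℝ) ^ (ε / 4) ≤ (N : ℝ) ^ (ε / 4) := by
    rw [Real.finsetProd_rpow _ _ (fun p _ => by positivity)]
    apply Real.rpow_le_rpow (Finset.prod_nonneg (fun p _ => by positivity)) _ (by linarith)
    have h5 : ((∏ p ∈ N.primeFactors, p : ℕ) : ℝ) ≤ (N : ℝ) := by
      exact_mod_cast Nat.le_of_dvd (by omega) (Nat.prod_primeFactors_dvd N)
    rw [Nat.cast_prod] at h5
    exact h5
  have h3 : ((N : ℝ) ^ 3) ^ (ε / 4) = (N : ℝ) ^ (3 * (ε / 4)) := by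
    rw [← Real.rpow_natCast, ← Real.rpow_mul hNpos.le]
    norm_num
  calc ((sup3 N).card : ℝ) ≤ ((N : ℝ) ^ 3) ^ (ε / 4) *
        ∏ p ∈ N.primeFactors, (1 - (p : ℝ) ^ (-(ε / 4)))⁻¹ := h1
    _ ≤ ((N : ℝ) ^ 3) ^ (ε / 4) * (C * ∏ p ∈ N.primeFactors, (p : ℝ) ^ (ε / 4)) :=
        mul_le_mul_of_nonneg_left (h _ hpr) (by positivity)
    _ ≤ ((N : ℝ) ^ 3) ^ (ε / 4) * (C * (N : ℝ) ^ (ε / 4)) := by
        apply mul_le_mul_of_nonneg_left _ (by positivity)
        exact mul_le_mul_of_nonneg_left h2 (by linarith)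
    _ = C * (N : ℝ) ^ ε := by
        rw [h3]
        have : (N : ℝ) ^ (3 * (ε / 4)) * (C * (N : ℝ) ^ (ε / 4)) =
          C * ((N : ℝ) ^ (3 * (ε / 4)) * (N : ℝ) ^ (ε / 4)) := by ring
        rw [this, ← Real.rpow_add hNpos]
        congr 2
        ring

end

section

/-- an index with small data -/
theorem small_index {n : ℕ} (hn : 0 < n) (N : ℕ) (E W : ℕ → ℕ) (hE1 : ∀ i, 1 ≤ E i)
    (hW1 : ∀ i, 1 ≤ W i) (hE : ∀ i, E (i + n) = E i) (hW : ∀ i, W (i + n) = W i)
    (hprod : (∏ i ∈ Finset.range n, E i) * (∏ i ∈ Finset.range n, W i) ^ 2 ≤ N ^ n) :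
    ∃ i, E i * W i * (E (i + 1) * W (i + 1)) * E (i + 2) ≤ N ^ 3 := by
  by_contra hcon
  push Not at hcon
  let a : ℕ → ℕ := fun i => E i * W i ^ 2
  have ha : ∏ i ∈ Finset.range n, a i ≤ N ^ n := by
    simp only [a]
    rw [Finset.prod_mul_distrib, Finset.prod_pow]
    exact hprod
  have hshift : ∀ g : ℕ → ℕ, (∀ i, g (i + n) = g i) → (∀ i, 1 ≤ g i) →
      ∏ i ∈ Finset.range n, g (i + 1) = ∏ i ∈ Finset.range n, g i := by
    intro g hg hg1
    have h1 := Finset.prod_range_succ g n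
    have h2 := Finset.prod_range_succ' g n
    have h3 : g n = g 0 := by
      have := hg 0
      rw [Nat.zero_add] at this
      exact this
    rw [h3] at h1
    rw [h1] at h2
    exact (Nat.eq_of_mul_eq_mul_right (hg1 0) h2).symm
  have ha1 : ∀ i, 1 ≤ a i := fun i => Nat.mul_pos (hE1 i) (Nat.pow_pos (hW1 i))
  have haper : ∀ i, a (i + n) = a i := fun i => by simp only [a, hE, hW]
  have s1 := hshift a haper ha1
  have s2 : ∏ i ∈ Finset.range n, a (i + 1 + 1) = ∏ i ∈ Finset.range n, a (i + 1) :=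
    hshift (fun i => a (i + 1))
    (fun i => by
      show a (i + n + 1) = a (i + 1)
      rw [Nat.add_right_comm, haper]) (fun i => ha1 _)
  have hlt : ∀ i, N ^ 3 < a i * a (i + 1) * a (i + 2) := by
    intro i
    refine lt_of_lt_of_le (hcon i) ?_
    simp only [a]
    have w0 := hW1 i
    have w1 := hW1 (i + 1)
    have w2 := hW1 (i + 2)
    have x0 : E i * W i ≤ E i * W i ^ 2 := Nat.mul_le_mul_left _ (Nat.le_self_pow (by norm_num) _)
    have x1 : E (i + 1) * W (i + 1) ≤ E (i + 1) * W (i + 1) ^ 2 :=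
      Nat.mul_le_mul_left _ (Nat.le_self_pow (by norm_num) _)
    have x2 : E (i + 2) ≤ E (i + 2) * W (i + 2) ^ 2 := Nat.le_mul_of_pos_right _ (Nat.pow_pos w2)
    exact Nat.mul_le_mul (Nat.mul_le_mul x0 x1) x2
  have h4 : ∏ i ∈ Finset.range n, N ^ 3 < ∏ i ∈ Finset.range n, (a i * a (i + 1) * a (i + 2)) := by
    by_cases hN : N = 0
    · subst hN
      rw [Finset.prod_const, Finset.card_range]
      simp only [ne_eq, OfNat.ofNat_ne_zero, not_false_eq_true, zero_pow]
      rw [zero_pow hn.ne']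
      exact Finset.prod_pos (fun i _ => lt_of_le_of_lt (Nat.zero_le _) (hlt i))
    · apply Finset.prod_lt_prod_of_nonempty
      · intro i _
        exact Nat.pow_pos (Nat.pos_of_ne_zero hN)
      · intro i _
        exact hlt i
      · exact ⟨0, Finset.mem_range.mpr hn⟩
  rw [Finset.prod_mul_distrib, Finset.prod_mul_distrib, Finset.prod_const, Finset.card_range] at h4
  have s3 : ∏ i ∈ Finset.range n, a (i + 2) = ∏ i ∈ Finset.range n, a i := by
    rw [← s1]
    exact s2
  rw [s1, s3] at h4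
  have h5 : (∏ i ∈ Finset.range n, a i) * (∏ i ∈ Finset.range n, a i) *
      (∏ i ∈ Finset.range n, a i) ≤ N ^ n * N ^ n * N ^ n :=
    Nat.mul_le_mul (Nat.mul_le_mul ha ha) ha
  have h6 : N ^ n * N ^ n * N ^ n = (N ^ 3) ^ n := by ring
  omega

/-- recovering `b` from two consecutive multipliers -/
theorem b_eq {b : ℚ} {u s : ℕ → ℚ} {n : ℕ} (C : Cyc b u s n) (i : ℕ) (h : (s i) ^ 2 ≠ 1) :
    b = s i * (s i * s (i + 1) - 1) / ((s i) ^ 2 - 1) := by
  have ht := C.t_eq i
  have : (s i) ^ 2 - 1 ≠ 0 := sub_ne_zero.mpr h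
  rw [eq_div_iff this]
  exact ht

/-- the candidates for `b` -/
def cand (N : ℕ) (t : ((ℕ × ℕ) × (ℕ × ℕ) × ℕ) × (Bool × Bool)) : ℚ :=
  let x : ℚ := (if t.2.1 then 1 else -1) *
    ((N : ℚ) * (t.1.2.1.1 : ℚ) / ((t.1.1.1 : ℚ) * (t.1.1.2 : ℚ)) ^ 2)
  let y : ℚ := (if t.2.2 then 1 else -1) *
    ((N : ℚ) * (t.1.2.2 : ℚ) / ((t.1.2.1.1 : ℚ) * (t.1.2.1.2 : ℚ)) ^ 2)
  x * (x * y - 1) / (x ^ 2 - 1)

/-- the index set -/
def index (N : ℕ) : Finset (((ℕ × ℕ) × (ℕ × ℕ) × ℕ) × (Bool × Bool)) :=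
  ((sup3 N ×ˢ sup3 N) ×ˢ (sup3 N ×ˢ sup3 N) ×ˢ sup3 N) ×ˢ (Finset.univ ×ˢ Finset.univ)

theorem index_card (N : ℕ) : (index N).card = 4 * (sup3 N).card ^ 5 := by
  simp only [index, Finset.card_product, Finset.card_univ, Fintype.card_bool]
  ring

theorem mem_cand {b : ℚ} {u s : ℕ → ℚ} {n : ℕ} (C : Cyc b u s n)
    (hnt : ¬ ∀ i, |s i * s (i + 1)| = 1) : b ∈ (index b.num.natAbs).image (cand b.num.natAbs) := by
  obtain ⟨E, W, h⟩ := exists_data C hnt
  set N := b.num.natAbs with hN
  obtain ⟨i, hi⟩ := small_index C.hn N E W h.E1 h.W1 h.perE h.perW h.prod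
  have e0 := h.E1 i
  have e1 := h.E1 (i + 1)
  have e2 := h.E1 (i + 2)
  have w0 := h.W1 i
  have w1 := h.W1 (i + 1)
  have hd : ∀ x, x ∣ E i * W i * (E (i + 1) * W (i + 1)) * E (i + 2) → x ≤ N ^ 3 := by
    intro x hx
    refine le_trans (Nat.le_of_dvd ?_ hx) hi
    have a0 := Nat.mul_pos e0 w0
    have a1 := Nat.mul_pos e1 w1
    exact Nat.mul_pos (Nat.mul_pos a0 a1) e2
  have memE : ∀ j, E j ≤ N ^ 3 → E j ∈ sup3 N := by
    intro j hj
    rw [sup3, Finset.mem_filter, Finset.mem_Icc]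
    refine ⟨⟨h.E1 j, hj⟩, fun p hp => ?_⟩
    exact h.supp j p (Nat.prime_of_mem_primeFactors hp)
      (dvd_mul_of_dvd_left (Nat.dvd_of_mem_primeFactors hp) _)
  have memW : ∀ j, W j ≤ N ^ 3 → W j ∈ sup3 N := by
    intro j hj
    rw [sup3, Finset.mem_filter, Finset.mem_Icc]
    refine ⟨⟨h.W1 j, hj⟩, fun p hp => ?_⟩
    exact h.supp j p (Nat.prime_of_mem_primeFactors hp)
      (dvd_mul_of_dvd_right (Nat.dvd_of_mem_primeFactors hp) _)
  have m0 := memE i (hd _ ⟨W i * (E (i + 1) * W (i + 1)) * E (i + 2), by ring⟩)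
  have m1 := memE (i + 1) (hd _ ⟨E i * W i * W (i + 1) * E (i + 2), by ring⟩)
  have m2 := memE (i + 2) (hd _ ⟨E i * W i * (E (i + 1) * W (i + 1)), by ring⟩)
  have k0 := memW i (hd _ ⟨E i * (E (i + 1) * W (i + 1)) * E (i + 2), by ring⟩)
  have k1 := memW (i + 1) (hd _ ⟨E i * W i * E (i + 1) * E (i + 2), by ring⟩)
  have habs : ∀ j, s (j + 1) = (if (0 ≤ s (j + 1) : Bool) then 1 else -1) *
      ((N : ℚ) * (E (j + 1) : ℚ) / ((E j : ℚ) * (W j : ℚ)) ^ 2) := by
    intro j
    have hr := h.rel j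
    have hEq : (E j : ℚ) ≠ 0 := by have := h.E1 j; positivity
    have hWq : (W j : ℚ) ≠ 0 := by have := h.W1 j; positivity
    have h1 : |s (j + 1)| = (N : ℚ) * (E (j + 1) : ℚ) / ((E j : ℚ) * (W j : ℚ)) ^ 2 := by
      rw [eq_div_iff (pow_ne_zero _ (mul_ne_zero hEq hWq))]
      exact hr
    rw [← h1]
    by_cases h0 : 0 ≤ s (j + 1)
    · simp [h0, abs_of_nonneg h0]
    · push Not at h0
      simp [not_le.mpr h0, abs_of_neg h0]
  rw [Finset.mem_image]
  refine ⟨(((E i, W i), (E (i + 1), W (i + 1)), E (i + 2)),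
    ((0 ≤ s (i + 1) : Bool), (0 ≤ s (i + 2) : Bool))), ?_, ?_⟩
  · simp only [index, Finset.mem_product, Finset.mem_univ, and_true]
    exact ⟨⟨m0, k0⟩, ⟨m1, k1⟩, m2⟩
  · have hb := b_eq C (i + 1) (h.hnt (i + 1))
    have a1 := habs i
    have a2 := habs (i + 1)
    rw [show i + 1 + 1 = i + 2 by ring] at hb a2
    simp only [cand]
    rw [← a1, ← a2]
    exact hb.symm

end

section

theorem Good.neg {b : ℚ} (h : Good b) : Good (-b) := by
  unfold Good at *
  simp only [padicValRat.neg, Rat.neg_num, Int.natAbs_neg, Rat.neg_den, abs_neg]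
  exact h

/-- the map `x ↦ b x + c / x` on the projective line `ℚ ∪ {∞}` -/
def f (b c : ℚ) : Option ℚ → Option ℚ
  | none => none
  | some x => if x = 0 then none else some (b * x + c / x)

theorem f_none (b c : ℚ) : f b c none = none := rfl

theorem f_zero (b c : ℚ) : f b c (some 0) = none := by simp [f]

theorem f_some (b c : ℚ) {x : ℚ} (hx : x ≠ 0) : f b c (some x) = some (b * x + c / x) := by
  simp [f, hx]

theorem iter_none (b c : ℚ) (k : ℕ) : (f b c)^[k] none = none := by
  induction k with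
  | zero => rfl
  | succ k ih => rw [Function.iterate_succ_apply, f_none, ih]

theorem main_any {b : ℚ} {u s : ℕ → ℚ} {n : ℕ} (C : Cyc b u s n)
    (h : 0 < b * u 0 ∨ Good b) : ∀ i, s i * s (i + 1) * (s (i + 2) * s (i + 3)) = 1 := by
  rcases lt_or_gt_of_ne C.hb with hb | hb
  · have C' := C.neg
    have h' : 0 < (fun i => - u i) 0 ∨ Good (-b) := by
      rcases h with h | h
      · left
        show 0 < - u 0
        have : u 0 < 0 := by
          by_contra hc
          push Not at hc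
          nlinarith
        linarith
      · right; exact h.neg
    have hm := main_pos C' (by linarith) h'
    intro i
    have := hm i
    linarith
  · apply main_pos C hb
    rcases h with h | h
    · left
      by_contra hc
      push Not at hc
      nlinarith
    · right; exact h

theorem period_of_four {b c : ℚ} {P : Option ℚ} (h4 : (f b c)^[4] P = P) :
    Function.minimalPeriod (f b c) P = 1 ∨ Function.minimalPeriod (f b c) P = 2 ∨
      Function.minimalPeriod (f b c) P = 4 := by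
  have hd : Function.minimalPeriod (f b c) P ∣ 4 :=
    Function.IsPeriodicPt.minimalPeriod_dvd h4
  have h5 : Function.minimalPeriod (f b c) P ≤ 4 := Nat.le_of_dvd (by norm_num) hd
  interval_cases hm : Function.minimalPeriod (f b c) P
  · omega
  · left; rfl
  · right; left; rfl
  · omega
  · right; right; rfl

/-- the cycle attached to a periodic point -/
theorem cyc_of_periodic {b c : ℚ} (hb : b ≠ 0) (hc : c ≠ 0) {P : Option ℚ}
    (hP : P ∈ Function.periodicPts (f b c)) : (f b c)^[4] P = P ∨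
    ∃ (u s : ℕ → ℚ) (n : ℕ), Cyc b u s n ∧ (0 < b * c → 0 < b * u 0) ∧
      ((∀ i, s i * s (i + 1) * (s (i + 2) * s (i + 3)) = 1) → (f b c)^[4] P = P) := by
  obtain ⟨n, hn, hPn⟩ := hP
  have hPn' : (f b c)^[n] P = P := hPn
  rcases P with _ | x0
  · left
    exact iter_none b c 4
  right
  -- every point of the orbit is a non-zero rational
  have hne : ∀ i, ∃ y : ℚ, y ≠ 0 ∧ (f b c)^[i] (some x0) = some y := by
    intro i
    -- otherwise the orbit would end in infinity
    have hnn : ∀ j, (f b c)^[j] (some x0) ≠ none := by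
      intro j hj
      have h1 : (f b c)^[n * j] (some x0) = some x0 := by
        have : Function.IsPeriodicPt (f b c) (n * j) (some x0) := by
          exact Function.IsPeriodicPt.mul_const hPn j
        exact this
      have h2 : j ≤ n * j := by nlinarith [Nat.mul_le_mul_right j hn]
      obtain ⟨k, hk⟩ := Nat.exists_eq_add_of_le h2
      rw [hk, Nat.add_comm, Function.iterate_add_apply, hj, iter_none] at h1
      exact absurd h1 (by simp)
    cases hy : (f b c)^[i] (some x0) with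
    | none => exact absurd hy (hnn i)
    | some y =>
      refine ⟨y, ?_, rfl⟩
      intro hy0
      apply hnn (i + 1)
      rw [Function.iterate_succ_apply', hy, hy0, f_zero]
  choose x hx0 hx using hne
  have hstep : ∀ i, x (i + 1) = b * x i + c / x i := by
    intro i
    have h1 := hx (i + 1)
    rw [Function.iterate_succ_apply', hx i, f_some b c (hx0 i)] at h1
    exact (Option.some.inj h1).symm
  have hxper : ∀ i, x (i + n) = x i := by
    intro i
    have h1 := hx (i + n)
    rw [Function.iterate_add_apply, hPn', hx i] at h1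
    exact (Option.some.inj h1).symm
  have hsx : ∀ i, x (i + 1) = (b + c / x i ^ 2) * x i := by
    intro i
    rw [hstep]
    have := hx0 i
    field_simp
  refine ⟨fun i => c / x i ^ 2, fun i => b + c / x i ^ 2, n, ?_, ?_, ?_⟩
  · refine ⟨hn, hb, fun i => rfl, ?_, ?_, ?_, ?_⟩
    · intro i
      show c / x (i + 1) ^ 2 = c / x i ^ 2 / (b + c / x i ^ 2) ^ 2
      rw [hsx i, mul_pow, div_div, mul_comm]
    · intro i
      show c / x (i + n) ^ 2 = c / x i ^ 2
      rw [hxper]
    · intro i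
      exact div_ne_zero hc (pow_ne_zero 2 (hx0 i))
    · intro i h1
      apply hx0 (i + 1)
      rw [hsx i]
      show (b + c / x i ^ 2) * x i = 0
      have h2 : b + c / x i ^ 2 = 0 := h1
      rw [h2, zero_mul]
  · intro h
    show 0 < b * (c / x 0 ^ 2)
    have : b * (c / x 0 ^ 2) = b * c / x 0 ^ 2 := by ring
    rw [this]
    have := hx0 0
    positivity
  · intro hm
    have hm0 := hm 0
    have h4 : x 4 = x 0 := by
      have a0 := hsx 0
      have a1 := hsx 1
      have a2 := hsx 2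
      have a3 := hsx 3
      simp only [Nat.zero_add, Nat.reduceAdd] at a0 a1 a2 a3 hm0
      rw [a3, a2, a1, a0]
      rw [a2, a1, a0] at hm0
      linear_combination (x 0) * hm0
    rw [hx 4, h4]
    have h0 := hx 0
    rw [Function.iterate_zero, id] at h0
    exact h0.symm

/-- `b` is exceptional if for some `c` there is a rational periodic point of `b x + c / x`
whose period is not `1`, `2` or `4` -/
def Exceptional (b : ℚ) : Prop :=
  b ≠ 0 ∧ ∃ c : ℚ, c ≠ 0 ∧ ∃ P ∈ Function.periodicPts (f b c),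
    ¬ (Function.minimalPeriod (f b c) P = 1 ∨ Function.minimalPeriod (f b c) P = 2 ∨
      Function.minimalPeriod (f b c) P = 4)

theorem part_one (b c : ℚ) (hb : b ≠ 0) (hc : c ≠ 0) (h : 0 < b * c ∨ Good b)
    (P : Option ℚ) (hP : P ∈ Function.periodicPts (f b c)) :
    Function.minimalPeriod (f b c) P = 1 ∨ Function.minimalPeriod (f b c) P = 2 ∨
      Function.minimalPeriod (f b c) P = 4 := by
  apply period_of_four
  rcases cyc_of_periodic hb hc hP with h4 | ⟨u, s, n, C, hpos, himp⟩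
  · exact h4
  · apply himp
    apply main_any C
    rcases h with h | h
    · left; exact hpos h
    · right; exact h

theorem exceptional_mem {b : ℚ} (h : Exceptional b) :
    b ∈ (index b.num.natAbs).image (cand b.num.natAbs) := by
  obtain ⟨hb, c, hc, P, hP, hnot⟩ := h
  rcases cyc_of_periodic hb hc hP with h4 | ⟨u, s, n, C, hpos, himp⟩
  · exact absurd (period_of_four h4) hnot
  · apply mem_cand C
    intro hall
    exact hnot (period_of_four (himp (four_of_abs C hall)))

/-- few exceptional `b` with a given numerator -/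
theorem part_two {ε : ℝ} (hε : 0 < ε) : ∃ C : ℝ, 1 ≤ C ∧ ∀ N : ℕ, 1 ≤ N →
    {b : ℚ | Exceptional b ∧ b.num.natAbs = N}.Finite ∧
    ({b : ℚ | Exceptional b ∧ b.num.natAbs = N}.ncard : ℝ) ≤ C * (N : ℝ) ^ ε := by
  obtain ⟨C, hC, h⟩ := sup3_card (ε := ε / 5) (by linarith)
  refine ⟨4 * C ^ 5, by nlinarith [one_le_pow₀ (n := 5) hC], ?_⟩
  intro N hN
  have hNpos : (0:ℝ) < N := by exact_mod_cast hN
  have hsub : {b : ℚ | Exceptional b ∧ b.num.natAbs = N} ⊆
      (((index N).image (cand N) : Finset ℚ) : Set ℚ) := by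
    intro b hb
    have := exceptional_mem hb.1
    rw [hb.2] at this
    exact this
  refine ⟨(Finset.finite_toSet _).subset hsub, ?_⟩
  have h1 : {b : ℚ | Exceptional b ∧ b.num.natAbs = N}.ncard ≤ 4 * (sup3 N).card ^ 5 := by
    calc {b : ℚ | Exceptional b ∧ b.num.natAbs = N}.ncard
        ≤ (((index N).image (cand N) : Finset ℚ) : Set ℚ).ncard :=
          Set.ncard_le_ncard hsub (Finset.finite_toSet _)
      _ = ((index N).image (cand N)).card := Set.ncard_coe_finset _
      _ ≤ (index N).card := Finset.card_image_le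
      _ = _ := index_card N
  calc ({b : ℚ | Exceptional b ∧ b.num.natAbs = N}.ncard : ℝ)
      ≤ ((4 * (sup3 N).card ^ 5 : ℕ) : ℝ) := by exact_mod_cast h1
    _ = 4 * ((sup3 N).card : ℝ) ^ 5 := by push_cast; ring
    _ ≤ 4 * (C * (N : ℝ) ^ (ε / 5)) ^ 5 := by
        apply mul_le_mul_of_nonneg_left _ (by norm_num)
        exact pow_le_pow_left₀ (by positivity) (h N hN) 5
    _ = 4 * C ^ 5 * (N : ℝ) ^ ε := by
        rw [mul_pow, ← Real.rpow_natCast ((N : ℝ) ^ (ε / 5)), ← Real.rpow_mul hNpos.le]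
        have : ε / 5 * ((5 : ℕ) : ℝ) = ε := by push_cast; ring
        rw [this]
        ring

/-- few exceptional `b` with bounded numerator -/
theorem part_three {ε : ℝ} (hε : 0 < ε) : ∃ C : ℝ, 1 ≤ C ∧ ∀ H : ℕ,
    {b : ℚ | Exceptional b ∧ b.num.natAbs ≤ H}.Finite ∧
    ({b : ℚ | Exceptional b ∧ b.num.natAbs ≤ H}.ncard : ℝ) ≤ C * (H : ℝ) ^ (1 + ε) := by
  obtain ⟨C, hC, h⟩ := part_two hε
  refine ⟨C, hC, ?_⟩
  intro H
  have heq : {b : ℚ | Exceptional b ∧ b.num.natAbs ≤ H} =
      ⋃ N ∈ Finset.Icc 1 H, {b : ℚ | Exceptional b ∧ b.num.natAbs = N} := by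
    ext b
    simp only [Set.mem_setOf_eq, Set.mem_iUnion, Finset.mem_Icc, exists_prop]
    constructor
    · rintro ⟨h1, h2⟩
      refine ⟨b.num.natAbs, ⟨?_, h2⟩, h1, rfl⟩
      have : b.num.natAbs ≠ 0 := by simpa using h1.1
      omega
    · rintro ⟨N, ⟨_, h2⟩, h3, h4⟩
      exact ⟨h3, by omega⟩
  have hfin : {b : ℚ | Exceptional b ∧ b.num.natAbs ≤ H}.Finite := by
    rw [heq]
    apply Set.Finite.biUnion (Finset.finite_toSet _)
    intro N hN
    have hN' := Finset.mem_coe.mp hN
    exact (h N (Finset.mem_Icc.mp hN').1).1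
  refine ⟨hfin, ?_⟩
  have hcard : ({b : ℚ | Exceptional b ∧ b.num.natAbs ≤ H}.ncard : ℝ) ≤
      ∑ N ∈ Finset.Icc 1 H, ({b : ℚ | Exceptional b ∧ b.num.natAbs = N}.ncard : ℝ) := by
    have h1 : {b : ℚ | Exceptional b ∧ b.num.natAbs ≤ H}.ncard ≤
        ∑ N ∈ Finset.Icc 1 H, {b : ℚ | Exceptional b ∧ b.num.natAbs = N}.ncard := by
      rw [heq]
      exact Finset.set_ncard_biUnion_le _ _
    exact_mod_cast h1
  rcases Nat.eq_zero_or_pos H with hH | hH
  · subst hH
    have : Finset.Icc 1 0 = (∅ : Finset ℕ) := by simp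
    rw [this, Finset.sum_empty] at hcard
    refine le_trans hcard ?_
    positivity
  have hHpos : (0:ℝ) < H := by exact_mod_cast hH
  calc ({b : ℚ | Exceptional b ∧ b.num.natAbs ≤ H}.ncard : ℝ)
      ≤ ∑ N ∈ Finset.Icc 1 H, ({b : ℚ | Exceptional b ∧ b.num.natAbs = N}.ncard : ℝ) := hcard
    _ ≤ ∑ N ∈ Finset.Icc 1 H, C * (H : ℝ) ^ ε := by
        apply Finset.sum_le_sum
        intro N hN
        obtain ⟨h1, h2⟩ := Finset.mem_Icc.mp hN
        refine le_trans (h N h1).2 ?_
        apply mul_le_mul_of_nonneg_left _ (by linarith)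
        exact Real.rpow_le_rpow (by positivity) (by exact_mod_cast h2) hε.le
    _ = C * (H : ℝ) ^ (1 + ε) := by
        rw [Finset.sum_const, Nat.card_Icc, nsmul_eq_mul, Real.rpow_add hHpos, Real.rpow_one,
          Nat.add_sub_cancel]
        ring

end

section

theorem sum_inv_sq (H : ℕ) (hH : 2 ≤ H) :
    ∑ k ∈ Finset.Icc 2 H, (1 : ℝ) / (k : ℝ) ^ 2 ≤ 3 / 4 - 1 / H := by
  induction H, hH using Nat.le_induction with
  | base =>
    simp only [Finset.Icc_self, Finset.sum_singleton]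
    norm_num
  | succ H hH ih =>
    rw [Finset.sum_Icc_succ_top (by omega)]
    have h1 : (0:ℝ) < H := by positivity
    have h2 : (1 : ℝ) / ((H + 1 : ℕ) : ℝ) ^ 2 ≤ 1 / H - 1 / ((H + 1 : ℕ) : ℝ) := by
      push_cast
      rw [div_sub_div _ _ h1.ne' (by positivity), div_le_div_iff₀ (by positivity) (by positivity)]
      nlinarith
    linarith

/-- at least a quarter of all pairs are coprime -/
theorem coprime_pairs (H : ℕ) :
    (H : ℝ) ^ 2 ≤ 4 * ((((Finset.Ioc 0 H) ×ˢ (Finset.Ioc 0 H)).filter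
      (fun p => Nat.Coprime p.1 p.2)).card : ℝ) := by
  set A := (Finset.Ioc 0 H) ×ˢ (Finset.Ioc 0 H) with hA
  have hAc : A.card = H ^ 2 := by
    rw [hA, Finset.card_product, Nat.card_Ioc, Nat.sub_zero, sq]
  have hsplit := Finset.card_filter_add_card_filter_not (s := A)
    (fun p : ℕ × ℕ => Nat.Coprime p.1 p.2)
  rw [hAc] at hsplit
  have hsub : A.filter (fun p => ¬ Nat.Coprime p.1 p.2) ⊆
      (Finset.Icc 2 H).biUnion (fun k => ((Finset.Ioc 0 H).filter (fun x => k ∣ x)) ×ˢ
        ((Finset.Ioc 0 H).filter (fun x => k ∣ x))) := by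
    intro p hp
    rw [Finset.mem_filter, hA, Finset.mem_product] at hp
    obtain ⟨⟨h1, h2⟩, h3⟩ := hp
    rw [Finset.mem_biUnion]
    refine ⟨Nat.gcd p.1 p.2, ?_, ?_⟩
    · rw [Finset.mem_Icc]
      rw [Finset.mem_Ioc] at h1
      have h4 : Nat.gcd p.1 p.2 ≤ p.1 := Nat.gcd_le_left _ h1.1
      have h5 : 0 < Nat.gcd p.1 p.2 := Nat.gcd_pos_of_pos_left _ h1.1
      have h6 : Nat.gcd p.1 p.2 ≠ 1 := h3
      omega
    · rw [Finset.mem_product, Finset.mem_filter, Finset.mem_filter]
      exact ⟨⟨h1, Nat.gcd_dvd_left _ _⟩, ⟨h2, Nat.gcd_dvd_right _ _⟩⟩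
  have hle : (((A.filter (fun p => ¬ Nat.Coprime p.1 p.2)).card : ℕ) : ℝ) ≤ 3 / 4 * (H : ℝ) ^ 2 := by
    have h1 : (A.filter (fun p => ¬ Nat.Coprime p.1 p.2)).card ≤
        ∑ k ∈ Finset.Icc 2 H, (H / k) ^ 2 := by
      refine le_trans (Finset.card_le_card hsub) (le_trans Finset.card_biUnion_le ?_)
      apply le_of_eq
      apply Finset.sum_congr rfl
      intro k _
      rw [Finset.card_product, Nat.Ioc_filter_dvd_card_eq_div, sq]
    rcases Nat.lt_or_ge H 2 with hH | hH
    · have h2 : Finset.Icc 2 H = ∅ := Finset.Icc_eq_empty (by omega)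
      rw [h2, Finset.sum_empty] at h1
      have h3 : (A.filter (fun p => ¬ Nat.Coprime p.1 p.2)).card = 0 := by omega
      rw [h3, Nat.cast_zero]
      positivity
    · calc (((A.filter (fun p => ¬ Nat.Coprime p.1 p.2)).card : ℕ) : ℝ)
          ≤ ((∑ k ∈ Finset.Icc 2 H, (H / k) ^ 2 : ℕ) : ℝ) := by exact_mod_cast h1
        _ = ∑ k ∈ Finset.Icc 2 H, (((H / k : ℕ) : ℝ)) ^ 2 := by push_cast; rfl
        _ ≤ ∑ k ∈ Finset.Icc 2 H, (H : ℝ) ^ 2 * (1 / (k : ℝ) ^ 2) := by
            apply Finset.sum_le_sum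
            intro k hk
            have hk2 := (Finset.mem_Icc.mp hk).1
            have hkpos : (0:ℝ) < k := by positivity
            have h4 : ((H / k : ℕ) : ℝ) ≤ (H : ℝ) / k := Nat.cast_div_le
            calc (((H / k : ℕ) : ℝ)) ^ 2 ≤ ((H : ℝ) / k) ^ 2 :=
                  pow_le_pow_left₀ (by positivity) h4 2
              _ = _ := by rw [div_pow]; ring
        _ = (H : ℝ) ^ 2 * ∑ k ∈ Finset.Icc 2 H, (1 / (k : ℝ) ^ 2) := by rw [Finset.mul_sum]
        _ ≤ (H : ℝ) ^ 2 * (3 / 4) := by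
            apply mul_le_mul_of_nonneg_left _ (by positivity)
            have := sum_inv_sq H hH
            have h5 : (0:ℝ) ≤ 1 / H := by positivity
            linarith
        _ = _ := by ring
  have hsplit' : (((A.filter (fun p => Nat.Coprime p.1 p.2)).card : ℕ) : ℝ) +
      (((A.filter (fun p => ¬ Nat.Coprime p.1 p.2)).card : ℕ) : ℝ) = (H : ℝ) ^ 2 := by
    exact_mod_cast hsplit
  linarith

/-- the non-zero rational numbers of height at most `H` -/
def Box (H : ℕ) : Set ℚ := {b : ℚ | b ≠ 0 ∧ b.num.natAbs ≤ H ∧ b.den ≤ H}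

theorem box_finite (H : ℕ) : (Box H).Finite := by
  apply Set.Finite.subset (Set.Finite.image (fun p : ℤ × ℤ => ((p.1 : ℚ) / (p.2 : ℚ)))
    (Set.Finite.prod (Set.finite_Icc (-(H : ℤ)) H) (Set.finite_Icc (0 : ℤ) H)))
  rintro b ⟨h0, h1, h2⟩
  refine ⟨(b.num, (b.den : ℤ)), ⟨?_, ?_⟩, ?_⟩
  · simp only [Set.mem_Icc]
    omega
  · simp only [Set.mem_Icc]
    omega
  · simp only
    push_cast
    exact Rat.num_div_den b

theorem box_card (H : ℕ) : (H : ℝ) ^ 2 ≤ 4 * ((Box H).ncard : ℝ) := by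
  refine le_trans (coprime_pairs H) ?_
  apply mul_le_mul_of_nonneg_left _ (by norm_num)
  set T := ((Finset.Ioc 0 H) ×ˢ (Finset.Ioc 0 H)).filter (fun p => Nat.Coprime p.1 p.2) with hT
  have hnd : ∀ p ∈ T, (((p.1 : ℤ) : ℚ) / ((p.2 : ℤ) : ℚ)).num = (p.1 : ℤ) ∧
      (((((p.1 : ℤ) : ℚ) / ((p.2 : ℤ) : ℚ)).den : ℕ) : ℤ) = (p.2 : ℤ) ∧
      0 < p.1 ∧ p.1 ≤ H ∧ 0 < p.2 ∧ p.2 ≤ H := by
    intro p hp
    rw [hT, Finset.mem_filter, Finset.mem_product, Finset.mem_Ioc, Finset.mem_Ioc] at hp
    obtain ⟨⟨h1, h2⟩, h3⟩ := hp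
    have hpos : (0:ℤ) < (p.2 : ℤ) := by exact_mod_cast h2.1
    have hc : Nat.Coprime (p.1 : ℤ).natAbs (p.2 : ℤ).natAbs := by simpa using h3
    exact ⟨Rat.num_div_eq_of_coprime hpos hc, Rat.den_div_eq_of_coprime hpos hc,
      h1.1, h1.2, h2.1, h2.2⟩
  let φ : ℕ × ℕ → ℚ := fun p => ((p.1 : ℤ) : ℚ) / ((p.2 : ℤ) : ℚ)
  have hinj : Set.InjOn φ (T : Set (ℕ × ℕ)) := by
    intro p hp q hq hpq
    obtain ⟨a1, a2, _⟩ := hnd p (Finset.mem_coe.mp hp)
    obtain ⟨c1, c2, _⟩ := hnd q (Finset.mem_coe.mp hq)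
    simp only [φ] at hpq
    rw [hpq] at a1 a2
    apply Prod.ext
    · have := a1.symm.trans c1
      exact_mod_cast this
    · have := a2.symm.trans c2
      exact_mod_cast this
  have h1 : (T.image φ).card = T.card := Finset.card_image_of_injOn hinj
  have h2 : ((T.image φ : Finset ℚ) : Set ℚ) ⊆ Box H := by
    intro b hb
    rw [Finset.mem_coe, Finset.mem_image] at hb
    obtain ⟨p, hp, rfl⟩ := hb
    obtain ⟨a1, a2, a3, a4, a5, a6⟩ := hnd p hp
    refine ⟨?_, ?_, ?_⟩
    · simp only [φ]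
      have : (0:ℚ) < ((p.1 : ℤ) : ℚ) / ((p.2 : ℤ) : ℚ) := by
        apply div_pos
        · exact_mod_cast a3
        · exact_mod_cast a5
      exact this.ne'
    · simp only [φ]
      rw [a1]
      simpa using a4
    · simp only [φ]
      have : (((((p.1 : ℤ) : ℚ) / ((p.2 : ℤ) : ℚ)).den : ℕ) : ℤ) ≤ (H : ℤ) := by
        rw [a2]; exact_mod_cast a6
      exact_mod_cast this
  have h3 : T.card ≤ (Box H).ncard := by
    calc T.card = (T.image φ).card := h1.symm
      _ = ((T.image φ : Finset ℚ) : Set ℚ).ncard := (Set.ncard_coe_finset _).symm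
      _ ≤ (Box H).ncard := Set.ncard_le_ncard h2 (box_finite H)
  exact_mod_cast h3

/-- the exceptional numbers have density zero -/
theorem density_zero : Filter.Tendsto
    (fun H : ℕ => ((Box H ∩ {b : ℚ | Exceptional b}).ncard : ℝ) / ((Box H).ncard : ℝ))
    Filter.atTop (nhds 0) := by
  obtain ⟨C, hC, h⟩ := part_three (ε := 1 / 2) (by norm_num)
  have hlim : Filter.Tendsto (fun H : ℕ => (4 * C) * ((H : ℝ) ^ (-(1 / 2 : ℝ)))) Filter.atTop
      (nhds 0) := by
    have h1 := (tendsto_rpow_neg_atTop (y := (1 / 2 : ℝ)) (by norm_num)).comp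
      (tendsto_natCast_atTop_atTop (R := ℝ))
    have h2 := h1.const_mul (4 * C)
    rw [mul_zero] at h2
    exact h2
  refine squeeze_zero' (Filter.Eventually.of_forall (fun H => by positivity)) ?_ hlim
  filter_upwards [Filter.eventually_ge_atTop 1] with H hH
  have hHpos : (0:ℝ) < H := by exact_mod_cast hH
  have hb := box_card H
  have hbpos : (0:ℝ) < ((Box H).ncard : ℝ) := by
    have : (0:ℝ) < (H : ℝ) ^ 2 := by positivity
    linarith
  rw [div_le_iff₀ hbpos]
  have h1 : ((Box H ∩ {b : ℚ | Exceptional b}).ncard : ℝ) ≤ C * (H : ℝ) ^ (1 + 1 / 2 : ℝ) := by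
    refine le_trans ?_ (h H).2
    have : (Box H ∩ {b : ℚ | Exceptional b}).ncard ≤
        {b : ℚ | Exceptional b ∧ b.num.natAbs ≤ H}.ncard := by
      apply Set.ncard_le_ncard _ (h H).1
      rintro b ⟨⟨_, h2, _⟩, h3⟩
      exact ⟨h3, h2⟩
    exact_mod_cast this
  have h2 : C * (H : ℝ) ^ (1 + 1 / 2 : ℝ) = (C * (H : ℝ) ^ (-(1 / 2 : ℝ))) * (H : ℝ) ^ 2 := by
    rw [mul_assoc, ← Real.rpow_natCast (H : ℝ) 2, ← Real.rpow_add hHpos]
    norm_num
  rw [h2] at h1
  have h3 : (0:ℝ) ≤ C * (H : ℝ) ^ (-(1 / 2 : ℝ)) := by positivity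
  calc ((Box H ∩ {b : ℚ | Exceptional b}).ncard : ℝ)
      ≤ (C * (H : ℝ) ^ (-(1 / 2 : ℝ))) * (H : ℝ) ^ 2 := h1
    _ ≤ (C * (H : ℝ) ^ (-(1 / 2 : ℝ))) * (4 * ((Box H).ncard : ℝ)) :=
        mul_le_mul_of_nonneg_left hb h3
    _ = _ := by ring

end

section

theorem exists_hit {b : ℚ} {u s : ℕ → ℚ} {n : ℕ} (C : Cyc b u s n) (p : ℕ) [Fact p.Prime]
    (hβ : 0 < padicValRat p b)
    (hB : ∀ i, ¬ (-padicValRat p b < padicValRat p (u i) ∧ padicValRat p (u i) < padicValRat p b)) :
    ∃ i, padicValRat p (u i) = padicValRat p b := by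
  by_contra hcon
  push Not at hcon
  have hge : ∀ i, padicValRat p b ≤ padicValRat p (u (i + 1)) := by
    intro i
    exact (typeB_neg hβ (C.v1 p i) (C.v2 p i) (C.v3 p i) (hB i) (hB (i + 1))).2 (hcon i)
  apply per_lt (fun i => - padicValRat p (u i)) C.hn (fun i => by simp only [C.hper]) 1
  intro i hi
  obtain ⟨j, rfl⟩ : ∃ j, i = j + 1 := ⟨i - 1, by omega⟩
  have h1 := hge j
  have h2 := hcon (j + 1)
  have hv1 := C.v1 p (j + 1)
  have h3 := C.v2 p (j + 1) h2
  rw [min_eq_left h1] at h3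
  show - padicValRat p (u (j + 1)) < - padicValRat p (u (j + 1 + 1))
  omega

theorem parity_const {b : ℚ} {u s : ℕ → ℚ} {n : ℕ} (C : Cyc b u s n) (p : ℕ) [Fact p.Prime]
    (i : ℕ) : ∃ t : ℤ, padicValRat p (u i) = padicValRat p (u 0) - 2 * t := by
  induction i with
  | zero => exact ⟨0, by ring⟩
  | succ i ih =>
    obtain ⟨t, ht⟩ := ih
    refine ⟨t + padicValRat p (s i), ?_⟩
    rw [C.v1 p i, ht]
    ring

/-- a parity condition at one prime -/
theorem parity_case {b : ℚ} {u s : ℕ → ℚ} {n : ℕ} (C : Cyc b u s n) (p : ℕ) [Fact p.Prime]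
    (hb : padicValRat p b ≠ 0) (hodd : Odd (padicValRat p b + padicValRat p (u 0))) :
    ∀ i, |s i * s (i + 1)| = 1 := by
  rcases lt_or_gt_of_ne hb with h | h
  · exfalso
    obtain ⟨h1, h2⟩ := C.v_unit p h.le 0
    have h3 : padicValRat p (u 0) = padicValRat p b := by
      by_contra hne
      have h4 := C.v2 p 0 hne
      rw [min_eq_left h2, h1] at h4
      omega
    rw [h3] at hodd
    obtain ⟨k, hk⟩ := hodd
    omega
  · by_contra hnt
    have hB : ∀ i, ¬ (-padicValRat p b < padicValRat p (u i) ∧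
        padicValRat p (u i) < padicValRat p b) := by
      intro i hk
      exact hnt (caseAC C p h i hk)
    obtain ⟨i, hi⟩ := exists_hit C p h hB
    obtain ⟨t, ht⟩ := parity_const C p i
    obtain ⟨k, hk⟩ := hodd
    omega

/-- the cycle attached to a finite periodic point, with its first entry -/
theorem orbit_full {b c : ℚ} (hb : b ≠ 0) (hc : c ≠ 0) {x0 : ℚ}
    (hP : some x0 ∈ Function.periodicPts (f b c)) : x0 ≠ 0 ∧
    ∃ (u s : ℕ → ℚ) (n : ℕ), Cyc b u s n ∧ u 0 = c / x0 ^ 2 ∧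
      ((∀ i, s i * s (i + 1) * (s (i + 2) * s (i + 3)) = 1) →
        (f b c)^[4] (some x0) = some x0) := by
  obtain ⟨n, hn, hPn⟩ := hP
  have hPn' : (f b c)^[n] (some x0) = some x0 := hPn
  have hne : ∀ i, ∃ y : ℚ, y ≠ 0 ∧ (f b c)^[i] (some x0) = some y := by
    intro i
    have hnn : ∀ j, (f b c)^[j] (some x0) ≠ none := by
      intro j hj
      have h1 : (f b c)^[n * j] (some x0) = some x0 := by
        have : Function.IsPeriodicPt (f b c) (n * j) (some x0) := by
          exact Function.IsPeriodicPt.mul_const hPn j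
        exact this
      have h2 : j ≤ n * j := by nlinarith [Nat.mul_le_mul_right j hn]
      obtain ⟨k, hk⟩ := Nat.exists_eq_add_of_le h2
      rw [hk, Nat.add_comm, Function.iterate_add_apply, hj, iter_none] at h1
      exact absurd h1 (by simp)
    cases hy : (f b c)^[i] (some x0) with
    | none => exact absurd hy (hnn i)
    | some y =>
      refine ⟨y, ?_, rfl⟩
      intro hy0
      apply hnn (i + 1)
      rw [Function.iterate_succ_apply', hy, hy0, f_zero]
  choose x hx0 hx using hne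
  have h00 : x 0 = x0 := by
    have := hx 0
    rw [Function.iterate_zero, id] at this
    exact (Option.some.inj this).symm
  have hstep : ∀ i, x (i + 1) = b * x i + c / x i := by
    intro i
    have h1 := hx (i + 1)
    rw [Function.iterate_succ_apply', hx i, f_some b c (hx0 i)] at h1
    exact (Option.some.inj h1).symm
  have hxper : ∀ i, x (i + n) = x i := by
    intro i
    have h1 := hx (i + n)
    rw [Function.iterate_add_apply, hPn', hx i] at h1
    exact (Option.some.inj h1).symm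
  have hsx : ∀ i, x (i + 1) = (b + c / x i ^ 2) * x i := by
    intro i
    rw [hstep]
    have := hx0 i
    field_simp
  refine ⟨by rw [← h00]; exact hx0 0, fun i => c / x i ^ 2, fun i => b + c / x i ^ 2, n, ?_, ?_, ?_⟩
  · refine ⟨hn, hb, fun i => rfl, ?_, ?_, ?_, ?_⟩
    · intro i
      show c / x (i + 1) ^ 2 = c / x i ^ 2 / (b + c / x i ^ 2) ^ 2
      rw [hsx i, mul_pow, div_div, mul_comm]
    · intro i
      show c / x (i + n) ^ 2 = c / x i ^ 2
      rw [hxper]
    · intro i
      exact div_ne_zero hc (pow_ne_zero 2 (hx0 i))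
    · intro i h1
      apply hx0 (i + 1)
      rw [hsx i]
      show (b + c / x i ^ 2) * x i = 0
      have h2 : b + c / x i ^ 2 = 0 := h1
      rw [h2, zero_mul]
  · show c / x 0 ^ 2 = c / x0 ^ 2
    rw [h00]
  · intro hm
    have hm0 := hm 0
    have h4 : x 4 = x 0 := by
      have a0 := hsx 0
      have a1 := hsx 1
      have a2 := hsx 2
      have a3 := hsx 3
      simp only [Nat.zero_add, Nat.reduceAdd] at a0 a1 a2 a3 hm0
      rw [a3, a2, a1, a0]
      rw [a2, a1, a0] at hm0
      linear_combination (x 0) * hm0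
    rw [hx 4, h4, h00]

/-- all rational periodic points have period 1, 2 or 4 -/
def Fine (b c : ℚ) : Prop :=
  ∀ P ∈ Function.periodicPts (f b c),
    Function.minimalPeriod (f b c) P = 1 ∨ Function.minimalPeriod (f b c) P = 2 ∨
      Function.minimalPeriod (f b c) P = 4

theorem fine_of_parity {b c : ℚ} (hb : b ≠ 0) (hc : c ≠ 0) {p : ℕ} (hp : p.Prime)
    (hv : padicValRat p b ≠ 0) (hodd : Odd (padicValRat p (b * c))) : Fine b c := by
  intro P hP
  have : Fact p.Prime := ⟨hp⟩
  apply period_of_four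
  rcases P with _ | x0
  · exact iter_none b c 4
  obtain ⟨hx0, u, s, n, C, hu0, himp⟩ := orbit_full hb hc hP
  apply himp
  apply four_of_abs C
  apply parity_case C p hv
  rw [hu0, padicValRat.div hc (pow_ne_zero 2 hx0), padicValRat.pow]
  rw [padicValRat.mul hb hc] at hodd
  obtain ⟨k, hk⟩ := hodd
  refine ⟨k - padicValRat p x0, ?_⟩
  push_cast
  omega

theorem exceptional_of_not_fine {b c : ℚ} (hb : b ≠ 0) (hc : c ≠ 0) (h : ¬ Fine b c) :
    Exceptional b := by
  simp only [Fine] at h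
  push Not at h
  obtain ⟨P, hP, h1, h2, h3⟩ := h
  exact ⟨hb, c, hc, P, hP, by rintro (h4 | h4 | h4) <;> contradiction⟩

/-- the square class of the numerator is restricted by `c` -/
theorem class_of_not_fine {b c : ℚ} (hb : b ≠ 0) (hc : c ≠ 0) (h : ¬ Fine b c) :
    ∃ g m : ℕ, 1 ≤ m ∧ g ∣ c.num.natAbs * c.den ∧ b.num.natAbs = m ^ 2 * g := by
  have hN0 : b.num.natAbs ≠ 0 := by simpa using hb
  have hK0 : c.num.natAbs * c.den ≠ 0 := Nat.mul_ne_zero (by simpa using hc) c.den_ne_zero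
  obtain ⟨g, m, hgm, hsf⟩ := Nat.sq_mul_squarefree b.num.natAbs
  have hm0 : m ≠ 0 := by
    rintro rfl
    rw [zero_pow (by norm_num), zero_mul] at hgm
    exact hN0 hgm.symm
  have hg0 : g ≠ 0 := hsf.ne_zero
  refine ⟨g, m, Nat.pos_of_ne_zero hm0, ?_, hgm.symm⟩
  have hsub : g.primeFactors ⊆ (c.num.natAbs * c.den).primeFactors := by
    intro p hp
    have hpp := Nat.prime_of_mem_primeFactors hp
    have : Fact p.Prime := ⟨hpp⟩
    have hpg := Nat.dvd_of_mem_primeFactors hp
    rw [Nat.mem_primeFactors]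
    refine ⟨hpp, ?_, hK0⟩
    by_contra hnd
    apply h
    have hpN : p ∣ b.num.natAbs := by
      rw [← hgm]; exact dvd_mul_of_dvd_right hpg _
    have hvg : padicValNat p g = 1 := by
      have h1 : 1 ≤ padicValNat p g := one_le_padicValNat_of_dvd hg0 hpg
      have h2 : padicValNat p g ≤ 1 := by
        by_contra h3
        push Not at h3
        have h4 : p ^ 2 ∣ g := (padicValNat_dvd_iff_le hg0).mpr h3
        rw [sq] at h4
        have := hsf p h4
        exact hpp.one_lt.ne' (Nat.isUnit_iff.mp this)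
      omega
    have hvb : padicValRat p b = (2 * padicValNat p m + 1 : ℕ) := by
      rw [val_of_dvd hpp hpN, ← hgm, padicValNat.mul (pow_ne_zero 2 hm0) hg0, padicValNat.pow, hvg]
    have hvc : padicValRat p c = 0 := by
      have h1 : ¬ p ∣ c.num.natAbs := fun h2 => hnd (dvd_mul_of_dvd_left h2 _)
      have h2 : ¬ p ∣ c.den := fun h2 => hnd (dvd_mul_of_dvd_right h2 _)
      rw [padicValRat, padicValInt, padicValNat.eq_zero_of_not_dvd h1,
        padicValNat.eq_zero_of_not_dvd h2]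
      simp
    apply fine_of_parity hb hc hpp
    · rw [hvb]
      exact_mod_cast (by omega : 2 * padicValNat p m + 1 ≠ 0)
    · rw [padicValRat.mul hb hc, hvb, hvc, add_zero]
      exact ⟨padicValNat p m, by push_cast; ring⟩
  calc g = ∏ p ∈ g.primeFactors, p := (Nat.prod_primeFactors_of_squarefree hsf).symm
    _ ∣ ∏ p ∈ (c.num.natAbs * c.den).primeFactors, p := Finset.prod_dvd_prod_of_subset _ _ _ hsub
    _ ∣ _ := Nat.prod_primeFactors_dvd _

/-- the square class of the denominator is restricted by `c` -/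
theorem class_den_of_not_fine {b c : ℚ} (hb : b ≠ 0) (hc : c ≠ 0) (h : ¬ Fine b c) :
    ∃ g m : ℕ, 1 ≤ m ∧ g ∣ c.num.natAbs * c.den ∧ b.den = m ^ 2 * g := by
  have hN0 : b.den ≠ 0 := b.den_ne_zero
  have hK0 : c.num.natAbs * c.den ≠ 0 := Nat.mul_ne_zero (by simpa using hc) c.den_ne_zero
  obtain ⟨g, m, hgm, hsf⟩ := Nat.sq_mul_squarefree b.den
  have hm0 : m ≠ 0 := by
    rintro rfl
    rw [zero_pow (by norm_num), zero_mul] at hgm
    exact hN0 hgm.symm
  have hg0 : g ≠ 0 := hsf.ne_zero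
  refine ⟨g, m, Nat.pos_of_ne_zero hm0, ?_, hgm.symm⟩
  have hsub : g.primeFactors ⊆ (c.num.natAbs * c.den).primeFactors := by
    intro p hp
    have hpp := Nat.prime_of_mem_primeFactors hp
    have : Fact p.Prime := ⟨hpp⟩
    have hpg := Nat.dvd_of_mem_primeFactors hp
    rw [Nat.mem_primeFactors]
    refine ⟨hpp, ?_, hK0⟩
    by_contra hnd
    apply h
    have hpD : p ∣ b.den := by
      rw [← hgm]; exact dvd_mul_of_dvd_right hpg _
    have hvg : padicValNat p g = 1 := by
      have h1 : 1 ≤ padicValNat p g := one_le_padicValNat_of_dvd hg0 hpg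
      have h2 : padicValNat p g ≤ 1 := by
        by_contra h3
        push Not at h3
        have h4 : p ^ 2 ∣ g := (padicValNat_dvd_iff_le hg0).mpr h3
        rw [sq] at h4
        have := hsf p h4
        exact hpp.one_lt.ne' (Nat.isUnit_iff.mp this)
      omega
    have hvb : padicValRat p b = - ((2 * padicValNat p m + 1 : ℕ) : ℤ) := by
      have h3 : ¬ p ∣ b.num.natAbs := by
        intro h2
        have h4 : p ∣ 1 := by
          rw [← b.reduced]; exact Nat.dvd_gcd h2 hpD
        exact hpp.one_lt.ne' (Nat.dvd_one.mp h4)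
      rw [padicValRat, padicValInt, padicValNat.eq_zero_of_not_dvd h3, ← hgm,
        padicValNat.mul (pow_ne_zero 2 hm0) hg0, padicValNat.pow, hvg]
      simp
    have hvc : padicValRat p c = 0 := by
      have h1 : ¬ p ∣ c.num.natAbs := fun h2 => hnd (dvd_mul_of_dvd_left h2 _)
      have h2 : ¬ p ∣ c.den := fun h2 => hnd (dvd_mul_of_dvd_right h2 _)
      rw [padicValRat, padicValInt, padicValNat.eq_zero_of_not_dvd h1,
        padicValNat.eq_zero_of_not_dvd h2]
      simp
    apply fine_of_parity hb hc hpp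
    · rw [hvb]
      push_cast
      omega
    · rw [padicValRat.mul hb hc, hvb, hvc, add_zero]
      exact ⟨-(padicValNat p m : ℤ) - 1, by push_cast; ring⟩
  calc g = ∏ p ∈ g.primeFactors, p := (Nat.prod_primeFactors_of_squarefree hsf).symm
    _ ∣ ∏ p ∈ (c.num.natAbs * c.den).primeFactors, p := Finset.prod_dvd_prod_of_subset _ _ _ hsub
    _ ∣ _ := Nat.prod_primeFactors_dvd _

/-- the normal form `b x + 1 / x` -/
theorem normal_form {b : ℚ} (hb : b ≠ 0) (h : ¬ Fine b 1) : ∃ β : ℚ, b = - β ^ 2 := by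
  obtain ⟨g, m, _, h1, h2⟩ := class_of_not_fine hb one_ne_zero h
  obtain ⟨g', m', _, h1', h2'⟩ := class_den_of_not_fine hb one_ne_zero h
  have hg : g = 1 := by
    simpa using h1
  have hg' : g' = 1 := by
    simpa using h1'
  rw [hg, mul_one] at h2
  rw [hg', mul_one] at h2'
  have hneg : b < 0 := by
    by_contra hcon
    push Not at hcon
    apply h
    intro P hP
    apply part_one b 1 hb one_ne_zero (Or.inl _) P hP
    rw [mul_one]
    exact lt_of_le_of_ne hcon (Ne.symm hb)
  refine ⟨(m : ℚ) / m', ?_⟩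
  have h3 : (b.num : ℚ) = - ((m ^ 2 : ℕ) : ℚ) := by
    have h4 : b.num < 0 := Rat.num_neg.mpr hneg
    have h5 : b.num = - ((b.num.natAbs : ℕ) : ℤ) := by omega
    rw [h2] at h5
    exact_mod_cast h5
  have h6 : b = b.num / b.den := (Rat.num_div_den b).symm
  rw [h6, h3, h2']
  push_cast
  ring

/-- few exceptional `b` for a given `c` -/
theorem part_four {c : ℚ} (hc : c ≠ 0) {ε : ℝ} (hε : 0 < ε) : ∃ C : ℝ, 0 ≤ C ∧ ∀ H : ℕ,
    {b : ℚ | b ≠ 0 ∧ ¬ Fine b c ∧ b.num.natAbs ≤ H}.Finite ∧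
    ({b : ℚ | b ≠ 0 ∧ ¬ Fine b c ∧ b.num.natAbs ≤ H}.ncard : ℝ) ≤
      C * (H : ℝ) ^ (1 / 2 + ε) := by
  obtain ⟨C, hC, h⟩ := part_two hε
  set K := c.num.natAbs * c.den with hK
  have hK0 : K ≠ 0 := Nat.mul_ne_zero (by simpa using hc) c.den_ne_zero
  refine ⟨(K.divisors.card : ℝ) * C, by positivity, ?_⟩
  intro H
  set I := ((K.divisors ×ˢ Finset.Icc 1 (Nat.sqrt H)).filter (fun t => t.2 ^ 2 * t.1 ≤ H)) with hI
  have hIcard : I.card ≤ K.divisors.card * Nat.sqrt H := by
    calc I.card ≤ (K.divisors ×ˢ Finset.Icc 1 (Nat.sqrt H)).card := Finset.card_filter_le _ _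
      _ = _ := by rw [Finset.card_product, Nat.card_Icc, Nat.add_sub_cancel]
  have hpos : ∀ t ∈ I, 1 ≤ t.2 ^ 2 * t.1 ∧ t.2 ^ 2 * t.1 ≤ H := by
    intro t ht
    rw [hI, Finset.mem_filter, Finset.mem_product, Nat.mem_divisors, Finset.mem_Icc] at ht
    obtain ⟨⟨⟨h1, _⟩, h3, _⟩, h5⟩ := ht
    refine ⟨?_, h5⟩
    have : 0 < t.1 := Nat.pos_of_dvd_of_pos h1 (Nat.pos_of_ne_zero hK0)
    exact Nat.mul_pos (Nat.pow_pos h3) this
  have hsub : {b : ℚ | b ≠ 0 ∧ ¬ Fine b c ∧ b.num.natAbs ≤ H} ⊆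
      ⋃ t ∈ I, {b : ℚ | Exceptional b ∧ b.num.natAbs = t.2 ^ 2 * t.1} := by
    rintro b ⟨hb, hF, hH⟩
    obtain ⟨g, m, h1, h2, h3⟩ := class_of_not_fine hb hc hF
    simp only [Set.mem_iUnion, exists_prop]
    have hg : 0 < g := Nat.pos_of_dvd_of_pos h2 (Nat.pos_of_ne_zero hK0)
    refine ⟨(g, m), ?_, exceptional_of_not_fine hb hc hF, h3⟩
    rw [hI, Finset.mem_filter, Finset.mem_product, Nat.mem_divisors, Finset.mem_Icc]
    refine ⟨⟨⟨h2, hK0⟩, h1, ?_⟩, ?_⟩
    · rw [Nat.le_sqrt, ← sq]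
      refine le_trans ?_ (h3 ▸ hH : m ^ 2 * g ≤ H)
      exact Nat.le_mul_of_pos_right _ hg
    · exact h3 ▸ hH
  have hfinU : (⋃ t ∈ I, {b : ℚ | Exceptional b ∧ b.num.natAbs = t.2 ^ 2 * t.1}).Finite := by
    apply Set.Finite.biUnion (Finset.finite_toSet _)
    intro t ht
    exact (h _ (hpos t (Finset.mem_coe.mp ht)).1).1
  refine ⟨hfinU.subset hsub, ?_⟩
  have hcard : ({b : ℚ | b ≠ 0 ∧ ¬ Fine b c ∧ b.num.natAbs ≤ H}.ncard : ℝ) ≤
      ∑ t ∈ I, ({b : ℚ | Exceptional b ∧ b.num.natAbs = t.2 ^ 2 * t.1}.ncard : ℝ) := by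
    have h1 : {b : ℚ | b ≠ 0 ∧ ¬ Fine b c ∧ b.num.natAbs ≤ H}.ncard ≤
        ∑ t ∈ I, {b : ℚ | Exceptional b ∧ b.num.natAbs = t.2 ^ 2 * t.1}.ncard :=
      le_trans (Set.ncard_le_ncard hsub hfinU) (Finset.set_ncard_biUnion_le _ _)
    exact_mod_cast h1
  rcases Nat.eq_zero_or_pos H with hH | hH
  · subst hH
    have : I = ∅ := by
      rw [Finset.eq_empty_iff_forall_notMem]
      intro t ht
      have := hpos t ht
      omega
    rw [this, Finset.sum_empty] at hcard
    refine le_trans hcard ?_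
    positivity
  have hHpos : (0:ℝ) < H := by exact_mod_cast hH
  have hs : ((Nat.sqrt H : ℕ) : ℝ) ≤ (H : ℝ) ^ (1 / 2 : ℝ) := by
    rw [← Real.sqrt_eq_rpow]
    exact Real.nat_sqrt_le_real_sqrt
  calc ({b : ℚ | b ≠ 0 ∧ ¬ Fine b c ∧ b.num.natAbs ≤ H}.ncard : ℝ)
      ≤ ∑ t ∈ I, ({b : ℚ | Exceptional b ∧ b.num.natAbs = t.2 ^ 2 * t.1}.ncard : ℝ) := hcard
    _ ≤ ∑ t ∈ I, C * (H : ℝ) ^ ε := by
        apply Finset.sum_le_sum
        intro t ht
        obtain ⟨h1, h2⟩ := hpos t ht
        refine le_trans (h _ h1).2 ?_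
        apply mul_le_mul_of_nonneg_left _ (by linarith)
        exact Real.rpow_le_rpow (by positivity) (by exact_mod_cast h2) hε.le
    _ = (I.card : ℝ) * (C * (H : ℝ) ^ ε) := by rw [Finset.sum_const, nsmul_eq_mul]
    _ ≤ ((K.divisors.card : ℝ) * (H : ℝ) ^ (1 / 2 : ℝ)) * (C * (H : ℝ) ^ ε) := by
        apply mul_le_mul_of_nonneg_right _ (by positivity)
        have h1 : (I.card : ℝ) ≤ ((K.divisors.card * Nat.sqrt H : ℕ) : ℝ) := by
          exact_mod_cast hIcard
        refine le_trans h1 ?_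
        push_cast
        exact mul_le_mul_of_nonneg_left hs (by positivity)
    _ = (K.divisors.card : ℝ) * C * (H : ℝ) ^ (1 / 2 + ε) := by
        rw [Real.rpow_add hHpos]; ring

end

/-- Q1 for explicit classes of pairs, for the normal form `b x + 1 / x`, for almost all `b`, and for
almost all `b` when `c` is given. -/
theorem result :
    (∀ b c : ℚ, b ≠ 0 → c ≠ 0 → (0 < b * c ∨ Good b ∨
      ∃ p : ℕ, p.Prime ∧ padicValRat p b ≠ 0 ∧ Odd (padicValRat p (b * c))) → Fine b c) ∧
    (∀ b : ℚ, b ≠ 0 → (¬ ∃ β : ℚ, b = - β ^ 2) → Fine b 1) ∧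
    (∀ ε : ℝ, 0 < ε → ∃ C : ℝ, ∀ H : ℕ,
      {b : ℚ | Exceptional b ∧ b.num.natAbs ≤ H}.Finite ∧
      ({b : ℚ | Exceptional b ∧ b.num.natAbs ≤ H}.ncard : ℝ) ≤ C * (H : ℝ) ^ (1 + ε)) ∧
    (∀ c : ℚ, c ≠ 0 → ∀ ε : ℝ, 0 < ε → ∃ C : ℝ, ∀ H : ℕ,
      {b : ℚ | b ≠ 0 ∧ ¬ Fine b c ∧ b.num.natAbs ≤ H}.Finite ∧
      ({b : ℚ | b ≠ 0 ∧ ¬ Fine b c ∧ b.num.natAbs ≤ H}.ncard : ℝ) ≤ C * (H : ℝ) ^ (1 / 2 + ε)) ∧
    Filter.Tendsto (fun H : ℕ => ((Box H ∩ {b : ℚ | Exceptional b}).ncard : ℝ) /
      ((Box H).ncard : ℝ)) Filter.atTop (nhds 0) := by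
  refine ⟨?_, ?_, ?_, ?_, density_zero⟩
  · rintro b c hb hc (h | h | ⟨p, hp, h1, h2⟩)
    · exact fun P hP => part_one b c hb hc (Or.inl h) P hP
    · exact fun P hP => part_one b c hb hc (Or.inr h) P hP
    · exact fine_of_parity hb hc hp h1 h2
  · intro b hb h
    by_contra hcon
    exact h (normal_form hb hcon)
  · intro ε hε
    obtain ⟨C, _, h⟩ := part_three hε
    exact ⟨C, h⟩
  · intro c hc ε hε
    obtain ⟨C, _, h⟩ := part_four hc hε
    exact ⟨C, h⟩

end Pool.Agent.Results.MP_15eae7_nt.MainQ1
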